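import Pool.Agent.Helper864_OP.Art

set_option autoImplicit false
set_option linter.unusedSectionVars false

/-!
# A specialization lemma for artinian operators
-/

namespace Pool.Agent.Helper864OP

open Polynomial

variable {p : ℕ} [hp : Fact p.Prime] {B : Type} [AddCommGroup B]

/-- **Specialization.** For a locally nilpotent operator `T` with artinian kernel on a `p`-primary
group `B` there is an integer `t` divisible by `p` such that `B / (T - t)` is finite. -/
theorem exists_special (T : Module.End ℤ B) (hnil : ∀ x, ∃ n : ℕ, (T ^ n) x = 0)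
    (hker : IsArtinian ℤ (LinearMap.ker T)) (hB : ∀ x : B, ∃ k : ℕ, (p ^ k : ℤ) • x = 0) :
    ∃ t : ℤ, (p : ℤ) ∣ t ∧ ∃ v : ℕ, (∀ x : B, ∃ y, T y - t • y = (p ^ v : ℤ) • x) ∧
      Finite (B ⧸ LinearMap.range (T - t • (1 : Module.End ℤ B))) := by
  classical
  let P : ℕ → ℤ[X] := fun k => ∏ i ∈ Finset.range k, (X - C ((p : ℤ) ^ (i + 1)))
  have hP : ∀ k, P (k + 1) = P k * (X - C ((p : ℤ) ^ (k + 1))) := fun k =>
    Finset.prod_range_succ _ _
  let E : ℕ → Module.End ℤ B := fun k => aeval T (P k)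
  have hE : ∀ k x, E (k + 1) x = E k (T x - ((p : ℤ) ^ (k + 1)) • x) := by
    intro k x
    simp only [E]
    rw [hP, map_mul, Module.End.mul_apply, map_sub, aeval_X, aeval_C, LinearMap.sub_apply,
      Module.algebraMap_end_apply]
  have hcomm : ∀ k x, T (E k x) = E k (T x) := by
    intro k x
    have h1 : Commute (aeval T (X : ℤ[X])) (aeval T (P k)) := (Commute.all X (P k)).map (aeval T)
    rw [aeval_X] at h1
    exact LinearMap.congr_fun h1.eq x
  have hstep : ∀ k, LinearMap.range (E (k + 1)) ≤ LinearMap.range (E k) := by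
    rintro k _ ⟨x, rfl⟩
    exact ⟨_, (hE k x).symm⟩
  obtain ⟨k, hk⟩ := dual_hilbert T hnil hker (fun k => LinearMap.range (E k))
    (antitone_nat_of_succ_le hstep) (by
      rintro k _ ⟨x, rfl⟩
      exact ⟨T x, (hcomm k x).symm⟩)
  have hk1 : LinearMap.range (E (k + 1)) = LinearMap.range (E k) := hk (k + 1) (Nat.le_succ k)
  set t : ℤ := (p : ℤ) ^ (k + 1) with ht
  have hpt : (p : ℤ) ∣ t := dvd_pow_self _ (Nat.succ_ne_zero k)
  -- the value of `P k` at `t`
  have heval : (P k).eval t ≠ 0 := by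
    simp only [P]
    rw [eval_prod, Finset.prod_ne_zero_iff]
    intro i hi
    rw [eval_sub, eval_X, eval_C, sub_ne_zero, ht]
    intro h
    have h1 : (2 : ℤ) ≤ p := by exact_mod_cast hp.out.two_le
    have h2 := pow_right_injective₀ (by omega : (0 : ℤ) < p) (by omega) h
    rw [Finset.mem_range] at hi
    simp only [Nat.add_left_inj] at h2
    omega
  obtain ⟨Q, hQ⟩ := X_sub_C_dvd_sub_C_eval (a := t) (p := P k)
  have hkey : ∀ x : B, ∃ y, T y - t • y = ((P k).eval t) • x := by
    intro x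
    have h1 : E k x ∈ LinearMap.range (E (k + 1)) := by rw [hk1]; exact ⟨x, rfl⟩
    obtain ⟨y, hy⟩ := h1
    rw [hE, ← sub_eq_zero, ← map_sub] at hy
    obtain ⟨w, hw⟩ : ∃ w, w = T y - t • y - x := ⟨_, rfl⟩
    rw [← hw] at hy
    have h2 : aeval T (P k - C ((P k).eval t)) w = aeval T ((X - C t) * Q) w := by rw [hQ]
    rw [map_sub, map_mul, LinearMap.sub_apply, Module.End.mul_apply, map_sub, aeval_X, aeval_C,
      aeval_C, LinearMap.sub_apply, Module.algebraMap_end_apply, Module.algebraMap_end_apply] at h2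
    have h3 : aeval T (P k) w = 0 := hy
    rw [h3, zero_sub] at h2
    -- `-(c • w) = (T - t) (Q w)`
    refine ⟨((P k).eval t) • y + aeval T Q w, ?_⟩
    have h4 : T (aeval T Q w) = t • aeval T Q w - (P k).eval t • w := by
      rw [eq_comm, ← sub_eq_zero]
      rw [eq_comm, ← sub_eq_zero] at h2
      rw [← neg_eq_zero, ← h2]
      abel
    rw [map_add, map_smul, h4, smul_add, hw]
    have h5 : (P k).eval t • (T y - t • y - x) = (P k).eval t • T y - (P k).eval t • t • y -
        (P k).eval t • x := by rw [smul_sub, smul_sub]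
    rw [h5, smul_comm t ((P k).eval t) y]
    abel
  -- replace the value by a power of `p`
  obtain ⟨v, u, hu, hvu⟩ : ∃ (v : ℕ) (u : ℤ), ¬ (p : ℤ) ∣ u ∧ (P k).eval t = (p : ℤ) ^ v * u := by
    have h1 : FiniteMultiplicity (p : ℤ) ((P k).eval t) := by
      rw [Int.finiteMultiplicity_iff]
      refine ⟨?_, heval⟩
      simpa using hp.out.ne_one
    obtain ⟨u, h2, h3⟩ := h1.exists_eq_pow_mul_and_not_dvd
    exact ⟨_, u, h3, h2⟩
  have hkey2 : ∀ x : B, ∃ y, T y - t • y = (p ^ v : ℤ) • x := by
    intro x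
    obtain ⟨l, hl⟩ := hB x
    have hcop : IsCoprime u ((p : ℤ) ^ l) := by
      apply IsCoprime.pow_right
      have hpi : Prime (p : ℤ) := Nat.prime_iff_prime_int.1 hp.out
      exact ((Prime.coprime_iff_not_dvd hpi).2 hu).symm
    obtain ⟨a, b, hab⟩ := hcop
    obtain ⟨y, hy⟩ := hkey x
    refine ⟨a • y, ?_⟩
    have h1 : T (a • y) - t • a • y = a • (T y - t • y) := by
      rw [map_smul, smul_sub, smul_comm t a y]
    rw [h1, hy, hvu, smul_smul]
    have h2 : a * ((p : ℤ) ^ v * u) = (p : ℤ) ^ v + (-(p : ℤ) ^ v * b) * (p : ℤ) ^ l := by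
      linear_combination (p : ℤ) ^ v * hab
    rw [h2, add_smul, mul_smul, hl, smul_zero, add_zero]
  refine ⟨t, hpt, v, hkey2, ?_⟩
  let R : Submodule ℤ B := LinearMap.range (T - t • (1 : Module.End ℤ B))
  have hart : IsArtinian ℤ (B ⧸ R) := by
    rw [← monotone_stabilizes_iff_artinian]
    intro f
    obtain ⟨n, hn⟩ := dual_hilbert T hnil hker
      (fun n => (OrderDual.ofDual (f n)).comap R.mkQ)
      (fun a b h => Submodule.comap_mono (f.monotone h)) (by
        intro n x hx
        have h1 : T x = (T - t • (1 : Module.End ℤ B)) x + t • x := by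
          simp
        have h2 : R.mkQ (T x) = t • R.mkQ x := by
          rw [h1, map_add, map_smul]
          have h3 : R.mkQ ((T - t • (1 : Module.End ℤ B)) x) = 0 := by
            rw [Submodule.mkQ_apply, Submodule.Quotient.mk_eq_zero]
            exact ⟨x, rfl⟩
          rw [h3, zero_add]
        rw [Submodule.mem_comap, h2]
        exact Submodule.smul_mem _ _ hx)
    refine ⟨n, fun m hm => ?_⟩
    have h1 := hn m hm
    have h2 := Submodule.comap_injective_of_surjective R.mkQ_surjective h1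
    exact (congrArg OrderDual.toDual h2).symm
  have hne : p ^ v ≠ 0 := pow_ne_zero _ hp.out.ne_zero
  refine finite_of_artinian (M := B ⧸ R) hne ?_
  intro x
  obtain ⟨x, rfl⟩ := R.mkQ_surjective x
  obtain ⟨y, hy⟩ := hkey2 x
  rw [← map_nsmul, Submodule.mkQ_apply, Submodule.Quotient.mk_eq_zero]
  refine ⟨y, ?_⟩
  rw [LinearMap.sub_apply, LinearMap.smul_apply, Module.End.one_apply, hy, ← natCast_zsmul]
  push_cast
  rfl

end Pool.Agent.Helper864OP
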