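import Mathlib

set_option autoImplicit false
set_option linter.unusedSectionVars false

/-!
# Artinian modules with a locally nilpotent operator
-/

namespace Pool.Agent.Helper864OP

section dual

variable {R : Type} [CommRing R] {M : Type} [AddCommGroup M] [Module R M]

/-- **Dual form of Hilbert's basis theorem.** -/
theorem dual_hilbert (t : Module.End R M) (hnil : ∀ x, ∃ n : ℕ, (t ^ n) x = 0)
    (hker : IsArtinian R (LinearMap.ker t)) (D : ℕ → Submodule R M) (hD : Antitone D)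
    (ht : ∀ k, ∀ x ∈ D k, t x ∈ D k) : ∃ k, ∀ j, k ≤ j → D j = D k := by
  classical
  let L : ℕ → ℕ → Submodule R (LinearMap.ker t) := fun j k =>
    (Submodule.map (t ^ j) (D k ⊓ LinearMap.ker (t ^ (j + 1)))).comap (LinearMap.ker t).subtype
  have hL : ∀ (j k : ℕ) (x : LinearMap.ker t), x ∈ L j k ↔
      ∃ y ∈ D k, (t ^ (j + 1)) y = 0 ∧ (t ^ j) y = x := by
    intro j k x
    simp only [L, Submodule.mem_comap, Submodule.mem_map, Submodule.mem_inf, LinearMap.mem_ker,
      Submodule.subtype_apply]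
    constructor
    · rintro ⟨y, ⟨h1, h2⟩, h3⟩
      exact ⟨y, h1, h2, h3⟩
    · rintro ⟨y, h1, h2, h3⟩
      exact ⟨y, ⟨h1, h2⟩, h3⟩
  have hLk : ∀ j, Antitone (L j) := by
    intro j k k' h x hx
    rw [hL] at hx ⊢
    obtain ⟨y, hy, h1, h2⟩ := hx
    exact ⟨y, hD h hy, h1, h2⟩
  have hLj1 : ∀ j k, L (j + 1) k ≤ L j k := by
    intro j k x hx
    rw [hL] at hx ⊢
    obtain ⟨y, hy, h1, h2⟩ := hx
    refine ⟨t y, ht k y hy, ?_, ?_⟩
    · rw [← Module.End.mul_apply, ← pow_succ]
      exact h1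
    · rw [← Module.End.mul_apply, ← pow_succ]
      exact h2
  have hLj : ∀ k, Antitone fun j => L j k := fun k => antitone_nat_of_succ_le fun j => hLj1 j k
  obtain ⟨_, ⟨⟨j0, k0⟩, rfl⟩, hmin⟩ := IsArtinian.set_has_minimal
    (Set.range fun q : ℕ × ℕ => L q.1 q.2) ⟨_, ⟨(0, 0), rfl⟩⟩
  have hst : ∀ j k, j0 ≤ j → k0 ≤ k → L j k = L j0 k0 := by
    intro j k hj hk
    have h1 : L j k ≤ L j0 k0 := (hLk j hk).trans (hLj k0 hj)
    by_contra hne
    exact hmin _ ⟨(j, k), rfl⟩ (lt_of_le_of_ne h1 hne)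
  have hfix : ∀ j, ∃ k, ∀ k', k ≤ k' → L j k' = L j k := by
    intro j
    let f : ℕ →o (Submodule R (LinearMap.ker t))ᵒᵈ :=
      ⟨fun k => OrderDual.toDual (L j k), fun a b h => hLk j h⟩
    obtain ⟨n, hn⟩ := IsArtinian.monotone_stabilizes f
    exact ⟨n, fun k' hk' => (congrArg OrderDual.ofDual (hn k' hk')).symm⟩
  choose κ hκ using hfix
  let k1 := max k0 ((Finset.range j0).sup κ)
  have hall : ∀ j k, k1 ≤ k → L j k = L j k1 := by
    intro j k hk
    rcases Nat.lt_or_ge j j0 with h | h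
    · have h1 : κ j ≤ k1 := (Finset.le_sup (f := κ) (Finset.mem_range.2 h)).trans (le_max_right _ _)
      rw [hκ j k (h1.trans hk), hκ j k1 h1]
    · rw [hst j k h ((le_max_left _ _).trans hk), hst j k1 h (le_max_left _ _)]
  refine ⟨k1, fun k hk => le_antisymm (hD hk) ?_⟩
  have key : ∀ (n : ℕ) (x : M), x ∈ D k1 → (t ^ n) x = 0 → x ∈ D k := by
    intro n
    induction n with
    | zero =>
      intro x _ h
      rw [pow_zero, Module.End.one_apply] at h
      rw [h]
      exact zero_mem _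
    | succ n ih =>
      intro x hx h
      have h1 : (t ^ n) x ∈ LinearMap.ker t := by
        rw [LinearMap.mem_ker, ← Module.End.mul_apply, ← pow_succ']
        exact h
      have h2 : (⟨_, h1⟩ : LinearMap.ker t) ∈ L n k1 := (hL _ _ _).2 ⟨x, hx, h, rfl⟩
      rw [← hall n k hk, hL] at h2
      obtain ⟨y, hy, h3, h4⟩ := h2
      have h5 : x - y ∈ D k := ih (x - y) (sub_mem hx (hD hk hy)) (by
        rw [map_sub, h4, sub_self])
      have h6 := add_mem h5 hy
      rwa [sub_add_cancel] at h6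
  intro x hx
  obtain ⟨n, hn⟩ := hnil x
  exact key n x hx hn

end dual

section prim

variable {p : ℕ} {M : Type} [AddCommGroup M]

/-- a `p`-primary group with finite `p`-torsion is artinian -/
theorem artinian_of_finite (hA : ∀ a : M, ∃ k : ℕ, (p ^ k : ℤ) • a = 0)
    (hfin : {a : M | (p : ℤ) • a = 0}.Finite) : IsArtinian ℤ M := by
  let t : Module.End ℤ M := (p : ℤ) • 1
  have ht : ∀ (n : ℕ) (x : M), (t ^ n) x = (p ^ n : ℤ) • x := by
    intro n x
    simp only [t, smul_pow, one_pow, LinearMap.smul_apply, Module.End.one_apply]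
  have hker : IsArtinian ℤ (LinearMap.ker t) := by
    have h1 : Finite (LinearMap.ker t) := by
      refine Set.Finite.subset hfin ?_
      intro x hx
      have h2 := ht 1 x
      rw [pow_one, pow_one] at h2
      have h3 : t x = 0 := hx
      rw [h3] at h2
      exact h2.symm
    infer_instance
  rw [← monotone_stabilizes_iff_artinian]
  intro f
  obtain ⟨k, hk⟩ := dual_hilbert t (fun x => by
    obtain ⟨n, hn⟩ := hA x
    exact ⟨n, by rw [ht, hn]⟩) hker (fun n => OrderDual.ofDual (f n)) (fun a b h => f.monotone h)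
    (fun k x hx => by
      have h2 := ht 1 x
      rw [pow_one, pow_one] at h2
      rw [h2]
      exact Submodule.smul_mem _ _ hx)
  exact ⟨k, fun m hm => (congrArg OrderDual.toDual (hk m hm)).symm⟩

/-- in an artinian module the powers of `p` stabilize -/
theorem exists_stable [IsArtinian ℤ M] : ∃ e : ℕ, ∀ s : ℕ, ∀ x : M, ∃ y : M,
    (p ^ e : ℤ) • x = (p ^ (e + s) : ℤ) • y := by
  let f : ℕ →o (Submodule ℤ M)ᵒᵈ :=
    ⟨fun k => OrderDual.toDual (LinearMap.range ((p ^ k : ℤ) • (LinearMap.id : M →ₗ[ℤ] M))), by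
      intro a b h
      change LinearMap.range _ ≤ LinearMap.range _
      rintro _ ⟨y, rfl⟩
      obtain ⟨c, hc⟩ := pow_dvd_pow (p : ℤ) h
      refine ⟨c • y, ?_⟩
      simp only [LinearMap.smul_apply, LinearMap.id_apply]
      rw [hc, mul_smul]⟩
  obtain ⟨e, he⟩ := IsArtinian.monotone_stabilizes f
  refine ⟨e, fun s x => ?_⟩
  have h1 := congrArg OrderDual.ofDual (he (e + s) (Nat.le_add_right _ _))
  have h2 : (p ^ e : ℤ) • x ∈ LinearMap.range ((p ^ e : ℤ) • (LinearMap.id : M →ₗ[ℤ] M)) := ⟨x, rfl⟩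
  have h3 : (p ^ e : ℤ) • x ∈
      LinearMap.range ((p ^ (e + s) : ℤ) • (LinearMap.id : M →ₗ[ℤ] M)) := by
    have h4 : LinearMap.range ((p ^ e : ℤ) • (LinearMap.id : M →ₗ[ℤ] M)) =
      LinearMap.range ((p ^ (e + s) : ℤ) • (LinearMap.id : M →ₗ[ℤ] M)) := h1
    rw [← h4]
    exact h2
  obtain ⟨y, hy⟩ := h3
  exact ⟨y, hy.symm⟩

lemma finite_of_artinian_zmod {n : ℕ} [NeZero n] {M : Type} [AddCommGroup M] [Module (ZMod n) M]
    (h : IsArtinian (ZMod n) M) : Finite M := by
  have h1 : IsNoetherian (ZMod n) M := IsSemiprimaryRing.isNoetherian_iff_isArtinian.2 h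
  have h2 : Module.Finite (ZMod n) M := ⟨IsNoetherian.noetherian ⊤⟩
  exact Module.finite_of_finite (ZMod n)

/-- an artinian group killed by a positive integer is finite -/
theorem finite_of_artinian {M : Type} [AddCommGroup M] [IsArtinian ℤ M] {n : ℕ} (hn : n ≠ 0)
    (h : ∀ x : M, n • x = 0) : Finite M := by
  have hne : NeZero n := ⟨hn⟩
  let inst : Module (ZMod n) M := AddCommGroup.zmodModule h
  have htower : IsScalarTower ℤ (ZMod n) M := by
    refine ⟨fun a b x => ?_⟩
    obtain ⟨b, rfl⟩ := ZMod.intCast_surjective b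
    rw [zsmul_eq_mul, ← Int.cast_mul, Int.cast_smul_eq_zsmul, Int.cast_smul_eq_zsmul, mul_smul]
  have hart : IsArtinian (ZMod n) M := isArtinian_of_tower ℤ inferInstance
  exact finite_of_artinian_zmod (n := n) hart

end prim

end Pool.Agent.Helper864OP
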