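import Pool.Agent.Helper864_OP.Open

set_option autoImplicit false
set_option linter.unusedSectionVars false

/-!
# The discrete module attached to an integral representation
-/

namespace Pool.Agent.Helper864OP

open Topology

section coef

variable (p : ℕ) [Fact p.Prime] (𝒦 : Type) [Field 𝒦] [Algebra ℤ_[p] 𝒦]

/-- the valuation ring of a finite extension `𝒦` of `ℚ_p` -/
abbrev OO : Type := integralClosure ℤ_[p] 𝒦

/-- the module `(𝒦 / 𝒪) ^ d` -/
abbrev AA (d : ℕ) : Type := Fin d → 𝒦 ⧸ (1 : Submodule (OO p 𝒦) 𝒦)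

variable {p 𝒦} {d : ℕ}

/-- the action of a matrix on `(𝒦 / 𝒪) ^ d` -/
noncomputable def matAct (M : Matrix (Fin d) (Fin d) (OO p 𝒦)) (a : AA p 𝒦 d) : AA p 𝒦 d :=
  fun i => ∑ j, M i j • a j

lemma matAct_one (a : AA p 𝒦 d) : matAct (1 : Matrix (Fin d) (Fin d) (OO p 𝒦)) a = a := by
  funext i
  simp only [matAct]
  rw [Finset.sum_eq_single i]
  · rw [Matrix.one_apply_eq, one_smul]
  · intro j _ hj
    rw [Matrix.one_apply_ne hj.symm, zero_smul]
  · intro h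
    exact absurd (Finset.mem_univ i) h

lemma matAct_mul (M N : Matrix (Fin d) (Fin d) (OO p 𝒦)) (a : AA p 𝒦 d) :
    matAct (M * N) a = matAct M (matAct N a) := by
  funext i
  simp only [matAct, Matrix.mul_apply, Finset.sum_smul, Finset.smul_sum, mul_smul]
  rw [Finset.sum_comm]

lemma matAct_add (M : Matrix (Fin d) (Fin d) (OO p 𝒦)) (a b : AA p 𝒦 d) :
    matAct M (a + b) = matAct M a + matAct M b := by
  funext i
  simp only [matAct, Pi.add_apply, smul_add, Finset.sum_add_distrib]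

/-- the action of `G` on `(𝒦 / 𝒪) ^ d` through `ρ` -/
noncomputable def actHom {G : Type} [Group G] (ρ : G →* GL (Fin d) (OO p 𝒦)) :
    G →* AddMonoid.End (AA p 𝒦 d) where
  toFun g :=
    { toFun := matAct (ρ g : Matrix (Fin d) (Fin d) (OO p 𝒦))
      map_zero' := by
        funext i
        simp only [matAct, Pi.zero_apply, smul_zero, Finset.sum_const_zero]
      map_add' := matAct_add _ }
  map_one' := by
    apply AddMonoidHom.ext
    intro a
    change matAct _ a = a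
    rw [map_one]
    exact matAct_one a
  map_mul' g h := by
    apply AddMonoidHom.ext
    intro a
    change matAct _ a = matAct _ (matAct _ a)
    rw [map_mul]
    exact matAct_mul _ _ a

lemma actHom_apply {G : Type} [Group G] (ρ : G →* GL (Fin d) (OO p 𝒦)) (g : G) (a : AA p 𝒦 d) :
    actHom ρ g a = matAct (ρ g : Matrix (Fin d) (Fin d) (OO p 𝒦)) a := rfl

/-- continuity of `ρ` for the `p`-adic topology -/
def ContRep {G : Type} [Group G] [TopologicalSpace G] (ρ : G →* GL (Fin d) (OO p 𝒦)) : Prop :=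
  ∀ n : ℕ, IsOpen {g : G | ∀ i j, (p : OO p 𝒦) ^ n ∣
    ((ρ g : Matrix (Fin d) (Fin d) (OO p 𝒦)) - 1) i j}

end coef

section props

variable {p : ℕ} [Fact p.Prime] {𝒦 : Type} [Field 𝒦] [Algebra ℚ_[p] 𝒦] [Algebra ℤ_[p] 𝒦]
  [IsScalarTower ℤ_[p] ℚ_[p] 𝒦] [FiniteDimensional ℚ_[p] 𝒦] {d : ℕ}

lemma charZero_KK (p : ℕ) [Fact p.Prime] (𝒦 : Type) [Field 𝒦] [Algebra ℚ_[p] 𝒦] : CharZero 𝒦 :=
  charZero_of_injective_algebraMap (algebraMap ℚ_[p] 𝒦).injective

lemma exists_pow_integral (x : 𝒦) : ∃ k : ℕ, IsIntegral ℤ_[p] ((p : 𝒦) ^ k * x) := by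
  have h0 : (p : 𝒦) = algebraMap ℤ_[p] 𝒦 (p : ℤ_[p]) := by rw [map_natCast]
  have halg : IsAlgebraic ℤ_[p] x := by
    have h1 : IsAlgebraic ℚ_[p] x := Algebra.IsAlgebraic.isAlgebraic x
    exact (IsFractionRing.isAlgebraic_iff ℤ_[p] ℚ_[p] 𝒦).2 h1
  obtain ⟨c, hc, hcx⟩ := halg.exists_integral_multiple
  obtain ⟨k, hk⟩ : ∃ k : ℕ, c ∣ (p : ℤ_[p]) ^ k := by
    obtain ⟨u, k, hu⟩ : ∃ (u : ℤ_[p]ˣ) (k : ℕ), c = u * (p : ℤ_[p]) ^ k :=
      ⟨_, _, PadicInt.unitCoeff_spec hc⟩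
    refine ⟨k, (u⁻¹ : ℤ_[p]ˣ), ?_⟩
    rw [hu, mul_right_comm, Units.mul_inv, one_mul]
  obtain ⟨e, he⟩ := hk
  refine ⟨k, ?_⟩
  have h2 : (p : 𝒦) ^ k * x = algebraMap ℤ_[p] 𝒦 e * (c • x) := by
    rw [h0, ← map_pow, he, map_mul, Algebra.smul_def]
    ring
  rw [h2]
  exact isIntegral_algebraMap.mul hcx

lemma quot_torsion (x : 𝒦 ⧸ (1 : Submodule (OO p 𝒦) 𝒦)) : ∃ k : ℕ, (p ^ k : ℤ) • x = 0 := by
  obtain ⟨y, rfl⟩ := Submodule.mkQ_surjective _ x
  obtain ⟨k, hk⟩ := exists_pow_integral (p := p) y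
  refine ⟨k, ?_⟩
  rw [← map_zsmul, Submodule.mkQ_apply, Submodule.Quotient.mk_eq_zero, Submodule.mem_one]
  refine ⟨⟨_, hk⟩, ?_⟩
  change (p : 𝒦) ^ k * y = _
  rw [zsmul_eq_mul]
  push_cast
  rfl

lemma AA_torsion (a : AA p 𝒦 d) : ∃ k : ℕ, (p ^ k : ℤ) • a = 0 := by
  choose k hk using fun i => quot_torsion (a i)
  refine ⟨Finset.univ.sup k, ?_⟩
  funext i
  have h1 : k i ≤ Finset.univ.sup k := Finset.le_sup (Finset.mem_univ i)
  obtain ⟨c, hc⟩ := pow_dvd_pow (p : ℤ) h1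
  rw [Pi.smul_apply, hc, mul_comm, mul_smul, hk, smul_zero]
  rfl

lemma AA_div (a : AA p 𝒦 d) : ∃ b : AA p 𝒦 d, (p : ℤ) • b = a := by
  have hch : CharZero 𝒦 := charZero_KK p 𝒦
  have hp : (p : 𝒦) ≠ 0 := by exact_mod_cast (Fact.out : p.Prime).ne_zero
  choose y hy using fun i => Submodule.mkQ_surjective (1 : Submodule (OO p 𝒦) 𝒦) (a i)
  refine ⟨fun i => Submodule.mkQ _ ((p : 𝒦)⁻¹ * y i), ?_⟩
  funext i
  rw [Pi.smul_apply, ← map_zsmul, ← hy i]
  congr 1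
  rw [zsmul_eq_mul]
  push_cast
  rw [mul_inv_cancel_left₀ hp]

lemma finite_quot_p : Finite (OO p 𝒦 ⧸ Ideal.span {(p : OO p 𝒦)}) := by
  have hch : CharZero 𝒦 := charZero_KK p 𝒦
  have hfin : Module.Finite ℤ_[p] (OO p 𝒦) := IsIntegralClosure.finite ℤ_[p] ℚ_[p] 𝒦 _
  obtain ⟨S, hS⟩ := hfin.fg_top
  -- the quotient is generated by `S` with coefficients in `ℤ / p`
  let q : OO p 𝒦 →+* OO p 𝒦 ⧸ Ideal.span {(p : OO p 𝒦)} := Ideal.Quotient.mk _
  have hsurj : Function.Surjective fun c : S → ZMod p =>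
      ∑ s : S, q ((c s).val : OO p 𝒦) * q s := by
    intro x
    obtain ⟨y, rfl⟩ := Ideal.Quotient.mk_surjective x
    have hy : y ∈ Submodule.span ℤ_[p] (S : Set (OO p 𝒦)) := by rw [hS]; trivial
    obtain ⟨f, hf⟩ := (Submodule.mem_span_finset' (R := ℤ_[p])).1 hy
    refine ⟨fun s => PadicInt.toZMod (f s), ?_⟩
    rw [← hf]
    change _ = q _
    rw [map_sum]
    refine Finset.sum_congr rfl fun s _ => ?_
    rw [Algebra.smul_def, map_mul]
    congr 1
    rw [← sub_eq_zero, ← map_sub, Ideal.Quotient.eq_zero_iff_mem, Ideal.mem_span_singleton]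
    have h1 : ((PadicInt.toZMod (f s)).val : ℤ_[p]) - f s ∈ Ideal.span {(p : ℤ_[p])} := by
      rw [← PadicInt.maximalIdeal_eq_span_p, ← PadicInt.ker_toZMod, RingHom.mem_ker, map_sub,
        map_natCast, ZMod.natCast_zmod_val, sub_self]
    rw [Ideal.mem_span_singleton] at h1
    obtain ⟨w, hw⟩ := h1
    refine ⟨algebraMap ℤ_[p] (OO p 𝒦) w, ?_⟩
    rw [← map_natCast (algebraMap ℤ_[p] (OO p 𝒦)) ((PadicInt.toZMod (f s)).val), ← map_sub, hw,
      map_mul, map_natCast]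
  exact Finite.of_surjective _ hsurj

lemma quot_fin : {x : 𝒦 ⧸ (1 : Submodule (OO p 𝒦) 𝒦) | (p : ℤ) • x = 0}.Finite := by
  have hch : CharZero 𝒦 := charZero_KK p 𝒦
  have hp : (p : 𝒦) ≠ 0 := by exact_mod_cast (Fact.out : p.Prime).ne_zero
  have hfin := finite_quot_p (p := p) (𝒦 := 𝒦)
  refine (Set.finite_range fun q : OO p 𝒦 ⧸ Ideal.span {(p : OO p 𝒦)} =>
    Submodule.mkQ (1 : Submodule (OO p 𝒦) 𝒦) ((p : 𝒦)⁻¹ * (q.out : OO p 𝒦))).subset ?_
  intro x hx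
  obtain ⟨y, rfl⟩ := Submodule.mkQ_surjective _ x
  have hx' : (p : ℤ) • Submodule.mkQ (1 : Submodule (OO p 𝒦) 𝒦) y = 0 := hx
  rw [← map_zsmul, Submodule.mkQ_apply, Submodule.Quotient.mk_eq_zero, Submodule.mem_one] at hx'
  obtain ⟨z, hz⟩ := hx'
  have hz' : (z : 𝒦) = p * y := by
    have : (z : 𝒦) = (p : ℤ) • y := hz
    rw [this, zsmul_eq_mul]
    push_cast
    rfl
  refine ⟨Ideal.Quotient.mk _ z, ?_⟩
  have h1 : (Ideal.Quotient.mk (Ideal.span {(p : OO p 𝒦)}) z).out - z ∈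
      Ideal.span {(p : OO p 𝒦)} := by
    rw [← Ideal.Quotient.eq_zero_iff_mem, map_sub, Ideal.Quotient.mk_out, sub_self]
  obtain ⟨w, hw⟩ := Ideal.mem_span_singleton.1 h1
  change Submodule.mkQ _ _ = Submodule.mkQ _ _
  rw [← sub_eq_zero, ← map_sub, Submodule.mkQ_apply, Submodule.Quotient.mk_eq_zero,
    Submodule.mem_one]
  refine ⟨w, ?_⟩
  change (w : 𝒦) = _
  have h2 : (((Ideal.Quotient.mk (Ideal.span {(p : OO p 𝒦)}) z).out : OO p 𝒦) : 𝒦) - z =
      p * w := by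
    have := congrArg (fun t : OO p 𝒦 => (t : 𝒦)) hw
    push_cast at this
    exact this
  have h3 : (((Ideal.Quotient.mk (Ideal.span {(p : OO p 𝒦)}) z).out : OO p 𝒦) : 𝒦) =
      p * w + p * y := by
    rw [← h2, ← hz']
    ring
  rw [h3, ← mul_add, inv_mul_cancel_left₀ hp]
  ring

lemma AA_fin : {a : AA p 𝒦 d | (p : ℤ) • a = 0}.Finite := by
  refine (Set.Finite.pi' (fun _ : Fin d => quot_fin (p := p) (𝒦 := 𝒦))).subset ?_
  intro a ha i
  exact congrFun ha i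

lemma matAct_eq {M : Matrix (Fin d) (Fin d) (OO p 𝒦)} {k : ℕ}
    (hM : ∀ i j, (p : OO p 𝒦) ^ k ∣ (M - 1) i j) {a : AA p 𝒦 d} (ha : (p ^ k : ℤ) • a = 0) :
    matAct M a = a := by
  have h1 : M = (M - 1) + 1 := by rw [sub_add_cancel]
  have h2 : matAct (M - 1) a = 0 := by
    funext i
    simp only [matAct, Pi.zero_apply]
    refine Finset.sum_eq_zero fun j _ => ?_
    obtain ⟨c, hc⟩ := hM i j
    rw [hc, mul_comm, mul_smul]
    have h3 : (p : OO p 𝒦) ^ k • a j = 0 := by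
      have h4 : (p ^ k : ℤ) • a j = 0 := congrFun ha j
      rw [← h4, ← Int.cast_smul_eq_zsmul (OO p 𝒦)]
      push_cast
      rfl
    rw [h3, smul_zero]
  have h3 : matAct ((M - 1) + 1) a = matAct (M - 1) a + matAct 1 a := by
    funext i
    simp only [matAct, Pi.add_apply, Matrix.add_apply, add_smul, Finset.sum_add_distrib]
  rw [h1, h3, h2, matAct_one, zero_add]

theorem smooth_actHom {G : Type} [Group G] [TopologicalSpace G] [IsTopologicalGroup G]
    [CompactSpace G]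
    {ρ : G →* GL (Fin d) (OO p 𝒦)} (hρ : ContRep ρ) : Smooth (actHom ρ) := by
  intro a
  obtain ⟨k, hk⟩ := AA_torsion a
  let H : Subgroup G :=
    { carrier := {g | actHom ρ g a = a}
      one_mem' := rho_one _ a
      mul_mem' := by
        intro x y hx hy
        change actHom ρ (x * y) a = a
        rw [rho_mul, hy, hx]
      inv_mem' := by
        intro x hx
        change actHom ρ x⁻¹ a = a
        conv_lhs => rw [← (show actHom ρ x a = a from hx)]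
        exact rho_inv' _ x a }
  have hH : IsOpen (H : Set G) := by
    refine H.isOpen_of_mem_nhds (g := 1) ?_
    refine Filter.mem_of_superset ((hρ k).mem_nhds ?_) ?_
    · intro i j
      rw [map_one]
      change _ ∣ ((1 : Matrix (Fin d) (Fin d) (OO p 𝒦)) - 1) i j
      rw [sub_self]
      exact dvd_zero _
    · intro g hg
      exact matAct_eq hg hk
  exact hH

end props

end Pool.Agent.Helper864OP
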