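import Mathlib

set_option autoImplicit false
set_option linter.unusedSectionVars false

/-!
# Equivariant cochains on a profinite group

`G` is a group acting on the abelian group `A` through `ρ` and on a space `X`. The submodule
`K ρ H X` consists of the locally constant functions `X → A` which are equivariant under the
subgroup `H`. For `X = G`, `G × G`, `G × G × G` these are homogeneous cochains.
-/

namespace Pool.Agent.Helper864OP

open Topology

variable {G : Type} [Group G] [TopologicalSpace G] {A : Type} [AddCommGroup A]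

/-- the locally constant functions `X → A` which are equivariant under `H` -/
def K (ρ : G →* AddMonoid.End A) (H : Subgroup G) (X : Type) [TopologicalSpace X] [MulAction G X] :
    Submodule ℤ (X → A) where
  carrier := {f | IsLocallyConstant f ∧ ∀ h ∈ H, ∀ x, f (h • x) = ρ h (f x)}
  zero_mem' := ⟨IsLocallyConstant.const 0, fun h _ x => by simp⟩
  add_mem' := by
    rintro a b ⟨ha, ha'⟩ ⟨hb, hb'⟩
    refine ⟨ha.add hb, fun h hh x => ?_⟩
    rw [Pi.add_apply, Pi.add_apply, ha' h hh, hb' h hh, map_add]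
  smul_mem' := by
    rintro c f ⟨hf, hf'⟩
    refine ⟨hf.comp (fun a => c • a), fun h hh x => ?_⟩
    rw [Pi.smul_apply, Pi.smul_apply, hf' h hh, map_zsmul]

section basic

variable {ρ : G →* AddMonoid.End A} {H : Subgroup G} {X : Type} [TopologicalSpace X]
  [MulAction G X]

lemma mem_K {f : X → A} : f ∈ K ρ H X ↔ IsLocallyConstant f ∧ ∀ h ∈ H, ∀ x, f (h • x) = ρ h (f x) :=
  Iff.rfl

lemma K_anti {H' : Subgroup G} (h : H ≤ H') : K ρ H' X ≤ K ρ H X := fun _ hf =>
  ⟨hf.1, fun g hg => hf.2 g (h hg)⟩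

end basic

section diff

variable (G A) in
/-- `(d f)(a, b) = f b - f a` -/
def d0 : (G → A) →ₗ[ℤ] (G × G → A) where
  toFun f q := f q.2 - f q.1
  map_add' f g := by funext q; simp only [Pi.add_apply]; abel
  map_smul' c f := by funext q; simp only [Pi.smul_apply, eq_intCast, Int.cast_id, smul_sub]

variable (G A) in
/-- `(d f)(a, b, c) = f (b, c) - f (a, c) + f (a, b)` -/
def d1 : (G × G → A) →ₗ[ℤ] (G × G × G → A) where
  toFun f q := f (q.2.1, q.2.2) - f (q.1, q.2.2) + f (q.1, q.2.1)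
  map_add' f g := by funext q; simp only [Pi.add_apply]; abel
  map_smul' c f := by
    funext q
    simp only [Pi.smul_apply, eq_intCast, Int.cast_id, smul_sub, smul_add]

/-- homogeneous 2-cocycles -/
def IsCoc (F : G × G × G → A) : Prop :=
  ∀ a b c e, F (b, c, e) - F (a, c, e) + F (a, b, e) - F (a, b, c) = 0

lemma d0_apply (f : G → A) (a b : G) : d0 G A f (a, b) = f b - f a := rfl

lemma d1_apply (f : G × G → A) (a b c : G) : d1 G A f (a, b, c) = f (b, c) - f (a, c) + f (a, b) := rfl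

lemma d1_d0 (f : G → A) : d1 G A (d0 G A f) = 0 := by
  funext ⟨a, b, c⟩
  rw [d1_apply, d0_apply, d0_apply, d0_apply, Pi.zero_apply]
  abel

lemma isCoc_d1 (f : G × G → A) : IsCoc (d1 G A f) := by
  intro a b c e
  rw [d1_apply, d1_apply, d1_apply, d1_apply]
  abel

lemma IsCoc.add {F F' : G × G × G → A} (h : IsCoc F) (h' : IsCoc F') : IsCoc (F + F') := by
  intro a b c e
  have h1 := h a b c e
  have h2 := h' a b c e
  simp only [Pi.add_apply]
  calc _ = (F (b, c, e) - F (a, c, e) + F (a, b, e) - F (a, b, c)) +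
      (F' (b, c, e) - F' (a, c, e) + F' (a, b, e) - F' (a, b, c)) := by abel
    _ = 0 := by rw [h1, h2, add_zero]

lemma IsCoc.smul {F : G × G × G → A} (h : IsCoc F) (n : ℤ) : IsCoc (n • F) := by
  intro a b c e
  have h1 := h a b c e
  simp only [Pi.smul_apply]
  rw [← smul_sub, ← smul_add, ← smul_sub, h1, smul_zero]

lemma IsCoc.sub {F F' : G × G × G → A} (h : IsCoc F) (h' : IsCoc F') : IsCoc (F - F') := by
  have := h.add (h'.smul (-1))
  rwa [neg_one_smul, ← sub_eq_add_neg] at this

end diff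

section tau

variable (ρ : G →* AddMonoid.End A) (γ : G) (X : Type) [MulAction G X]

/-- `(τ f)(x) = γ f (γ⁻¹ x)` -/
def tau : (X → A) →ₗ[ℤ] (X → A) where
  toFun f x := ρ γ (f (γ⁻¹ • x))
  map_add' f g := by funext x; simp only [Pi.add_apply, map_add]
  map_smul' c f := by
    funext x
    simp only [Pi.smul_apply, map_zsmul, eq_intCast, Int.cast_id]

variable {ρ γ X}

lemma tau_apply (f : X → A) (x : X) : tau ρ γ X f x = ρ γ (f (γ⁻¹ • x)) := rfl

lemma tau_pow_apply (f : X → A) (n : ℕ) (x : X) :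
    (tau ρ γ X ^ n) f x = ρ (γ ^ n) (f ((γ ^ n)⁻¹ • x)) := by
  induction n generalizing x with
  | zero => simp
  | succ n ih =>
    rw [pow_succ', Module.End.mul_apply, tau_apply, ih, pow_succ' γ, map_mul, mul_inv_rev,
      mul_smul]
    rfl

lemma d0_tau (f : G → A) : d0 G A (tau ρ γ G f) = tau ρ γ (G × G) (d0 G A f) := by
  funext ⟨a, b⟩
  rw [d0_apply, tau_apply, tau_apply, tau_apply, ← map_sub]
  rfl

lemma d1_tau (f : G × G → A) : d1 G A (tau ρ γ (G × G) f) = tau ρ γ (G × G × G) (d1 G A f) := by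
  funext ⟨a, b, c⟩
  rw [d1_apply, tau_apply, tau_apply, tau_apply, tau_apply, ← map_sub, ← map_add]
  rfl

lemma IsCoc.tau {F : G × G × G → A} (h : IsCoc F) : IsCoc (tau ρ γ (G × G × G) F) := by
  intro a b c e
  rw [tau_apply, tau_apply, tau_apply, tau_apply, ← map_sub, ← map_add, ← map_sub]
  have h1 := h (γ⁻¹ * a) (γ⁻¹ * b) (γ⁻¹ * c) (γ⁻¹ * e)
  have h2 : F (γ⁻¹ • (b, c, e)) - F (γ⁻¹ • (a, c, e)) + F (γ⁻¹ • (a, b, e)) -
      F (γ⁻¹ • (a, b, c)) = 0 := h1
  rw [h2, map_zero]

variable [TopologicalSpace X] [ContinuousConstSMul G X] {N : Subgroup G}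

lemma tau_mem (hN : N.Normal) {f : X → A} (hf : f ∈ K ρ N X) : tau ρ γ X f ∈ K ρ N X := by
  refine ⟨?_, fun n hn x => ?_⟩
  · have h1 : IsLocallyConstant fun x : X => f (γ⁻¹ • x) :=
      hf.1.comp_continuous (continuous_const_smul γ⁻¹)
    exact h1.comp (ρ γ)
  · rw [tau_apply, tau_apply]
    have h1 : γ⁻¹ • n • x = (γ⁻¹ * n * γ) • γ⁻¹ • x := by
      rw [smul_smul, smul_smul]
      congr 1
      group
    have h2 : γ⁻¹ * n * γ ∈ N := by
      have := hN.conj_mem n hn γ⁻¹
      rwa [inv_inv] at this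
    rw [h1, hf.2 _ h2]
    have h3 : ∀ (a b : G) (y : A), ρ a (ρ b y) = ρ (a * b) y := by
      intro a b y
      rw [map_mul]
      rfl
    rw [h3, h3]
    congr 2
    group

end tau

section diffK

variable {ρ : G →* AddMonoid.End A} {H : Subgroup G}

lemma d0_mem {f : G → A} (hf : f ∈ K ρ H G) : d0 G A f ∈ K ρ H (G × G) := by
  refine ⟨?_, ?_⟩
  · exact (hf.1.comp_continuous continuous_snd).sub (hf.1.comp_continuous continuous_fst)
  · rintro h hh ⟨a, b⟩
    change f (h • b) - f (h • a) = ρ h (f b - f a)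
    rw [hf.2 h hh, hf.2 h hh, map_sub]

lemma d1_mem {f : G × G → A} (hf : f ∈ K ρ H (G × G)) : d1 G A f ∈ K ρ H (G × G × G) := by
  refine ⟨?_, ?_⟩
  · have h1 : Continuous fun q : G × G × G => (q.2.1, q.2.2) := by fun_prop
    have h2 : Continuous fun q : G × G × G => (q.1, q.2.2) := by fun_prop
    have h3 : Continuous fun q : G × G × G => (q.1, q.2.1) := by fun_prop
    exact ((hf.1.comp_continuous h1).sub (hf.1.comp_continuous h2)).add (hf.1.comp_continuous h3)
  · rintro h hh ⟨a, b, c⟩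
    change f (h • (b, c)) - f (h • (a, c)) + f (h • (a, b)) = ρ h (f (b, c) - f (a, c) + f (a, b))
    rw [hf.2 h hh, hf.2 h hh, hf.2 h hh, map_add, map_sub]

end diffK

/-- `H²` of the subgroup `N` with values in `A` vanishes: every locally constant cocycle
`N × N → A` is the coboundary of a locally constant function `N → A`. -/
def H2Zero (N : Subgroup G) (ρ : G →* AddMonoid.End A) : Prop :=
  ∀ z : N × N → A, IsLocallyConstant z →
    (∀ a b c : N, ρ a (z (b, c)) - z (a * b, c) + z (a, b * c) - z (a, b) = 0) →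
    ∃ y : N → A, IsLocallyConstant y ∧ ∀ a b : N, z (a, b) = ρ a (y b) - y (a * b) + y a

/-- the homogeneous form -/
def HomZero (N : Subgroup G) (ρ : G →* AddMonoid.End A) : Prop :=
  ∀ F ∈ K ρ N (G × G × G), IsCoc F → ∃ y ∈ K ρ N (G × G), d1 G A y = F

end Pool.Agent.Helper864OP
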