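import Pool.Agent.Helper864_OP.Open

set_option autoImplicit false
set_option linter.unusedSectionVars false

/-!
# Congruent modules
-/

namespace Pool.Agent.Helper864OP

open Topology

/-- the elements killed by `p ^ n` -/
def tors (p : ℕ) (A : Type) [AddCommGroup A] (n : ℕ) : AddSubgroup A where
  carrier := {a | (p ^ n : ℤ) • a = 0}
  zero_mem' := smul_zero _
  add_mem' := by
    intro a b (ha : (p ^ n : ℤ) • a = 0) (hb : (p ^ n : ℤ) • b = 0)
    change (p ^ n : ℤ) • (a + b) = 0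
    rw [smul_add, ha, hb, add_zero]
  neg_mem' := by
    intro a (ha : (p ^ n : ℤ) • a = 0)
    change (p ^ n : ℤ) • (-a) = 0
    rw [smul_neg, ha, neg_zero]

lemma mem_tors {p : ℕ} {A : Type} [AddCommGroup A] {n : ℕ} {a : A} :
    a ∈ tors p A n ↔ (p ^ n : ℤ) • a = 0 := Iff.rfl

section ext

variable {p : ℕ} [Fact p.Prime] {A A' : Type} [AddCommGroup A] [AddCommGroup A']

lemma int_div (hA : ∀ a : A, ∃ k : ℕ, (p ^ k : ℤ) • a = 0)
    (hdiv : ∀ a : A, ∃ b, (p : ℤ) • b = a) {n : ℤ} (hn : n ≠ 0) (a : A) : ∃ b, n • b = a := by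
  have hp : p.Prime := Fact.out
  obtain ⟨v, u, hu, hvu⟩ : ∃ (v : ℕ) (u : ℤ), ¬ (p : ℤ) ∣ u ∧ n = (p : ℤ) ^ v * u := by
    have h1 : FiniteMultiplicity (p : ℤ) n := by
      rw [Int.finiteMultiplicity_iff]
      refine ⟨?_, hn⟩
      simpa using hp.ne_one
    obtain ⟨u, h2, h3⟩ := h1.exists_eq_pow_mul_and_not_dvd
    exact ⟨_, u, h3, h2⟩
  have hpow : ∀ (v : ℕ) (a : A), ∃ b, ((p : ℤ) ^ v) • b = a := by
    intro v
    induction v with
    | zero => intro a; exact ⟨a, by rw [pow_zero, one_smul]⟩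
    | succ v ih =>
      intro a
      obtain ⟨b, hb⟩ := ih a
      obtain ⟨c, hc⟩ := hdiv b
      exact ⟨c, by rw [pow_succ, mul_smul, hc, hb]⟩
  obtain ⟨l, hl⟩ := hA a
  have hcop : IsCoprime u ((p : ℤ) ^ l) := by
    apply IsCoprime.pow_right
    have hpi : Prime (p : ℤ) := Nat.prime_iff_prime_int.1 hp
    exact ((Prime.coprime_iff_not_dvd hpi).2 hu).symm
  obtain ⟨x, y, hxy⟩ := hcop
  obtain ⟨b, hb⟩ := hpow v (x • a)
  refine ⟨b, ?_⟩
  rw [hvu, mul_comm, mul_smul, hb, smul_smul]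
  have h2 : u * x = 1 + (-y) * (p : ℤ) ^ l := by linear_combination hxy
  rw [h2, add_smul, mul_smul, hl, smul_zero, add_zero, one_smul]

/-- an isomorphism between the `p ^ n`-torsion subgroups extends -/
theorem exists_ext (hA : ∀ a : A, ∃ k : ℕ, (p ^ k : ℤ) • a = 0)
    (hdiv : ∀ a : A, ∃ b, (p : ℤ) • b = a) (hA' : ∀ a : A', ∃ k : ℕ, (p ^ k : ℤ) • a = 0)
    (hdiv' : ∀ a : A', ∃ b, (p : ℤ) • b = a) {n : ℕ} (hn : 1 ≤ n)
    (e : tors p A n ≃+ tors p A' n) : ∃ E : A ≃+ A', ∀ a : tors p A n, E a = e a := by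
  classical
  let inst : DivisibleBy A' ℤ := divisibleByOfSMulRightSurj A' ℤ
    (fun {n} hn a => int_div hA' hdiv' hn a)
  have hinj : Module.Injective ℤ A' := (Module.Baer.of_divisible A').injective
  obtain ⟨F, hF⟩ := hinj.out (tors p A n).toIntSubmodule.subtype
    (Submodule.subtype_injective _)
    (((tors p A' n).subtype.comp (e : tors p A n →+ tors p A' n)).toIntLinearMap)
  have hF' : ∀ a : tors p A n, F a = e a := fun a => hF a
  have h1n : ∀ {B : Type} [AddCommGroup B] (b : B), (p : ℤ) • b = 0 → (p ^ n : ℤ) • b = 0 := by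
    intro B _ b hb
    obtain ⟨c, hc⟩ := dvd_pow_self (p : ℤ) (Nat.one_le_iff_ne_zero.1 hn)
    rw [hc, mul_comm, mul_smul, hb, smul_zero]
  have hinjF : Function.Injective F := by
    rw [injective_iff_map_eq_zero]
    intro a ha
    obtain ⟨k, hk⟩ := hA a
    induction k with
    | zero =>
      rw [pow_zero, one_smul] at hk
      exact hk
    | succ k ih =>
      apply ih
      have h2 : (p : ℤ) • (p ^ k : ℤ) • a = 0 := by rw [smul_smul, ← pow_succ', hk]
      have h3 : F ((p ^ k : ℤ) • a) = 0 := by rw [map_smul, ha, smul_zero]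
      have h4 := hF' ⟨(p ^ k : ℤ) • a, h1n _ h2⟩
      have h5 : (e ⟨(p ^ k : ℤ) • a, h1n _ h2⟩ : A') = 0 := h4.symm.trans h3
      have h6 : e ⟨(p ^ k : ℤ) • a, h1n _ h2⟩ = 0 := Subtype.ext h5
      have h7 := (map_eq_zero_iff e e.injective).1 h6
      exact congrArg Subtype.val h7
  have hsurjF : Function.Surjective F := by
    intro a'
    obtain ⟨k, hk⟩ := hA' a'
    induction k generalizing a' with
    | zero =>
      rw [pow_zero, one_smul] at hk
      exact ⟨0, by rw [map_zero, hk]⟩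
    | succ k ih =>
      obtain ⟨b, hb⟩ := ih ((p : ℤ) • a') (by rw [smul_smul, ← pow_succ, hk])
      obtain ⟨c, hc⟩ := hdiv b
      have h2 : (p : ℤ) • (a' - F c) = 0 := by rw [smul_sub, ← map_smul, hc, hb, sub_self]
      obtain ⟨x, hx⟩ := e.surjective ⟨a' - F c, h1n _ h2⟩
      refine ⟨x + c, ?_⟩
      rw [map_add, hF', hx, sub_add_cancel]
  refine ⟨AddEquiv.ofBijective F.toAddMonoidHom ⟨hinjF, hsurjF⟩, hF'⟩

end ext

section main

variable {p : ℕ} [Fact p.Prime] {G : Type} [Group G] [TopologicalSpace G] [IsTopologicalGroup G]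
  [CompactSpace G] [TotallyDisconnectedSpace G] {A : Type} [AddCommGroup A]

variable {ρ : G →* AddMonoid.End A} {φ : G →* Multiplicative ℤ_[p]} {γ : G}

/-- two surjections to `ℤ_p` with the same `n`-th layer agree modulo `p ^ n` up to a unit -/
lemma exists_unit (hs : Function.Surjective φ) {φ' : G →* Multiplicative ℤ_[p]} {n : ℕ}
    (hn : 1 ≤ n) (h : ∀ g, (p : ℤ_[p]) ^ n ∣ Multiplicative.toAdd (φ' g) ↔
      (p : ℤ_[p]) ^ n ∣ Multiplicative.toAdd (φ g)) :
    ∃ u : ℤ_[p]ˣ, ∀ g, (p : ℤ_[p]) ^ n ∣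
      (↑u⁻¹ : ℤ_[p]) * Multiplicative.toAdd (φ' g) - Multiplicative.toAdd (φ g) := by
  obtain ⟨γ, hγ⟩ := hs (Multiplicative.ofAdd 1)
  have hunit : IsUnit (Multiplicative.toAdd (φ' γ)) := by
    rw [PadicInt.isUnit_iff]
    by_contra h0
    have h1 : ‖Multiplicative.toAdd (φ' γ)‖ < 1 := lt_of_le_of_ne (PadicInt.norm_le_one _) h0
    rw [PadicInt.norm_lt_one_iff_dvd] at h1
    obtain ⟨c, hc⟩ := h1
    have h2 := (h (γ ^ (p ^ (n - 1)))).1 (by
      rw [map_pow, toAdd_pow, nsmul_eq_mul, hc, ← mul_assoc]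
      push_cast
      rw [← pow_succ, Nat.sub_add_cancel hn]
      exact dvd_mul_right _ _)
    rw [map_pow, hγ, toAdd_pow, toAdd_ofAdd, nsmul_eq_mul, mul_one] at h2
    push_cast at h2
    have h3 := (pow_dvd_pow_iff PadicInt.prime_p.ne_zero PadicInt.prime_p.not_isUnit).1 h2
    omega
  obtain ⟨u, hu⟩ := hunit
  refine ⟨u, fun g => ?_⟩
  have happ := PadicInt.appr_spec n (Multiplicative.toAdd (φ g))
  rw [Ideal.mem_span_singleton] at happ
  set b := (Multiplicative.toAdd (φ g)).appr n with hb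
  have h1 : (p : ℤ_[p]) ^ n ∣ Multiplicative.toAdd (φ (g * (γ ^ b)⁻¹)) := by
    rw [map_mul, map_inv, map_pow, hγ, toAdd_mul, toAdd_inv, toAdd_pow, toAdd_ofAdd,
      nsmul_eq_mul, mul_one, ← sub_eq_add_neg]
    exact happ
  have h2 := (h _).2 h1
  rw [map_mul, map_inv, map_pow, toAdd_mul, toAdd_inv, toAdd_pow, ← hu, nsmul_eq_mul,
    ← sub_eq_add_neg] at h2
  have h3 : (↑u⁻¹ : ℤ_[p]) * Multiplicative.toAdd (φ' g) - Multiplicative.toAdd (φ g) =
      (↑u⁻¹ : ℤ_[p]) * (Multiplicative.toAdd (φ' g) - (b : ℤ_[p]) * (u : ℤ_[p])) -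
        (Multiplicative.toAdd (φ g) - (b : ℤ_[p])) := by
    have h4 : (↑u⁻¹ : ℤ_[p]) * (u : ℤ_[p]) = 1 := Units.inv_mul u
    linear_combination (b : ℤ_[p]) * h4
  rw [h3]
  exact dvd_sub (Dvd.dvd.mul_left h2 _) happ

/-- **Openness**, for congruent modules and Zp-extensions with the same `m`-th layer. -/
theorem open_general (hG : Small G) (hρ : Smooth ρ) (hφ : Continuous φ)
    (hs : Function.Surjective φ) (hA : ∀ a : A, ∃ k : ℕ, (p ^ k : ℤ) • a = 0)
    (hdiv : ∀ a : A, ∃ b, (p : ℤ) • b = a) (hfin : {a : A | (p : ℤ) • a = 0}.Finite)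
    (hWL : H2Zero φ.ker ρ) :
    ∃ m : ℕ, ∀ (A' : Type) [AddCommGroup A'] (ρ' : G →* AddMonoid.End A')
      (φ' : G →* Multiplicative ℤ_[p]), (∀ a : A', ∃ k : ℕ, (p ^ k : ℤ) • a = 0) →
      (∀ a : A', ∃ b, (p : ℤ) • b = a) → Smooth ρ' → Continuous φ' → Function.Surjective φ' →
      (∀ g, (p : ℤ_[p]) ^ m ∣ Multiplicative.toAdd (φ' g) ↔
        (p : ℤ_[p]) ^ m ∣ Multiplicative.toAdd (φ g)) →
      (∃ e : tors p A m ≃+ tors p A' m, ∀ (g : G) (a b : tors p A m), (b : A) = ρ g a →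
        (e b : A') = ρ' g (e a)) → H2Zero φ'.ker ρ' := by
  obtain ⟨m, hm⟩ := open_locus hG hρ hφ hs hA hdiv hfin hWL
  refine ⟨m + 1, ?_⟩
  intro A' _ ρ' φ' hA' hdiv' hρ' hφ' hs' hφφ ⟨e, he⟩
  obtain ⟨u, hu⟩ := exists_unit hs (Nat.le_add_left 1 m) hφφ
  let ψ : G →* Multiplicative ℤ_[p] :=
    { toFun := fun g => Multiplicative.ofAdd ((↑u⁻¹ : ℤ_[p]) * Multiplicative.toAdd (φ' g))
      map_one' := by rw [map_one, toAdd_one, mul_zero, ofAdd_zero]
      map_mul' := by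
        intro a b
        rw [map_mul φ', toAdd_mul, mul_add, ofAdd_add] }
  have hψ : ∀ g, Multiplicative.toAdd (ψ g) = (↑u⁻¹ : ℤ_[p]) * Multiplicative.toAdd (φ' g) :=
    fun g => rfl
  have hker : ψ.ker = φ'.ker := by
    ext g
    rw [MonoidHom.mem_ker, MonoidHom.mem_ker]
    constructor
    · intro h
      have h1 := hψ g
      rw [h, toAdd_one, eq_comm, Units.mul_right_eq_zero] at h1
      exact Multiplicative.toAdd.injective h1
    · intro h
      apply Multiplicative.toAdd.injective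
      rw [hψ, h, toAdd_one, mul_zero]
  have hψc : Continuous ψ :=
    continuous_ofAdd.comp (continuous_const.mul (continuous_toAdd.comp hφ'))
  have hψs : Function.Surjective ψ := by
    intro z
    obtain ⟨g, hg⟩ := hs' (Multiplicative.ofAdd ((u : ℤ_[p]) * Multiplicative.toAdd z))
    refine ⟨g, ?_⟩
    apply Multiplicative.toAdd.injective
    rw [hψ, hg, toAdd_ofAdd, Units.inv_mul_cancel_left]
  obtain ⟨E, hE⟩ := exists_ext hA hdiv hA' hdiv' (Nat.le_add_left 1 m) e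
  -- transport of structure
  let ρ'' : G →* AddMonoid.End A :=
    { toFun := fun g => (E.symm : A' →+ A).comp ((ρ' g : A' →+ A').comp (E : A →+ A'))
      map_one' := by
        apply AddMonoidHom.ext
        intro a
        change E.symm (ρ' 1 (E a)) = a
        rw [rho_one, E.symm_apply_apply]
      map_mul' := by
        intro g h
        apply AddMonoidHom.ext
        intro a
        change E.symm (ρ' (g * h) (E a)) = E.symm (ρ' g (E (E.symm (ρ' h (E a)))))
        rw [E.apply_symm_apply, rho_mul] }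
  have hρ'' : ∀ g a, ρ'' g a = E.symm (ρ' g (E a)) := fun _ _ => rfl
  have hsm : Smooth ρ'' := by
    intro a
    have h1 : {g : G | ρ'' g a = a} = {g : G | ρ' g (E a) = E a} := by
      ext g
      change E.symm (ρ' g (E a)) = a ↔ ρ' g (E a) = E a
      rw [AddEquiv.symm_apply_eq]
    rw [h1]
    exact hρ' (E a)
  have hWL'' : H2Zero ψ.ker ρ'' := by
    refine hm ρ'' ψ hsm hψc hψs (fun g => ?_) (fun g a ha => ?_)
    · rw [hψ]
      exact (pow_dvd_pow _ (Nat.le_succ m)).trans (hu g)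
    · have ha' : (p ^ (m + 1) : ℤ) • a = 0 := by
        rw [pow_succ, mul_comm, mul_smul, ha, smul_zero]
      have hb' : (p ^ (m + 1) : ℤ) • ρ g a = 0 := by
        rw [← map_zsmul, ha', map_zero]
      have h2 := he g ⟨a, ha'⟩ ⟨ρ g a, hb'⟩ rfl
      rw [hρ'', AddEquiv.symm_apply_eq]
      have h3 := hE ⟨a, ha'⟩
      have h4 := hE ⟨ρ g a, hb'⟩
      have h3' : E a = e ⟨a, ha'⟩ := h3
      have h4' : E (ρ g a) = e ⟨ρ g a, hb'⟩ := h4
      rw [h3', h4', h2]
  rw [hker] at hWL''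
  intro z hz hcoc
  obtain ⟨y, hy, hy'⟩ := hWL'' (fun q => E.symm (z q)) (hz.comp E.symm) (by
    intro a b c
    have h1 := congrArg E.symm (hcoc a b c)
    rw [map_zero] at h1
    rw [← h1, map_sub, map_add, map_sub, hρ'', E.apply_symm_apply])
  refine ⟨fun n => E (y n), hy.comp E, fun a b => ?_⟩
  have h1 := congrArg E (hy' a b)
  rw [E.apply_symm_apply, map_add, map_sub, hρ'', E.apply_symm_apply] at h1
  exact h1

end main

end Pool.Agent.Helper864OP
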