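import Pool.Agent.Helper864_OP.Nil
import Pool.Agent.Helper864_OP.Art

set_option autoImplicit false
set_option linter.unusedSectionVars false

/-!
# Finiteness of the `p`-torsion invariant 1-cocycles
-/

namespace Pool.Agent.Helper864OP

open Topology

/-- finitely many open subgroups of each index -/
def Small (G : Type) [Group G] [TopologicalSpace G] : Prop :=
  ∀ m : ℕ, {U : Subgroup G | IsOpen (U : Set G) ∧ U.index ≤ m}.Finite

variable {p : ℕ} [Fact p.Prime] {G : Type} [Group G] [TopologicalSpace G] [IsTopologicalGroup G]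
  [CompactSpace G] [TotallyDisconnectedSpace G] {A : Type} [AddCommGroup A]

variable {ρ : G →* AddMonoid.End A} {φ : G →* Multiplicative ℤ_[p]} {γ : G}

section inv

variable {X : Type} [TopologicalSpace X] [CompactSpace X] [MulAction G X] [ContinuousSMul G X]
  [GSpace G X]

/-- a `τ`-invariant function is equivariant under the whole group -/
lemma tau_inv (hρ : Smooth ρ) (hs : Function.Surjective φ) (hγ : φ γ = Multiplicative.ofAdd 1)
    {f : X → A} (hf : f ∈ K ρ φ.ker X) (hτ : tau ρ γ X f = f) (g : G) (x : X) :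
    f (g • x) = ρ g (f x) := by
  obtain ⟨J, hJ⟩ := exists_K_lv hρ hs hf
  have hτn : ∀ b : ℕ, (tau ρ γ X ^ b) f = f := by
    intro b
    induction b with
    | zero => simp
    | succ b ih => rw [pow_succ', Module.End.mul_apply, ih, hτ]
  set z := Multiplicative.toAdd (φ g) with hz
  have happ := PadicInt.appr_spec J z
  rw [Ideal.mem_span_singleton] at happ
  set b := z.appr J with hb
  have h3 : (γ ^ b)⁻¹ * g ∈ lv φ J := by
    rw [mem_lv, map_mul, map_inv, map_pow, hγ, toAdd_mul, toAdd_inv, toAdd_pow, ← hz, toAdd_ofAdd,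
      nsmul_eq_mul, mul_one, neg_add_eq_sub]
    exact happ
  have h6 : ∀ y : X, f (γ ^ b • y) = ρ (γ ^ b) (f y) := by
    intro y
    have h7 := congrFun (hτn b) (γ ^ b • y)
    rw [tau_pow_apply, inv_smul_smul] at h7
    exact h7.symm
  have h8 : g = γ ^ b * ((γ ^ b)⁻¹ * g) := by group
  calc f (g • x) = f (γ ^ b • ((γ ^ b)⁻¹ * g) • x) := by rw [← mul_smul, ← h8]
    _ = ρ (γ ^ b) (ρ ((γ ^ b)⁻¹ * g) (f x)) := by rw [h6, hJ.2 _ h3]
    _ = ρ g (f x) := by rw [← rho_mul, ← h8]

end inv

/-- the homogeneous 1-cocycles -/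
def Z1 (ρ : G →* AddMonoid.End A) (H : Subgroup G) : Submodule ℤ (G × G → A) :=
  K ρ H (G × G) ⊓ LinearMap.ker (d1 G A)

lemma mem_Z1 {H : Subgroup G} {f : G × G → A} :
    f ∈ Z1 ρ H ↔ f ∈ K ρ H (G × G) ∧ d1 G A f = 0 := Iff.rfl

/-- **finiteness** -/
theorem finite_inv (hG : Small G) (hρ : Smooth ρ) (hs : Function.Surjective φ)
    (hγ : φ γ = Multiplicative.ofAdd 1) (hfin : {a : A | (p : ℤ) • a = 0}.Finite) :
    {f : G × G → A | f ∈ Z1 ρ φ.ker ∧ tau ρ γ (G × G) f = f ∧ (p : ℤ) • f = 0}.Finite := by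
  classical
  let A1 : Set A := {a : A | (p : ℤ) • a = 0}
  have hA1 : Finite A1 := hfin
  -- the subgroup acting trivially on `A1`
  let G0 : Subgroup G :=
    { carrier := {g | ∀ a ∈ A1, ρ g a = a}
      one_mem' := fun a _ => rho_one ρ a
      mul_mem' := by
        intro a b ha hb c hc
        rw [rho_mul, hb c hc, ha c hc]
      inv_mem' := by
        intro a ha c hc
        conv_lhs => rw [← ha c hc]
        exact rho_inv' ρ a c }
  have hG0 : IsOpen (G0 : Set G) := isOpen_finset hρ hfin
  have hq0 : Finite (G ⧸ G0) := Subgroup.quotient_finite_of_isOpen G0 hG0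
  let M : ℕ := Nat.card ((G ⧸ G0) × A1)
  -- the intersection of the open subgroups of index at most `M`
  let U0 : Subgroup G := ⨅ U ∈ {U : Subgroup G | IsOpen (U : Set G) ∧ U.index ≤ M}, U
  have hU0 : IsOpen (U0 : Set G) := by
    have h1 : (U0 : Set G) = ⋂ U ∈ {U : Subgroup G | IsOpen (U : Set G) ∧ U.index ≤ M}, (U : Set G) := by
      simp only [U0, Subgroup.coe_iInf]
    rw [h1]
    exact (hG M).isOpen_biInter fun U hU => hU.1
  have hqU : Finite (G ⧸ U0) := Subgroup.quotient_finite_of_isOpen U0 hU0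
  have key : ∀ f ∈ {f : G × G → A | f ∈ Z1 ρ φ.ker ∧ tau ρ γ (G × G) f = f ∧ (p : ℤ) • f = 0},
      (∀ g (x : G × G), f (g • x) = ρ g (f x)) ∧ (∀ x, f x ∈ A1) ∧
        ∀ g, ∀ u ∈ U0, f (1, g * u) = f (1, g) := by
    rintro f ⟨⟨hf1, hf2⟩, hf3, hf4⟩
    have heq : ∀ g (x : G × G), f (g • x) = ρ g (f x) := tau_inv hρ hs hγ hf1 hf3
    have hval : ∀ x, f x ∈ A1 := fun x => congrFun hf4 x
    have hcoc : ∀ a b c, f (a, c) = f (a, b) + f (b, c) := by
      intro a b c
      have h1 : d1 G A f (a, b, c) = 0 := congrFun hf2 (a, b, c)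
      rw [d1_apply] at h1
      have h2 : f (a, c) = f (a, c) + (f (b, c) - f (a, c) + f (a, b)) := by rw [h1, add_zero]
      rw [h2]
      abel
    have hcr : ∀ a b, f (1, a * b) = f (1, a) + ρ a (f (1, b)) := by
      intro a b
      rw [hcoc 1 a (a * b), ← heq]
      congr 2
      change _ = (a * 1, a * b)
      rw [mul_one]
    refine ⟨heq, hval, ?_⟩
    let U : Subgroup G :=
      { carrier := {g | g ∈ G0 ∧ f (1, g) = 0}
        one_mem' := by
          refine ⟨G0.one_mem, ?_⟩
          have h1 := hcr 1 1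
          rw [mul_one, rho_one] at h1
          exact (left_eq_add.1 h1)
        mul_mem' := by
          rintro a b ⟨ha, ha'⟩ ⟨hb, hb'⟩
          refine ⟨G0.mul_mem ha hb, ?_⟩
          rw [hcr, ha', hb', map_zero, add_zero]
        inv_mem' := by
          rintro a ⟨ha, ha'⟩
          refine ⟨G0.inv_mem ha, ?_⟩
          have h1 := hcr a⁻¹ a
          rw [inv_mul_cancel, ha', map_zero, add_zero] at h1
          rw [← h1]
          have h2 := hcr 1 1
          rw [mul_one, rho_one] at h2
          exact (left_eq_add.1 h2) }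
    have hUo : IsOpen (U : Set G) := by
      have h1 : IsOpen {g : G | f (1, g) = 0} := by
        have h2 : IsLocallyConstant fun g : G => f (1, g) :=
          hf1.1.comp_continuous (by fun_prop)
        exact h2.isOpen_fiber 0
      exact hG0.inter h1
    have hUi : U.index ≤ M := by
      let F : G → (G ⧸ G0) × A1 := fun g => (QuotientGroup.mk g, ⟨f (1, g), hval _⟩)
      have hF : ∀ a b : G, F a = F b ↔ a⁻¹ * b ∈ U := by
        intro a b
        have h2 : f (1, b) = f (1, a) + ρ a (f (1, a⁻¹ * b)) := by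
          rw [← hcr, mul_inv_cancel_left]
        constructor
        · intro h
          have h3 : (QuotientGroup.mk a : G ⧸ G0) = QuotientGroup.mk b := congrArg Prod.fst h
          have h4 : f (1, a) = f (1, b) := congrArg Subtype.val (congrArg Prod.snd h)
          refine ⟨QuotientGroup.eq.1 h3, ?_⟩
          rw [← h4] at h2
          have h5 : ρ a (f (1, a⁻¹ * b)) = 0 := left_eq_add.1 h2
          have h6 := rho_inv' ρ a (f (1, a⁻¹ * b))
          rw [h5, map_zero] at h6
          exact h6.symm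
        · rintro ⟨h3, h4⟩
          rw [h4, map_zero, add_zero] at h2
          refine Prod.ext (QuotientGroup.eq.2 h3) (Subtype.ext h2.symm)
      let F' : G ⧸ U → (G ⧸ G0) × A1 := Quotient.lift F (by
        intro a b h
        exact (hF a b).2 (QuotientGroup.leftRel_apply.1 h))
      have hinj : Function.Injective F' := by
        intro x y
        induction x using Quotient.inductionOn with | _ x => ?_
        induction y using Quotient.inductionOn with | _ y => ?_
        intro h
        exact QuotientGroup.eq.2 ((hF x y).1 h)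
      exact Nat.card_le_card_of_injective F' hinj
    intro g u hu
    have hu' : u ∈ U := by
      have h1 : U0 ≤ U := iInf₂_le U ⟨hUo, hUi⟩
      exact h1 hu
    rw [hcr, hu'.2, map_zero, add_zero]
  -- conclusion
  let Φ : (G × G → A) → (G → A) := fun f g => f (1, g)
  have hΦ : Set.InjOn Φ
      {f : G × G → A | f ∈ Z1 ρ φ.ker ∧ tau ρ γ (G × G) f = f ∧ (p : ℤ) • f = 0} := by
    intro f hf f' hf' h
    obtain ⟨h1, -, -⟩ := key f hf
    obtain ⟨h1', -, -⟩ := key f' hf'
    funext ⟨a, b⟩
    have h2 : (a, b) = a • ((1 : G), a⁻¹ * b) := by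
      change (a, b) = (a * 1, a * (a⁻¹ * b))
      rw [mul_one, mul_inv_cancel_left]
    rw [h2, h1, h1']
    exact congrArg (ρ a) (congrFun h (a⁻¹ * b))
  refine Set.Finite.of_finite_image ?_ hΦ
  have hfinset : (Set.range fun (s : (G ⧸ U0) → A1) (g : G) => (s (QuotientGroup.mk g) : A)).Finite :=
    Set.finite_range _
  refine hfinset.subset ?_
  rintro _ ⟨f, hf, rfl⟩
  obtain ⟨-, h2, h3⟩ := key f hf
  refine ⟨fun q => ⟨f (1, q.out), h2 _⟩, ?_⟩
  funext g
  change f (1, (QuotientGroup.mk g : G ⧸ U0).out) = f (1, g)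
  have h4 : (QuotientGroup.mk (QuotientGroup.mk g : G ⧸ U0).out : G ⧸ U0) = QuotientGroup.mk g :=
    Quotient.out_eq' _
  rw [eq_comm, QuotientGroup.eq] at h4
  have h5 := h3 g _ h4
  rw [mul_inv_cancel_left] at h5
  exact h5

end Pool.Agent.Helper864OP
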