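import Pool.Agent.Helper864_OP.Inert
import Pool.Agent.Helper864_OP.Fin

set_option autoImplicit false
set_option linter.unusedSectionVars false

/-!
# The theorem of Hermite and Minkowski for `G_{F,S}`
-/

namespace Pool.Agent.Helper864OP

open NumberField IsDedekindDomain MZ Module
open scoped Pointwise

lemma finite_le {Ω : Type} [Field Ω] [CharZero Ω] (M : IntermediateField ℚ Ω)
    (hM : FiniteDimensional ℚ M) : {L : IntermediateField ℚ Ω | L ≤ M}.Finite := by
  have h1 : Finite (IntermediateField ℚ M) :=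
    Field.finite_intermediateField_of_exists_primitive_element ℚ M
      (Field.exists_primitive_element ℚ M)
  refine (Set.finite_range fun L : IntermediateField ℚ M => IntermediateField.lift L).subset ?_
  intro L hL
  exact ⟨IntermediateField.restrict hL, IntermediateField.lift_restrict hL⟩

lemma index_normalCore_le {G : Type} [Group G] (H : Subgroup G) (h : H.index ≠ 0) :
    H.normalCore.index ≤ H.index.factorial := by
  have h1 : H.normalCore.index ∣ H.index.factorial := by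
    have hf : H.FiniteIndex := ⟨h⟩
    rw [Subgroup.normalCore_eq_ker, Subgroup.index_ker, Subgroup.index_eq_card, ← Nat.card_perm]
    exact Subgroup.card_subgroup_dvd_card _
  exact Nat.le_of_dvd (Nat.factorial_pos _) h1

variable {F Ω : Type} [Field F] [NumberField F] [Field Ω] [CharZero Ω] [Algebra F Ω]
  [IsAlgClosure F Ω]

/-- an integer divisible by all the bad primes -/
lemma exists_bad (S : Set (HeightOneSpectrum (𝓞 F))) (hS : S.Finite) :
    ∃ N : ℕ, N ≠ 0 ∧ ∀ ℓ : ℕ, ℓ.Prime → ℓ ∉ N.primeFactors →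
      (∀ v ∈ S, (ℓ : 𝓞 F) ∉ v.asIdeal) ∧
      (∀ Q : Ideal (𝓞 F), ∀ _ : Q.IsPrime, Q ≠ ⊥ → (ℓ : 𝓞 F) ∈ Q →
        Algebra.IsUnramifiedAt (𝓞 ℚ) Q) := by
  classical
  let D : Ideal (𝓞 F) := differentIdeal (𝓞 ℚ) (𝓞 F)
  have hD : D ≠ ⊥ := differentIdeal_ne_bot
  let N1 : ℕ := Ideal.absNorm D
  have hN1 : N1 ≠ 0 := by
    intro h
    exact hD (Ideal.absNorm_eq_zero_iff.1 h)
  have hN1D : (N1 : 𝓞 F) ∈ D := Ideal.absNorm_mem D
  let N2 : ℕ := ∏ v ∈ hS.toFinset, Ideal.absNorm v.asIdeal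
  have hN2 : N2 ≠ 0 := by
    refine Finset.prod_ne_zero_iff.2 fun v _ h => v.ne_bot (Ideal.absNorm_eq_zero_iff.1 h)
  have hN2v : ∀ v ∈ S, (N2 : 𝓞 F) ∈ v.asIdeal := by
    intro v hv
    obtain ⟨c, hc⟩ := Finset.dvd_prod_of_mem (fun v : HeightOneSpectrum (𝓞 F) =>
      Ideal.absNorm v.asIdeal) (hS.mem_toFinset.2 hv)
    have h1 : N2 = Ideal.absNorm v.asIdeal * c := hc
    rw [h1, Nat.cast_mul]
    exact Ideal.mul_mem_right _ _ (Ideal.absNorm_mem _)
  refine ⟨N1 * N2, mul_ne_zero hN1 hN2, ?_⟩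
  intro ℓ hℓ hℓN
  have hcop : IsCoprime (ℓ : ℤ) ((N1 * N2 : ℕ) : ℤ) := by
    rw [Nat.isCoprime_iff_coprime, Nat.Prime.coprime_iff_not_dvd hℓ]
    intro h
    exact hℓN (Nat.mem_primeFactors.2 ⟨hℓ, h, mul_ne_zero hN1 hN2⟩)
  have key : ∀ Q : Ideal (𝓞 F), Q ≠ ⊤ → (ℓ : 𝓞 F) ∈ Q → ((N1 * N2 : ℕ) : 𝓞 F) ∈ Q → False := by
    intro Q hQ h1 h2
    obtain ⟨a, b, hab⟩ := hcop
    apply hQ
    rw [Ideal.eq_top_iff_one]
    have h3 := congrArg (fun z : ℤ => (z : 𝓞 F)) hab
    simp only [Int.cast_add, Int.cast_mul, Int.cast_natCast, Int.cast_one] at h3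
    rw [← h3]
    exact Q.add_mem (Q.mul_mem_left _ h1) (Q.mul_mem_left _ h2)
  refine ⟨fun v hv h => key v.asIdeal v.isPrime.ne_top h ?_, fun Q hQ hQ0 hℓQ => ?_⟩
  · rw [Nat.cast_mul]
    exact Ideal.mul_mem_left _ _ (hN2v v hv)
  · rw [← not_dvd_differentIdeal_iff]
    intro hdvd
    refine key Q hQ.ne_top hℓQ ?_
    rw [Nat.cast_mul]
    exact Ideal.mul_mem_right _ _ (Ideal.dvd_iff_le.1 hdvd hN1D)

/-- **Hermite-Minkowski.** -/
theorem small_GFS (S : Set (HeightOneSpectrum (𝓞 F))) (hS : S.Finite) : Small (GFS Ω S) := by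
  classical
  intro m
  obtain ⟨N0, hN0, hbad⟩ := exists_bad S hS
  have hgalΩ : IsGalois ℚ Ω := isGalois_rat F
  have hgalS : IsGalois F (FSmax S : IntermediateField F Ω) := Pool.Agent.W178.MZK.K7 F Ω S
  let n : ℕ := finrank ℚ F
  let D : ℕ := (n * m).factorial
  let N : ℕ := (D * ∏ ℓ ∈ N0.primeFactors, ℓ) ^ D
  let fM : Set (IntermediateField ℚ Ω) :=
    (fun K : {F : IntermediateField ℚ Ω // FiniteDimensional ℚ F} => K.1) ''
      {K : {F : IntermediateField ℚ Ω // FiniteDimensional ℚ F} |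
        haveI : NumberField K.1 := @NumberField.mk _ _ inferInstance K.prop
        |discr K.1| ≤ N}
  have hfM : fM.Finite := (NumberField.finite_of_discr_bdd Ω N).image _
  have hfin2 : (⋃ M ∈ fM, {L : IntermediateField ℚ Ω | L ≤ M}).Finite := by
    refine hfM.biUnion ?_
    rintro _ ⟨K, -, rfl⟩
    exact finite_le K.1 K.2
  let LU : Subgroup (GFS Ω S) → IntermediateField F Ω := fun U =>
    IntermediateField.lift (IntermediateField.fixedField U)
  have hclosed : ∀ U : Subgroup (GFS Ω S), IsOpen (U : Set (GFS Ω S)) →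
      (IntermediateField.fixedField U).fixingSubgroup = U := fun U hU =>
    InfiniteGalois.fixingSubgroup_fixedField ⟨U, Subgroup.isClosed_of_isOpen _ hU⟩
  refine Set.Finite.of_finite_image (f := fun U => (LU U).restrictScalars ℚ)
    (hfin2.subset ?_) ?_
  · rintro _ ⟨U, ⟨hUo, hUi⟩, rfl⟩
    have hfd0 : FiniteDimensional F (IntermediateField.fixedField U) :=
      (InfiniteGalois.isOpen_iff_finite _).1 (by rw [hclosed U hUo]; exact hUo)
    have hfd : FiniteDimensional F (LU U) :=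
      LinearEquiv.finiteDimensional
        (IntermediateField.liftAlgEquiv (IntermediateField.fixedField U)).toLinearEquiv
    have hdeg : finrank F (LU U) = U.index := by
      rw [← (IntermediateField.liftAlgEquiv
        (IntermediateField.fixedField U)).toLinearEquiv.finrank_eq,
        IntermediateField.finrank_eq_fixingSubgroup_index, hclosed U hUo]
    have hunr : UnramifiedOutside S (LU U) :=
      MZ413.stmExH1 F Ω S (LU U) hfd (IntermediateField.lift_le _)
    let L0 : IntermediateField ℚ Ω := (LU U).restrictScalars ℚ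
    have hL0 : FiniteDimensional ℚ L0 := FiniteDimensional.trans ℚ F (LU U)
    have hL0deg : finrank ℚ L0 = n * U.index := by
      rw [← hdeg]
      exact (finrank_mul_finrank ℚ F (LU U)).symm
    let H : Subgroup Gal(Ω/ℚ) := L0.fixingSubgroup
    have hHi : H.index = n * U.index := by
      rw [← hL0deg, IntermediateField.finrank_eq_fixingSubgroup_index]
    have hHo : IsOpen (H : Set Gal(Ω/ℚ)) := (InfiniteGalois.isOpen_iff_finite L0).2 hL0
    have hn0 : n ≠ 0 := finrank_pos.ne'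
    have hU0 : U.index ≠ 0 := by
      rw [← hdeg]
      exact finrank_pos.ne'
    have hH0 : H.index ≠ 0 := by
      rw [hHi]
      exact mul_ne_zero hn0 hU0
    let H' : Subgroup Gal(Ω/ℚ) := H.normalCore
    have hH'i : H'.index ≤ D := by
      refine (index_normalCore_le H hH0).trans (Nat.factorial_le ?_)
      rw [hHi]
      exact Nat.mul_le_mul_left _ hUi
    have hH'c : IsClosed (H' : Set Gal(Ω/ℚ)) :=
      H.normalCore_isClosed (Subgroup.isClosed_of_isOpen _ hHo)
    have hHf : H.FiniteIndex := ⟨hH0⟩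
    have hH'f : H'.FiniteIndex := inferInstance
    have hH'o : IsOpen (H' : Set Gal(Ω/ℚ)) :=
      Subgroup.isOpen_of_isClosed_of_finiteIndex _ hH'c
    let M : IntermediateField ℚ Ω := IntermediateField.fixedField H'
    have hfix : M.fixingSubgroup = H' :=
      InfiniteGalois.fixingSubgroup_fixedField ⟨H', hH'c⟩
    have hMfd : FiniteDimensional ℚ M :=
      (InfiniteGalois.isOpen_iff_finite M).1 (by rw [hfix]; exact hH'o)
    have hMgal : IsGalois ℚ M :=
      (InfiniteGalois.normal_iff_isGalois M).1 (by rw [hfix]; exact H.normalCore_normal)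
    have hMnf : NumberField M := ⟨⟩
    have hMdeg : finrank ℚ M ≤ D := by
      rw [IntermediateField.finrank_eq_fixingSubgroup_index, hfix]
      exact hH'i
    have hin : ∀ ℓ : ℕ, ℓ.Prime → ℓ ∉ N0.primeFactors → ∀ P : Ideal (𝓞 Ω), P.IsMaximal →
        (ℓ : 𝓞 Ω) ∈ P → ∀ τ : Gal(Ω/ℚ), (∀ x : 𝓞 Ω, τ • x - x ∈ P) → τ ∈ H := by
      intro ℓ hℓ hℓN P hP hℓP τ hτ
      obtain ⟨h1, h2⟩ := hbad ℓ hℓ hℓN
      rw [IntermediateField.mem_fixingSubgroup_iff]
      intro x hx
      exact inert_fix S (LU U) hunr ℓ hℓ.ne_zero h1 h2 P hP hℓP τ hτ x hx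
    have hin' : ∀ ℓ : ℕ, ℓ.Prime → ℓ ∉ N0.primeFactors → ∀ P : Ideal (𝓞 Ω), P.IsMaximal →
        (ℓ : 𝓞 Ω) ∈ P → ∀ τ : Gal(Ω/ℚ), (∀ x : 𝓞 Ω, τ • x - x ∈ P) → τ ∈ H' := by
      intro ℓ hℓ hℓN P hP hℓP τ hτ σ
      have hP' : (σ • P).IsMaximal := by
        have h1 : (σ • P) = P.comap (MulSemiringAction.toRingEquiv Gal(Ω/ℚ) (𝓞 Ω) σ⁻¹ :
            𝓞 Ω →+* 𝓞 Ω) := by
          ext x
          rw [Ideal.mem_pointwise_smul_iff_inv_smul_mem]
          rfl
        rw [h1]
        exact Ideal.comap_isMaximal_of_equiv (MulSemiringAction.toRingEquiv Gal(Ω/ℚ) (𝓞 Ω) σ⁻¹)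
      refine hin ℓ hℓ hℓN (σ • P) hP' ?_ _ ?_
      · rw [Ideal.mem_pointwise_smul_iff_inv_smul_mem]
        have h1 : σ⁻¹ • (ℓ : 𝓞 Ω) = (ℓ : 𝓞 Ω) := by
          apply RingOfIntegers.ext
          rw [Pool.Agent.Y800.HM.coe_smul]
          push_cast
          exact map_natCast _ ℓ
        rwa [h1]
      · intro x
        rw [Ideal.mem_pointwise_smul_iff_inv_smul_mem, smul_sub]
        have h1 : σ⁻¹ • (σ * τ * σ⁻¹) • x = τ • σ⁻¹ • x := by
          rw [smul_smul, smul_smul]
          congr 1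
          group
        rw [h1]
        exact hτ _
    have hdisc := Pool.Agent.Y800.HM.discr_le M N0.primeFactors
      (fun p hp => Nat.prime_of_mem_primeFactors hp) (fun p hp hpS =>
        Pool.Agent.Y800.HM.inert_triv H' M hfix p (hin' p hp hpS))
    have hprod : 1 ≤ ∏ ℓ ∈ N0.primeFactors, ℓ :=
      Finset.prod_pos fun p hp => (Nat.prime_of_mem_primeFactors hp).pos
    have h3 : (discr M).natAbs ≤ N := by
      refine hdisc.trans ?_
      have hpos : 1 ≤ D := Nat.factorial_pos _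
      exact (Nat.pow_le_pow_left (Nat.mul_le_mul_right _ hMdeg) _).trans
        (Nat.pow_le_pow_right (Nat.mul_pos hpos hprod) hMdeg)
    have h4 : |discr M| ≤ (N : ℤ) := by
      rw [Int.abs_eq_natAbs]
      exact_mod_cast h3
    have hMem : M ∈ fM := ⟨⟨M, hMfd⟩, h4, rfl⟩
    simp only [Set.mem_iUnion]
    refine ⟨M, hMem, ?_⟩
    change L0 ≤ M
    have h5 : L0 = IntermediateField.fixedField H := (InfiniteGalois.fixedField_fixingSubgroup L0).symm
    rw [h5]
    exact IntermediateField.fixedField_antitone H.normalCore_le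
  · rintro U ⟨hUo, -⟩ U' ⟨hUo', -⟩ h
    have h1 : LU U = LU U' := by
      have h2 : (LU U).restrictScalars ℚ = (LU U').restrictScalars ℚ := h
      ext x
      have h3 : x ∈ (LU U).restrictScalars ℚ ↔ x ∈ (LU U').restrictScalars ℚ := by rw [h2]
      exact h3
    have h2 : IntermediateField.fixedField U = IntermediateField.fixedField U' := by
      ext x
      rw [← IntermediateField.mem_lift x, ← IntermediateField.mem_lift x]
      change (x : Ω) ∈ LU U ↔ (x : Ω) ∈ LU U'
      rw [h1]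
    rw [← hclosed U hUo, ← hclosed U' hUo', h2]

end Pool.Agent.Helper864OP
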