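import Pool.Agent.Y800.HM
import Pool.Agent.W413.MZ.H1
import Pool.Agent.W178.MZ.K6

set_option autoImplicit false
set_option linter.unusedSectionVars false

/-!
# Inertia over `ℚ` and extensions of a number field unramified outside `S`
-/

namespace Pool.Agent.Helper864OP

open NumberField IsDedekindDomain MZ
open scoped Pointwise

variable {F Ω : Type} [Field F] [NumberField F] [Field Ω] [CharZero Ω] [Algebra F Ω]
  [IsAlgClosure F Ω]

lemma isGalois_rat (F : Type) {Ω : Type} [Field F] [NumberField F] [Field Ω] [CharZero Ω]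
    [Algebra F Ω] [IsAlgClosure F Ω] : IsGalois ℚ Ω := by
  have : IsAlgClosed Ω := IsAlgClosure.isAlgClosed F
  have : Algebra.IsAlgebraic F Ω := IsAlgClosure.isAlgebraic
  have : Algebra.IsAlgebraic ℚ Ω := Algebra.IsAlgebraic.trans ℚ F Ω
  have : IsAlgClosure ℚ Ω := ⟨inferInstance, inferInstance⟩
  have : Normal ℚ Ω := IsAlgClosure.normal ℚ Ω
  exact ⟨⟩

/-- the inertia groups of `ℚ` away from the places of `S` and the ramified places of `F` act
trivially on an extension of `F` unramified outside `S` -/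
theorem inert_fix (S : Set (HeightOneSpectrum (𝓞 F))) (L : IntermediateField F Ω)
    [FiniteDimensional F L] (hL : UnramifiedOutside S L) (ℓ : ℕ) (hℓ0 : ℓ ≠ 0)
    (hS : ∀ v ∈ S, (ℓ : 𝓞 F) ∉ v.asIdeal)
    (hF : ∀ Q : Ideal (𝓞 F), ∀ _ : Q.IsPrime, Q ≠ ⊥ → (ℓ : 𝓞 F) ∈ Q →
      Algebra.IsUnramifiedAt (𝓞 ℚ) Q)
    (P : Ideal (𝓞 Ω)) (hP : P.IsMaximal) (hℓ : (ℓ : 𝓞 Ω) ∈ P) (τ : Gal(Ω/ℚ))
    (hτ : ∀ x : 𝓞 Ω, τ • x - x ∈ P) (x : Ω) (hx : x ∈ L) : τ x = x := by
  classical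
  have : IsGalois ℚ Ω := isGalois_rat F
  let L0 : IntermediateField ℚ Ω := L.restrictScalars ℚ
  have hL0 : FiniteDimensional ℚ L0 := FiniteDimensional.trans ℚ F L
  let E0 : IntermediateField ℚ Ω := IntermediateField.normalClosure ℚ L0 Ω
  have hE0 : FiniteDimensional ℚ E0 := inferInstance
  have hE0g : IsGalois ℚ E0 := IsGalois.normalClosure ℚ L0 Ω
  have hLE0 : ∀ y ∈ L, y ∈ E0 := fun y hy => IntermediateField.le_normalClosure L0 hy
  let E : IntermediateField F Ω := E0.toSubfield.toIntermediateField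
    (fun y => hLE0 _ (L.algebraMap_mem y))
  let e0 : E0 ≃+* E :=
    { toFun := fun y => ⟨y.1, y.2⟩
      invFun := fun y => ⟨y.1, y.2⟩
      left_inv := fun _ => rfl
      right_inv := fun _ => rfl
      map_mul' := fun _ _ => rfl
      map_add' := fun _ _ => rfl }
  let e : E0 ≃ₐ[ℚ] E := AlgEquiv.ofRingEquiv (f := e0) (fun r =>
    RingHom.congr_fun (Subsingleton.elim
      ((e0 : E0 →+* E).comp (algebraMap ℚ E0)) (algebraMap ℚ E)) r)
  have hEg : IsGalois ℚ E := IsGalois.of_algEquiv e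
  have hEf0 : FiniteDimensional ℚ E := LinearEquiv.finiteDimensional e.toLinearEquiv
  have hEf : FiniteDimensional F E := FiniteDimensional.right ℚ F E
  have hEnf : NumberField E := NumberField.of_module_finite F E
  have hEgF : IsGalois F E := IsGalois.tower_top_of_isGalois ℚ F E
  have hLE : L ≤ E := fun y hy => hLE0 y hy
  -- the prime of `E`
  let PE : Ideal (𝓞 E) := P.comap (algebraMap (𝓞 E) (𝓞 Ω))
  have hPEp : PE.IsPrime := Ideal.comap_isPrime _ _
  have hℓE : (ℓ : 𝓞 E) ∈ PE := by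
    change algebraMap (𝓞 E) (𝓞 Ω) (ℓ : 𝓞 E) ∈ P
    rwa [map_natCast]
  have hPE0 : PE ≠ ⊥ := by
    intro h
    rw [h, Ideal.mem_bot] at hℓE
    exact hℓ0 (by exact_mod_cast hℓE)
  let τE : E ≃ₐ[ℚ] E := τ.restrictNormal E
  have hτE : ∀ y : E, ((τE y : E) : Ω) = τ (y : Ω) := fun y =>
    AlgEquiv.restrictNormal_commutes τ E y
  have hin : ∀ y z : 𝓞 E, (z : E) = τE (y : E) → z - y ∈ PE := by
    intro y z hyz
    change algebraMap (𝓞 E) (𝓞 Ω) (z - y) ∈ P
    have h1 : algebraMap (𝓞 E) (𝓞 Ω) z = τ • algebraMap (𝓞 E) (𝓞 Ω) y := by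
      apply RingOfIntegers.ext
      rw [Pool.Agent.Y800.HM.coe_smul]
      change (((z : E) : Ω)) = τ ((y : E) : Ω)
      rw [hyz, hτE]
    rw [map_sub, h1]
    exact hτ _
  -- `τ` is trivial on `F`
  have hPF : PE.under (𝓞 F) ≠ ⊥ := Ideal.under_ne_bot (𝓞 F) hPE0
  have hunr : Algebra.IsUnramifiedAt (𝓞 ℚ) (PE.under (𝓞 F)) := by
    refine hF _ inferInstance hPF ?_
    change algebraMap (𝓞 F) (𝓞 E) (ℓ : 𝓞 F) ∈ PE
    rwa [map_natCast]
  have htriv := (MZ413.unram_iff_inertia (F := ℚ) (K := F) (E := E) PE hPE0).1 hunr τE hin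
  let τF : E ≃ₐ[F] E := { τE.toRingEquiv with commutes' := htriv }
  have hfix := MZ413.fix_of_unram S L E hLE hL PE hPE0 (by
    intro v hv h
    apply hS v hv
    rw [← h]
    change algebraMap (𝓞 F) (𝓞 E) (ℓ : 𝓞 F) ∈ PE
    rwa [map_natCast]) τF hin x hx
  have h1 := hτE ⟨x, hLE hx⟩
  exact h1.symm.trans hfix

end Pool.Agent.Helper864OP
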