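import Pool.Agent.Helper864_OP.Tau

set_option autoImplicit false
set_option linter.unusedSectionVars false

/-!
# Local nilpotence, and transfer between congruent data
-/

namespace Pool.Agent.Helper864OP

open Topology

variable {p : ℕ} [Fact p.Prime] {G : Type} [Group G] [TopologicalSpace G] [IsTopologicalGroup G]
  [CompactSpace G] [TotallyDisconnectedSpace G] {A : Type} [AddCommGroup A]
  {X : Type} [TopologicalSpace X] [CompactSpace X] [MulAction G X] [ContinuousSMul G X]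
  [GSpace G X]

variable {ρ ρ' : G →* AddMonoid.End A} {φ φ' : G →* Multiplicative ℤ_[p]} {γ : G}

/-- the action on a `p`-primary group: locally constant functions are killed by powers of `p` -/
lemma exists_pow_smul (hA : ∀ a : A, ∃ k : ℕ, (p ^ k : ℤ) • a = 0) {Y : Type}
    [TopologicalSpace Y] [CompactSpace Y] {f : Y → A} (hf : IsLocallyConstant f) :
    ∃ k : ℕ, (p ^ k : ℤ) • f = 0 := by
  choose k hk using hA
  have h1 := (hf.range_finite.image k).bddAbove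
  obtain ⟨M, hM⟩ := h1
  refine ⟨M, ?_⟩
  funext y
  have h2 : k (f y) ≤ M := hM ⟨f y, ⟨y, rfl⟩, rfl⟩
  rw [Pi.smul_apply, Pi.zero_apply]
  obtain ⟨c, hc⟩ := pow_dvd_pow (p : ℤ) h2
  rw [hc, mul_comm, mul_smul, hk, smul_zero]

lemma exists_poly (n : ℕ) : ∃ R : Polynomial ℤ,
    (Polynomial.X - 1) ^ p ^ n = (Polynomial.X ^ p ^ n - 1 : Polynomial ℤ) + (p : Polynomial ℤ) * R := by
  have hp : p.Prime := Fact.out
  obtain ⟨R, hR⟩ := exists_add_pow_prime_pow_eq hp (Polynomial.X : Polynomial ℤ) (-1) n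
  rw [← sub_eq_add_neg] at hR
  rcases hp.eq_two_or_odd' with h2 | hodd
  · subst h2
    rcases Nat.eq_zero_or_pos n with rfl | hn
    · refine ⟨0, by simp⟩
    · refine ⟨Polynomial.X * -1 * R + 1, ?_⟩
      rw [hR]
      have h1 : (-1 : Polynomial ℤ) ^ 2 ^ n = 1 := by
        apply Even.neg_one_pow
        exact (Nat.even_pow.2 ⟨even_two, hn.ne'⟩)
      rw [h1]
      push_cast
      ring
  · refine ⟨Polynomial.X * -1 * R, ?_⟩
    rw [hR, (hodd.pow).neg_one_pow]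
    ring

/-- **`τ - 1` is locally nilpotent.** -/
theorem tau_nilp (hρ : Smooth ρ) (hs : Function.Surjective φ)
    (hγ : φ γ = Multiplicative.ofAdd 1) {f : X → A} (hf : f ∈ K ρ φ.ker X) {k : ℕ}
    (hk : (p ^ k : ℤ) • f = 0) : ∃ M : ℕ, ((tau ρ γ X - 1) ^ M) f = 0 := by
  obtain ⟨j, hj⟩ := exists_K_lv hρ hs hf
  obtain ⟨R, hR⟩ := exists_poly (p := p) j
  let T : Module.End ℤ (X → A) := tau ρ γ X
  let R' : Module.End ℤ (X → A) := Polynomial.aeval T R
  have h1 : (T - 1) ^ p ^ j = T ^ p ^ j - 1 + (p : Module.End ℤ (X → A)) * R' := by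
    have := congrArg (Polynomial.aeval T) hR
    simpa using this
  have hcomm : Commute ((T - 1) ^ p ^ j) R' := by
    have h2 : (T - 1) ^ p ^ j = Polynomial.aeval T ((Polynomial.X - 1 : Polynomial ℤ) ^ p ^ j) := by
      simp
    rw [h2]
    exact (Commute.all _ R).map (Polynomial.aeval T)
  have h3 : ((T - 1) ^ p ^ j) f = (p : ℤ) • R' f := by
    rw [h1]
    simp only [LinearMap.add_apply, LinearMap.sub_apply, Module.End.one_apply,
      Module.End.mul_apply]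
    have h4 : (T ^ p ^ j) f = f := tau_period hγ hj
    rw [h4, sub_self, zero_add, Module.End.natCast_apply, ← natCast_zsmul]
  have h5 : ∀ s : ℕ, (((T - 1) ^ p ^ j) ^ s) f = (p ^ s : ℤ) • (R' ^ s) f := by
    intro s
    induction s with
    | zero => simp
    | succ s ih =>
      rw [pow_succ', Module.End.mul_apply, ih, map_smul]
      have h6 : ((T - 1) ^ p ^ j) ((R' ^ s) f) = (R' ^ s) (((T - 1) ^ p ^ j) f) := by
        have := (hcomm.pow_right s).eq
        exact LinearMap.congr_fun this f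
      rw [h6, h3, map_smul, smul_smul, ← pow_succ, pow_succ R', Module.End.mul_apply]
  refine ⟨p ^ j * k, ?_⟩
  rw [pow_mul]
  have h7 := h5 k
  have h8 : (p ^ k : ℤ) • (R' ^ k) f = 0 := by
    rw [← map_smul, hk, map_zero]
  rw [h8] at h7
  exact h7

lemma one_add_pow_dvd {t : ℤ} (ht : (p : ℤ) ∣ t) (m b : ℕ) :
    (p ^ m : ℤ) ∣ (1 + t) ^ (p ^ m * b) - 1 := by
  have h1 : (p : ℤ) ∣ (1 + t) - 1 := by simpa using ht
  have h2 := dvd_sub_pow_of_dvd_sub h1 m
  rw [one_pow] at h2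
  have h3 : (1 + t) ^ p ^ m - 1 ∣ (1 + t) ^ (p ^ m * b) - 1 := by
    rw [pow_mul]
    exact sub_one_dvd_pow_sub_one _ _
  exact ((pow_dvd_pow (p : ℤ) (Nat.le_succ m)).trans h2).trans h3

/-- an eigenfunction of `τ` killed by `p ^ m` is equivariant under `lv φ m` -/
theorem eig_lv (hρ : Smooth ρ) (hs : Function.Surjective φ)
    (hγ : φ γ = Multiplicative.ofAdd 1) {t : ℤ} (ht : (p : ℤ) ∣ t) {f : X → A}
    (hf : f ∈ K ρ φ.ker X) (hτ : tau ρ γ X f = (1 + t) • f) {m : ℕ}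
    (hm : (p ^ m : ℤ) • f = 0) : f ∈ K ρ (lv φ m) X := by
  obtain ⟨J, hJ⟩ := exists_K_lv hρ hs hf
  refine ⟨hf.1, fun h hh x => ?_⟩
  obtain ⟨z, hz⟩ := hh
  have hτn : ∀ b : ℕ, (tau ρ γ X ^ b) f = ((1 + t) ^ b) • f := by
    intro b
    induction b with
    | zero => simp
    | succ b ih =>
      rw [pow_succ', Module.End.mul_apply, ih, map_smul, hτ, smul_smul, pow_succ]
  have happ := PadicInt.appr_spec J z
  rw [Ideal.mem_span_singleton] at happ
  obtain ⟨w, hw⟩ := happ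
  set b := p ^ m * z.appr J with hb
  have h1 : (tau ρ γ X ^ b) f = f := by
    rw [hτn]
    obtain ⟨c, hc⟩ := one_add_pow_dvd (p := p) ht m (z.appr J)
    have h2 : (1 + t) ^ b = 1 + (p ^ m : ℤ) * c := by rw [← hc]; ring
    rw [h2, add_smul, one_smul, mul_comm, mul_smul, hm, smul_zero, add_zero]
  have h3 : (γ ^ b)⁻¹ * h ∈ lv φ J := by
    rw [mem_lv, map_mul, map_inv, map_pow, hγ, toAdd_mul, toAdd_inv, toAdd_pow, hz, toAdd_ofAdd,
      nsmul_eq_mul, mul_one, hb]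
    refine ⟨(p : ℤ_[p]) ^ m * w, ?_⟩
    have h4 : z = (p : ℤ_[p]) ^ J * w + (z.appr J : ℤ_[p]) := by rw [← hw]; ring
    push_cast
    conv_lhs => rw [h4]
    have h5 : ((z.appr J : ℕ) : ℤ_[p]) = (z.appr J : ℤ_[p]) := rfl
    rw [← h4]
    conv_lhs =>
      rw [show (p : ℤ_[p]) ^ m * z = (p : ℤ_[p]) ^ m * ((p : ℤ_[p]) ^ J * w + (z.appr J : ℤ_[p])) by
        rw [← h4]]
    ring
  have h6 : ∀ y : X, f (γ ^ b • y) = ρ (γ ^ b) (f y) := by
    intro y
    have h7 := congrFun h1 (γ ^ b • y)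
    rw [tau_pow_apply, inv_smul_smul] at h7
    exact h7.symm
  have h8 : h = γ ^ b * ((γ ^ b)⁻¹ * h) := by group
  calc f (h • x) = f (γ ^ b • ((γ ^ b)⁻¹ * h) • x) := by rw [← mul_smul, ← h8]
    _ = ρ (γ ^ b) (ρ ((γ ^ b)⁻¹ * h) (f x)) := by rw [h6, hJ.2 _ h3]
    _ = ρ h (f x) := by rw [← rho_mul, ← h8]

/-- **Transfer.** -/
theorem transfer (hρ : Smooth ρ) (hs : Function.Surjective φ)
    (hγ : φ γ = Multiplicative.ofAdd 1) {t : ℤ} (ht : (p : ℤ) ∣ t) {m : ℕ}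
    (hφφ : ∀ g, (p : ℤ_[p]) ^ m ∣ Multiplicative.toAdd (φ' g) - Multiplicative.toAdd (φ g))
    (hρρ : ∀ g (a : A), (p ^ m : ℤ) • a = 0 → ρ' g a = ρ g a) {f : X → A}
    (hf : f ∈ K ρ φ.ker X) (hτ : tau ρ γ X f = (1 + t) • f) (hm : (p ^ m : ℤ) • f = 0) :
    f ∈ K ρ' φ'.ker X ∧ tau ρ' γ X f = (1 + t) • f := by
  have h0 : ∀ x, (p ^ m : ℤ) • f x = 0 := fun x => congrFun hm x
  have h1 := eig_lv hρ hs hγ ht hf hτ hm
  refine ⟨⟨hf.1, fun n hn x => ?_⟩, ?_⟩
  · rw [hρρ _ _ (h0 x)]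
    apply h1.2
    rw [mem_lv]
    have h2 := hφφ n
    rw [MonoidHom.mem_ker] at hn
    rw [hn, toAdd_one, zero_sub, dvd_neg] at h2
    exact h2
  · rw [← hτ]
    funext x
    rw [tau_apply, tau_apply, hρρ _ _ (h0 _)]

end Pool.Agent.Helper864OP
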