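import Pool.Agent.Helper864_OP.Spec

set_option autoImplicit false
set_option linter.unusedSectionVars false

/-!
# Openness of the vanishing of `H²`
-/

namespace Pool.Agent.Helper864OP

open Topology

variable {p : ℕ} [Fact p.Prime] {G : Type} [Group G] [TopologicalSpace G] [IsTopologicalGroup G]
  [CompactSpace G] [TotallyDisconnectedSpace G] {A : Type} [AddCommGroup A]

variable {ρ ρ' : G →* AddMonoid.End A} {φ φ' : G →* Multiplicative ℤ_[p]} {γ : G}

lemma isCoc_zsmul_sub {z : G × G × G → A} (h : IsCoc z) (y : G × G → A) :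
    IsCoc (z - d1 G A y) := h.sub (isCoc_d1 y)

/-- if the eigencocycles are coboundaries then all cocycles are -/
theorem homZero_of_eig (hρ : Smooth ρ) (hφ : Continuous φ)
    (hs : Function.Surjective φ) (hγ : φ γ = Multiplicative.ofAdd 1)
    (hA : ∀ a : A, ∃ k : ℕ, (p ^ k : ℤ) • a = 0) {t : ℤ} (ht : (p : ℤ) ∣ t)
    (h : ∀ z ∈ K ρ φ.ker (G × G × G), IsCoc z → tau ρ γ (G × G × G) z = (1 + t) • z →
      ∃ y ∈ K ρ φ.ker (G × G), d1 G A y = z) : HomZero φ.ker ρ := by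
  have hN : φ.ker.Normal := ker_normal φ
  let B : Submodule ℤ (G × G × G → A) := (K ρ φ.ker (G × G)).map (d1 G A)
  have hBτ : ∀ z ∈ B, tau ρ γ (G × G × G) z ∈ B := by
    rintro _ ⟨y, hy, rfl⟩
    exact ⟨tau ρ γ (G × G) y, tau_mem hN hy, d1_tau y⟩
  have hstep : ∀ F ∈ K ρ φ.ker (G × G × G), IsCoc F → (p : ℤ) • F ∈ B →
      tau ρ γ (G × G × G) F - F ∈ B → F ∈ B := by
    intro F hF hc h1 h2
    obtain ⟨c, hc'⟩ := ht
    have h3 : tau ρ γ (G × G × G) F - (1 + t) • F ∈ B := by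
      have h4 : tau ρ γ (G × G × G) F - (1 + t) • F =
          (tau ρ γ (G × G × G) F - F) - c • (p : ℤ) • F := by
        rw [add_smul, one_smul, smul_smul, hc', mul_comm c]
        abel
      rw [h4]
      exact sub_mem h2 (Submodule.smul_mem _ _ h1)
    obtain ⟨y, hy, hyF⟩ := h3
    obtain ⟨k, hk⟩ := exists_pow_smul hA hy.1
    obtain ⟨y', hy', -, h5⟩ := tau_sub_surj' hρ hφ hs hγ ⟨c, hc'⟩ hy hk
    have h6 : tau ρ γ (G × G × G) (F - d1 G A y') = (1 + t) • (F - d1 G A y') := by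
      have h7 : tau ρ γ (G × G) y' = y + (1 + t) • y' := by rw [← h5, sub_add_cancel]
      have h8 : tau ρ γ (G × G × G) F = d1 G A y + (1 + t) • F := by rw [hyF, sub_add_cancel]
      rw [map_sub, ← d1_tau, h7, map_add, map_smul, h8, smul_sub]
      abel
    obtain ⟨w, hw, hw'⟩ := h _ (sub_mem hF (d1_mem hy')) (hc.sub (isCoc_d1 y')) h6
    refine ⟨w + y', add_mem hw hy', ?_⟩
    rw [map_add, hw', sub_add_cancel]
  have hstep2 : ∀ (n : ℕ), ∀ F ∈ K ρ φ.ker (G × G × G), IsCoc F → (p : ℤ) • F ∈ B →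
      ((tau ρ γ (G × G × G) - 1) ^ n) F = 0 → F ∈ B := by
    intro n
    induction n with
    | zero =>
      intro F _ _ _ h1
      have h2 : F = 0 := h1
      rw [h2]
      exact zero_mem _
    | succ n ih =>
      intro F hF hc h1 h2
      refine hstep F hF hc h1 ?_
      have h3 : ((tau ρ γ (G × G × G) - 1) ^ n) (tau ρ γ (G × G × G) F - F) = 0 := by
        rw [pow_succ, Module.End.mul_apply] at h2
        exact h2
      refine ih _ (sub_mem (tau_mem hN hF) hF) (hc.tau.sub hc) ?_ h3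
      rw [smul_sub, ← map_smul]
      exact sub_mem (hBτ _ h1) h1
  have hstep3 : ∀ (k : ℕ), ∀ F ∈ K ρ φ.ker (G × G × G), IsCoc F → (p ^ k : ℤ) • F ∈ B →
      F ∈ B := by
    intro k
    induction k with
    | zero =>
      intro F _ _ h1
      rwa [pow_zero, one_smul] at h1
    | succ k ih =>
      intro F hF hc h1
      refine ih F hF hc ?_
      have hF' : (p ^ k : ℤ) • F ∈ K ρ φ.ker (G × G × G) := Submodule.smul_mem _ _ hF
      obtain ⟨l, hl⟩ := exists_pow_smul hA hF'.1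
      obtain ⟨M, hM⟩ := tau_nilp hρ hs hγ hF' hl
      refine hstep2 M _ hF' (hc.smul _) ?_ hM
      rw [smul_smul, ← pow_succ']
      exact h1
  intro F hF hc
  obtain ⟨k, hk⟩ := exists_pow_smul hA hF.1
  exact hstep3 k F hF hc (by rw [hk]; exact zero_mem _)

/-- **Openness, normalized form.** -/
theorem open_normalized (hG : Small G) (hρ : Smooth ρ) (hφ : Continuous φ)
    (hs : Function.Surjective φ) (hγ : φ γ = Multiplicative.ofAdd 1)
    (hA : ∀ a : A, ∃ k : ℕ, (p ^ k : ℤ) • a = 0) (hdiv : ∀ a : A, ∃ b, (p : ℤ) • b = a)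
    (hfin : {a : A | (p : ℤ) • a = 0}.Finite) (hWL : HomZero φ.ker ρ) :
    ∃ m : ℕ, ∀ (ρ' : G →* AddMonoid.End A) (φ' : G →* Multiplicative ℤ_[p]), Smooth ρ' →
      Continuous φ' → Function.Surjective φ' → φ' γ = Multiplicative.ofAdd 1 →
      (∀ g, (p : ℤ_[p]) ^ m ∣ Multiplicative.toAdd (φ' g) - Multiplicative.toAdd (φ g)) →
      (∀ g (a : A), (p ^ m : ℤ) • a = 0 → ρ' g a = ρ g a) → HomZero φ'.ker ρ' := by
  classical
  obtain ⟨t, ht, v, e, hC1, Y, hYf, hYm, hC2⟩ := exists_spec hG hρ hφ hs hγ hA hfin hWL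
  -- uniform levels for `Y`
  have hn : ∀ y : Y, ∃ n : ℕ, (y : G × G → A) ∈ K ρ (lv φ n) (G × G) := fun y =>
    exists_K_lv hρ hs (hYm y y.2)
  have hl : ∀ y : Y, ∃ l : ℕ, (p ^ l : ℤ) • (y : G × G → A) = 0 := fun y =>
    exists_pow_smul hA (hYm y y.2).1
  choose n hn using hn
  choose l hl using hl
  have hYfin : Finite Y := hYf
  obtain ⟨n0, hn0⟩ := (Set.finite_range n).bddAbove
  obtain ⟨l0, hl0⟩ := (Set.finite_range l).bddAbove
  let m : ℕ := n0 + l0 + (v + 1) + (e + 1)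
  refine ⟨m, ?_⟩
  intro ρ' φ' hρ' hφ' hs' hγ' hφφ hρρ
  have hdvd : ∀ {a : ℕ}, a ≤ m → ∀ g, (p : ℤ_[p]) ^ a ∣
      Multiplicative.toAdd (φ' g) - Multiplicative.toAdd (φ g) := fun h g =>
    (pow_dvd_pow _ h).trans (hφφ g)
  have htor : ∀ {a : ℕ}, a ≤ m → ∀ g (x : A), (p ^ a : ℤ) • x = 0 → ρ' g x = ρ g x := by
    intro a h g x hx
    refine hρρ g x ?_
    obtain ⟨c, hc⟩ := pow_dvd_pow (p : ℤ) h
    rw [hc, mul_comm, mul_smul, hx, smul_zero]
  have hdvd' : ∀ {a : ℕ}, a ≤ m → ∀ g, (p : ℤ_[p]) ^ a ∣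
      Multiplicative.toAdd (φ g) - Multiplicative.toAdd (φ' g) := by
    intro a h g
    rw [dvd_sub_comm]
    exact hdvd h g
  have htor' : ∀ {a : ℕ}, a ≤ m → ∀ g (x : A), (p ^ a : ℤ) • x = 0 → ρ g x = ρ' g x :=
    fun h g x hx => (htor h g x hx).symm
  have hN' : φ'.ker.Normal := ker_normal φ'
  refine homZero_of_eig hρ' hφ' hs' hγ' hA ht ?_
  -- small exponent
  have hsmall : ∀ z ∈ K ρ' φ'.ker (G × G × G), IsCoc z →
      tau ρ' γ (G × G × G) z = (1 + t) • z → (p ^ v : ℤ) • z = 0 →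
      ∃ y ∈ K ρ' φ'.ker (G × G), d1 G A y = z := by
    intro z hz hc hτ hpz
    obtain ⟨h1, h2⟩ := transfer hρ' hs' hγ' ht (hdvd' (by omega)) (htor' (by omega)) hz hτ hpz
    obtain ⟨y, hy, w, hw, h3, h4, h5⟩ := hC2 z h1 hc h2 hpz
    obtain ⟨h6, -⟩ := transfer hρ hs hγ ht (hdvd (by omega)) (htor (by omega)) hw h3 h4
    refine ⟨y + w, add_mem ?_ h6, h5.symm⟩
    have h7 := hn ⟨y, hy⟩
    have h8 := hl ⟨y, hy⟩
    have h9 : n ⟨y, hy⟩ ≤ n0 := hn0 ⟨_, rfl⟩
    have h10 : l ⟨y, hy⟩ ≤ l0 := hl0 ⟨_, rfl⟩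
    refine ⟨h7.1, fun g hg x => ?_⟩
    have h11 : (p ^ (l ⟨y, hy⟩) : ℤ) • y x = 0 := congrFun h8 x
    rw [htor (by omega) g _ h11]
    refine h7.2 g ?_ x
    have h12 := hdvd (a := n ⟨y, hy⟩) (by omega) g
    rw [MonoidHom.mem_ker] at hg
    rw [hg, toAdd_one, zero_sub, dvd_neg] at h12
    exact h12
  have key : ∀ s : ℕ, ∀ z ∈ K ρ' φ'.ker (G × G × G), IsCoc z →
      tau ρ' γ (G × G × G) z = (1 + t) • z → (p ^ (v + s) : ℤ) • z = 0 →
      ∃ y ∈ K ρ' φ'.ker (G × G), d1 G A y = z := by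
    intro s
    induction s with
    | zero => exact hsmall
    | succ s ih =>
      intro z hz hc hτ hpz
      have h1 : (p ^ s : ℤ) • z ∈ K ρ' φ'.ker (G × G × G) := Submodule.smul_mem _ _ hz
      have h2 : tau ρ' γ (G × G × G) ((p ^ s : ℤ) • z) = (1 + t) • (p ^ s : ℤ) • z := by
        rw [map_smul, hτ, smul_comm]
      have h3 : (p ^ (v + 1) : ℤ) • (p ^ s : ℤ) • z = 0 := by
        rw [smul_smul, ← pow_add, ← hpz]
        congr 2
        ring
      obtain ⟨h4, h5⟩ := transfer hρ' hs' hγ' ht (hdvd' (by omega)) (htor' (by omega)) h1 h2 h3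
      obtain ⟨w, hw, h6, h7, h8⟩ := hC1 _ h4 (hc.smul _) h5 h3
      obtain ⟨h9, h10⟩ := transfer hρ hs hγ ht (hdvd (by omega)) (htor (by omega)) hw h6 h7
      obtain ⟨w', hw', h11, h12⟩ := eig_div hρ' hφ' hs' hγ' hdiv ht h9 h10 (v + s)
      have h13 : (p ^ (v + s) : ℤ) • (z - d1 G A w') = 0 := by
        rw [smul_sub, ← map_smul, h12, h8, smul_smul, ← pow_add, sub_self]
      have h14 : tau ρ' γ (G × G × G) (z - d1 G A w') = (1 + t) • (z - d1 G A w') := by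
        rw [map_sub, hτ, ← d1_tau, h11, map_smul, smul_sub]
      obtain ⟨y, hy, hy'⟩ := ih _ (sub_mem hz (d1_mem hw')) (hc.sub (isCoc_d1 w')) h14 h13
      refine ⟨y + w', add_mem hy hw', ?_⟩
      rw [map_add, hy', sub_add_cancel]
  intro z hz hc hτ
  obtain ⟨k, hk⟩ := exists_pow_smul hA hz.1
  refine key k z hz hc hτ ?_
  rw [pow_add, mul_smul, hk, smul_zero]

/-- **Openness.** -/
theorem open_locus (hG : Small G) (hρ : Smooth ρ) (hφ : Continuous φ)
    (hs : Function.Surjective φ)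
    (hA : ∀ a : A, ∃ k : ℕ, (p ^ k : ℤ) • a = 0) (hdiv : ∀ a : A, ∃ b, (p : ℤ) • b = a)
    (hfin : {a : A | (p : ℤ) • a = 0}.Finite) (hWL : H2Zero φ.ker ρ) :
    ∃ m : ℕ, ∀ (ρ' : G →* AddMonoid.End A) (φ' : G →* Multiplicative ℤ_[p]), Smooth ρ' →
      Continuous φ' → Function.Surjective φ' →
      (∀ g, (p : ℤ_[p]) ^ m ∣ Multiplicative.toAdd (φ' g) - Multiplicative.toAdd (φ g)) →
      (∀ g (a : A), (p ^ m : ℤ) • a = 0 → ρ' g a = ρ g a) → H2Zero φ'.ker ρ' := by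
  obtain ⟨γ, hγ⟩ := hs (Multiplicative.ofAdd 1)
  have hcl : ∀ ψ : G →* Multiplicative ℤ_[p], Continuous ψ → IsClosed (ψ.ker : Set G) := by
    intro ψ hψ
    have h1 : (ψ.ker : Set G) = ψ ⁻¹' {1} := rfl
    rw [h1]
    exact isClosed_singleton.preimage hψ
  have hHom : HomZero φ.ker ρ := homZero_of_h2Zero (hcl φ hφ) hρ hWL
  obtain ⟨m, hm⟩ := open_normalized hG hρ hφ hs hγ hA hdiv hfin hHom
  refine ⟨m + 1, ?_⟩
  intro ρ' φ' hρ' hφ' hs' hφφ hρρ
  -- the unit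
  have hγ1 := hφφ γ
  rw [hγ, toAdd_ofAdd] at hγ1
  have hpd : (p : ℤ_[p]) ∣ Multiplicative.toAdd (φ' γ) - 1 :=
    (dvd_pow_self _ (Nat.succ_ne_zero m)).trans hγ1
  have hunit : IsUnit (Multiplicative.toAdd (φ' γ)) := by
    rw [PadicInt.isUnit_iff]
    by_contra h
    have h1 : ‖Multiplicative.toAdd (φ' γ)‖ < 1 := lt_of_le_of_ne (PadicInt.norm_le_one _) h
    rw [PadicInt.norm_lt_one_iff_dvd] at h1
    have h2 : (p : ℤ_[p]) ∣ 1 := by
      have := dvd_sub h1 hpd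
      rwa [sub_sub_cancel] at this
    exact PadicInt.prime_p.not_isUnit (isUnit_of_dvd_one h2)
  obtain ⟨u, hu⟩ := hunit
  let ψ : G →* Multiplicative ℤ_[p] :=
    { toFun := fun g => Multiplicative.ofAdd ((↑u⁻¹ : ℤ_[p]) * Multiplicative.toAdd (φ' g))
      map_one' := by rw [map_one, toAdd_one, mul_zero, ofAdd_zero]
      map_mul' := by
        intro a b
        rw [map_mul φ', toAdd_mul, mul_add, ofAdd_add] }
  have hψ : ∀ g, Multiplicative.toAdd (ψ g) = (↑u⁻¹ : ℤ_[p]) * Multiplicative.toAdd (φ' g) :=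
    fun g => rfl
  have hker : ψ.ker = φ'.ker := by
    ext g
    rw [MonoidHom.mem_ker, MonoidHom.mem_ker]
    constructor
    · intro h
      have h1 := hψ g
      rw [h, toAdd_one, eq_comm, Units.mul_right_eq_zero] at h1
      exact Multiplicative.toAdd.injective h1
    · intro h
      apply Multiplicative.toAdd.injective
      rw [hψ, h, toAdd_one, mul_zero]
  have hψc : Continuous ψ :=
    continuous_ofAdd.comp (continuous_const.mul (continuous_toAdd.comp hφ'))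
  have hψs : Function.Surjective ψ := by
    intro z
    obtain ⟨g, hg⟩ := hs' (Multiplicative.ofAdd ((u : ℤ_[p]) * Multiplicative.toAdd z))
    refine ⟨g, ?_⟩
    apply Multiplicative.toAdd.injective
    rw [hψ, hg, toAdd_ofAdd, Units.inv_mul_cancel_left]
  have hψγ : ψ γ = Multiplicative.ofAdd 1 := by
    apply Multiplicative.toAdd.injective
    rw [hψ, ← hu, Units.inv_mul, toAdd_ofAdd]
  have hψφ : ∀ g, (p : ℤ_[p]) ^ m ∣ Multiplicative.toAdd (ψ g) - Multiplicative.toAdd (φ g) := by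
    intro g
    have h1 : (p : ℤ_[p]) ^ m ∣ (Multiplicative.toAdd (φ' g) - Multiplicative.toAdd (φ g)) -
        ((u : ℤ_[p]) - 1) * Multiplicative.toAdd (φ g) := by
      refine dvd_sub ((pow_dvd_pow _ (Nat.le_succ m)).trans (hφφ g)) (Dvd.dvd.mul_right ?_ _)
      rw [hu]
      exact (pow_dvd_pow _ (Nat.le_succ m)).trans hγ1
    have h2 : Multiplicative.toAdd (ψ g) - Multiplicative.toAdd (φ g) = (↑u⁻¹ : ℤ_[p]) *
        ((Multiplicative.toAdd (φ' g) - Multiplicative.toAdd (φ g)) -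
        ((u : ℤ_[p]) - 1) * Multiplicative.toAdd (φ g)) := by
      rw [hψ]
      have h3 : (↑u⁻¹ : ℤ_[p]) * (u : ℤ_[p]) = 1 := Units.inv_mul u
      linear_combination Multiplicative.toAdd (φ g) * h3
    rw [h2]
    exact Dvd.dvd.mul_left h1 _
  have hfinal := hm ρ' ψ hρ' hψc hψs hψγ hψφ (by
    intro g a ha
    refine hρρ g a ?_
    rw [pow_succ, mul_comm, mul_smul, ha, smul_zero])
  rw [hker] at hfinal
  exact h2Zero_of_homZero (hcl φ' hφ') hρ' hfinal

end Pool.Agent.Helper864OP
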