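import Pool.Agent.Helper864_OP.Unif

set_option autoImplicit false
set_option linter.unusedSectionVars false

/-!
# Approximate retractions to a normal subgroup
-/

namespace Pool.Agent.Helper864OP

open Topology

variable {G : Type} [Group G]

/-- a retraction to `N`, equivariant up to `V` -/
lemma exists_retr (N V : Subgroup G) [hN : N.Normal] [hV : V.Normal] :
    ∃ r : G → N, (∀ (n : N) (g : G), ∃ v : N, (v : G) ∈ V ∧ r (n * g) = n * r g * v) ∧
      (∀ (g : G), ∀ u ∈ V, ∃ v : N, (v : G) ∈ V ∧ r (g * u) = r g * v) ∧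
      (∀ n : N, ∃ v : N, (v : G) ∈ V ∧ r n = n * v) := by
  classical
  let M : Subgroup G := N ⊔ V
  let t' : G ⧸ M → G := fun q => if q = 1 then 1 else q.out
  let t : G → G := fun g => t' g
  have ht : ∀ g : G, ((t g : G) : G ⧸ M) = g := by
    intro g
    simp only [t, t']
    split_ifs with h
    · rw [h]
      rfl
    · exact Quotient.out_eq' _
  have key : ∀ g : G, ∃ n : N, ∃ v ∈ V, g = n * t g * v := by
    intro g
    have h1 : g * (t g)⁻¹ ∈ M := by
      have h2 := ht g
      rw [QuotientGroup.eq] at h2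
      have h3 := (inferInstance : M.Normal).conj_mem _ h2 (t g)
      have h4 : t g * ((t g)⁻¹ * g) * (t g)⁻¹ = g * (t g)⁻¹ := by group
      rwa [h4] at h3
    have h2 : g * (t g)⁻¹ ∈ ((N ⊔ V : Subgroup G) : Set G) := h1
    rw [Subgroup.mul_normal] at h2
    obtain ⟨n, hn, w, hw, hnw⟩ := h2
    refine ⟨⟨n, hn⟩, (t g)⁻¹ * w * t g, ?_, ?_⟩
    · have := hV.conj_mem w hw (t g)⁻¹
      rwa [inv_inv] at this
    · have h3 : n * w = g * (t g)⁻¹ := hnw
      calc g = g * (t g)⁻¹ * t g := by group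
        _ = n * w * t g := by rw [h3]
        _ = _ := by
          change n * w * t g = n * t g * ((t g)⁻¹ * w * t g)
          group
  choose r hr using key
  choose v hv hrv using hr
  have huniq : ∀ (a b : N) (s x y : G), x ∈ V → y ∈ V → (a : G) * s * x = b * s * y →
      ∃ w : N, (w : G) ∈ V ∧ b = a * w := by
    intro a b s x y hx hy h
    refine ⟨a⁻¹ * b, ?_, by group⟩
    have h1 : ((a⁻¹ * b : N) : G) = s * (x * y⁻¹) * s⁻¹ := by
      change (a : G)⁻¹ * b = _
      have h2 : (b : G) = a * s * x * y⁻¹ * s⁻¹ := by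
        rw [h]
        group
      rw [h2]
      group
    rw [h1]
    exact hV.conj_mem _ (V.mul_mem hx (V.inv_mem hy)) s
  refine ⟨r, ?_, ?_, ?_⟩
  · intro n g
    have h1 : t (n * g) = t g := by
      change t' _ = t' _
      congr 1
      rw [QuotientGroup.eq]
      have h2 : ((n : G) * g)⁻¹ * g = g⁻¹ * (n : G)⁻¹ * (g⁻¹)⁻¹ := by group
      rw [h2]
      exact (inferInstance : M.Normal).conj_mem _ (M.inv_mem ((le_sup_left : N ≤ M) n.2)) g⁻¹
    refine huniq (n * r g) (r (n * g)) (t g) (v g) (v (n * g)) (hv _) (hv _) ?_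
    have h2 := hrv g
    have h3 := hrv (n * g)
    rw [h1] at h3
    rw [← h3]
    change (n : G) * r g * t g * v g = n * g
    conv_rhs => rw [h2]
    group
  · intro g u hu
    have h1 : t (g * u) = t g := by
      change t' _ = t' _
      congr 1
      rw [QuotientGroup.eq]
      have h2 : (g * u)⁻¹ * g = u⁻¹ := by group
      rw [h2]
      exact M.inv_mem ((le_sup_right : V ≤ M) hu)
    refine huniq (r g) (r (g * u)) (t g) (v g * u) (v (g * u)) (V.mul_mem (hv _) hu) (hv _) ?_
    have h2 := hrv g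
    have h3 := hrv (g * u)
    rw [h1] at h3
    rw [← h3]
    conv_rhs => rw [h2]
    group
  · intro n
    have h1 : t n = 1 := by
      change t' _ = 1
      have h2 : ((n : G) : G ⧸ M) = 1 := by
        rw [QuotientGroup.eq_one_iff]
        exact (le_sup_left : N ≤ M) n.2
      simp only [t', h2, if_true]
    refine huniq n (r n) 1 1 (v n) V.one_mem (hv _) ?_
    have h2 := hrv n
    rw [h1] at h2
    rw [mul_one, mul_one]
    exact h2

variable [TopologicalSpace G] [IsTopologicalGroup G] [CompactSpace G]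
  [TotallyDisconnectedSpace G]

/-- locally constant functions of three variables are uniformly locally constant -/
lemma exists_unif {M : Type} [Group M] [TopologicalSpace M] [IsTopologicalGroup M]
    [CompactSpace M] (ι : M →* G) (hι : IsInducing ι) {B : Type} {f : M × M × M → B}
    (hf : IsLocallyConstant f) : ∃ V : Subgroup G, V.Normal ∧ IsOpen (V : Set G) ∧
      ∀ u v w : M, ι u ∈ V → ι v ∈ V → ι w ∈ V → ∀ a b c,
        f (a * u, b * v, c * w) = f (a, b, c) := by
  have h1 : IsLocallyConstant fun q : (M × M × M) × (M × M × M) => f (q.2 * q.1) :=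
    hf.comp_continuous (by fun_prop)
  have h2 := isOpen_forall h1 1
  have h3 : {q : M × M × M | ∀ x, f (x * q) = f (x * 1)} ∈ 𝓝 ((1 : M), (1 : M), (1 : M)) :=
    h2.mem_nhds fun x => rfl
  rw [nhds_prod_eq, nhds_prod_eq, Filter.mem_prod_iff] at h3
  obtain ⟨W1, hW1, W23, hW23, hW⟩ := h3
  rw [Filter.mem_prod_iff] at hW23
  obtain ⟨W2, hW2, W3, hW3, hW'⟩ := hW23
  have h4 : W1 ∩ (W2 ∩ W3) ∈ 𝓝 (1 : M) := Filter.inter_mem hW1 (Filter.inter_mem hW2 hW3)
  rw [hι.nhds_eq_comap, map_one, Filter.mem_comap] at h4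
  obtain ⟨W', hW'1, hW'2⟩ := h4
  obtain ⟨O, hO, hOo, hO1⟩ := mem_nhds_iff.1 hW'1
  obtain ⟨V, hV⟩ := ProfiniteGrp.exist_openNormalSubgroup_sub_open_nhds_of_one hOo hO1
  refine ⟨V.toSubgroup, V.isNormal', V.isOpen', fun u v w hu hv hw a b c => ?_⟩
  have hu' := hW'2 (show ι u ∈ W' from hO (hV hu))
  have hv' := hW'2 (show ι v ∈ W' from hO (hV hv))
  have hw' := hW'2 (show ι w ∈ W' from hO (hV hw))
  have h5 : (v, w) ∈ W23 := hW' ⟨hv'.2.1, hw'.2.2⟩
  have h6 : (u, v, w) ∈ {q : M × M × M | ∀ x, f (x * q) = f (x * 1)} := hW ⟨hu'.1, h5⟩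
  have h7 := h6 (a, b, c)
  rw [mul_one] at h7
  exact h7

end Pool.Agent.Helper864OP
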