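import Pool.Agent.Helper864_OP.Retr

set_option autoImplicit false
set_option linter.unusedSectionVars false

/-!
# Shapiro's lemma in degree two
-/

namespace Pool.Agent.Helper864OP

open Topology

variable {G : Type} [Group G] [TopologicalSpace G] [IsTopologicalGroup G] [CompactSpace G]
  [TotallyDisconnectedSpace G] {A : Type} [AddCommGroup A]

lemma locConst_rho {ρ : G →* AddMonoid.End A} (hρ : Smooth ρ) {Y : Type} [TopologicalSpace Y]
    {f : Y → A} {g : Y → G} (hf : IsLocallyConstant f) (hg : Continuous g) :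
    IsLocallyConstant fun y => ρ (g y) (f y) := by
  rw [IsLocallyConstant.iff_eventually_eq]
  intro x
  have h1 : ∀ᶠ y in 𝓝 x, f y = f x := (IsLocallyConstant.iff_eventually_eq f).1 hf x
  have h2 : IsOpen {h : G | ρ ((g x)⁻¹ * h) (f x) = f x} :=
    (hρ (f x)).preimage (continuous_const_mul (g x)⁻¹)
  have h3 : ∀ᶠ y in 𝓝 x, ρ ((g x)⁻¹ * g y) (f x) = f x := by
    refine (hg.continuousAt (x := x)).eventually (h2.mem_nhds ?_)
    change ρ ((g x)⁻¹ * g x) (f x) = f x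
    rw [inv_mul_cancel, rho_one]
  filter_upwards [h1, h3] with y hy1 hy3
  rw [hy1]
  conv_rhs => rw [← hy3]
  rw [← rho_mul]
  congr 2
  group

lemma locConst_of_unif {V : Subgroup G} (hV : IsOpen (V : Set G)) {B : Type} {F : G × G × G → B}
    (h : ∀ u ∈ V, ∀ v ∈ V, ∀ w ∈ V, ∀ a b c, F (a * u, b * v, c * w) = F (a, b, c)) :
    IsLocallyConstant F := by
  rw [IsLocallyConstant.iff_eventually_eq]
  rintro ⟨a, b, c⟩
  have h1 : ∀ x : G, {y : G | x⁻¹ * y ∈ V} ∈ 𝓝 x := by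
    intro x
    refine (hV.preimage (continuous_const_mul x⁻¹)).mem_nhds ?_
    change x⁻¹ * x ∈ V
    rw [inv_mul_cancel]
    exact V.one_mem
  have h2 := prod_mem_nhds (h1 a) (prod_mem_nhds (h1 b) (h1 c))
  filter_upwards [h2]
  rintro ⟨a', b', c'⟩ ⟨h3, h4, h5⟩
  have := h _ h3 _ h4 _ h5 a b c
  rwa [mul_inv_cancel_left, mul_inv_cancel_left, mul_inv_cancel_left] at this

lemma locConst_of_unif2 {V : Subgroup G} (hV : IsOpen (V : Set G)) {B : Type} {F : G × G → B}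
    (h : ∀ u ∈ V, ∀ v ∈ V, ∀ a b, F (a * u, b * v) = F (a, b)) :
    IsLocallyConstant F := by
  have h1 := locConst_of_unif hV (F := fun q : G × G × G => F (q.1, q.2.1))
    (fun u hu v hv w hw a b c => h u hu v hv a b)
  exact h1.comp_continuous (f := fun q : G × G => (q.1, q.2, (1 : G))) (by fun_prop)

variable {ρ : G →* AddMonoid.End A} {N : Subgroup G}

/-- **Surjectivity.** -/
theorem h2Zero_of_homZero [hN : N.Normal] (hNc : IsClosed (N : Set G)) (hρ : Smooth ρ)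
    (h : HomZero N ρ) : H2Zero N ρ := by
  classical
  intro z hz hcoc
  have hcpt : CompactSpace N := isCompact_iff_compactSpace.1 hNc.isCompact
  let zh : N × N × N → A := fun q => ρ q.1 (z (q.1⁻¹ * q.2.1, q.2.1⁻¹ * q.2.2))
  have hzhe : ∀ a b c, zh (a, b, c) = ρ a (z (a⁻¹ * b, b⁻¹ * c)) := fun a b c => rfl
  have hzh : IsLocallyConstant zh :=
    locConst_rho hρ (f := fun q : N × N × N => z (q.1⁻¹ * q.2.1, q.2.1⁻¹ * q.2.2))
      (g := fun q => (q.1 : G)) (hz.comp_continuous (by fun_prop)) (by fun_prop)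
  have hzheq : ∀ n a b c, zh (n * a, n * b, n * c) = ρ n (zh (a, b, c)) := by
    intro n a b c
    have e1 : (n * a)⁻¹ * (n * b) = a⁻¹ * b := by group
    have e2 : (n * b)⁻¹ * (n * c) = b⁻¹ * c := by group
    rw [hzhe, hzhe, Subgroup.coe_mul, rho_mul, e1, e2]
  have hzhc : ∀ a b c e, zh (b, c, e) - zh (a, c, e) + zh (a, b, e) - zh (a, b, c) = 0 := by
    intro a b c e
    have h1 := congrArg (ρ a) (hcoc (a⁻¹ * b) (b⁻¹ * c) (c⁻¹ * e))
    have e1 : (a : G) * ((a⁻¹ * b : N) : G) = b := by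
      rw [← Subgroup.coe_mul]
      congr 1
      group
    have e2 : a⁻¹ * b * (b⁻¹ * c) = a⁻¹ * c := by group
    have e3 : b⁻¹ * c * (c⁻¹ * e) = b⁻¹ * e := by group
    rw [map_sub, map_add, map_sub, map_zero, ← rho_mul, e1, e2, e3] at h1
    rw [hzhe, hzhe, hzhe, hzhe, h1]
  obtain ⟨V, hVn, hVo, hV⟩ := exists_unif N.subtype IsInducing.subtypeVal hzh
  obtain ⟨r, h1, h2, h3⟩ := exists_retr N V
  let F : G × G × G → A := fun q => zh (r q.1, r q.2.1, r q.2.2)
  have hFe : ∀ a b c, F (a, b, c) = zh (r a, r b, r c) := fun a b c => rfl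
  have hF : F ∈ K ρ N (G × G × G) := by
    refine ⟨locConst_of_unif hVo ?_, ?_⟩
    · intro u hu v hv w hw a b c
      rw [hFe, hFe]
      obtain ⟨x, hx, hx'⟩ := h2 a u hu
      obtain ⟨y, hy, hy'⟩ := h2 b v hv
      obtain ⟨s, hs, hs'⟩ := h2 c w hw
      rw [hx', hy', hs']
      exact hV x y s hx hy hs _ _ _
    · rintro n hn ⟨a, b, c⟩
      change F (n * a, n * b, n * c) = ρ n (F (a, b, c))
      rw [hFe, hFe]
      obtain ⟨x, hx, hx'⟩ := h1 ⟨n, hn⟩ a
      obtain ⟨y, hy, hy'⟩ := h1 ⟨n, hn⟩ b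
      obtain ⟨s, hs, hs'⟩ := h1 ⟨n, hn⟩ c
      have e1 : r (n * a) = ⟨n, hn⟩ * r a * x := hx'
      have e2 : r (n * b) = ⟨n, hn⟩ * r b * y := hy'
      have e3 : r (n * c) = ⟨n, hn⟩ * r c * s := hs'
      rw [e1, e2, e3, hV x y s hx hy hs, hzheq]
  have hFc : IsCoc F := fun a b c e => hzhc _ _ _ _
  obtain ⟨y, hy, hyF⟩ := h F hF hFc
  refine ⟨fun a => y (1, a), hy.1.comp_continuous (by fun_prop), fun a b => ?_⟩
  have e1 : F (1, (a : G), ((a * b : N) : G)) = z (a, b) := by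
    rw [hFe]
    obtain ⟨x, hx, hx'⟩ := h3 1
    obtain ⟨w, hw, hw'⟩ := h3 a
    obtain ⟨s, hs, hs'⟩ := h3 (a * b)
    have hx'' : r 1 = 1 * x := hx'
    rw [hx'', hw', hs', hV x w s hx hw hs, hzhe, inv_one, one_mul, inv_mul_cancel_left]
    exact rho_one ρ _
  rw [← e1, ← hyF, d1_apply]
  have e2 : y ((a : G), ((a * b : N) : G)) = ρ a (y (1, (b : G))) := by
    have := hy.2 a a.2 (1, (b : G))
    rw [← this]
    congr 1
    change _ = ((a : G) * 1, (a : G) * b)
    rw [mul_one]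
    rfl
  rw [e2]

/-- **Injectivity.** -/
theorem homZero_of_h2Zero [hN : N.Normal] (hNc : IsClosed (N : Set G)) (hρ : Smooth ρ)
    (h : H2Zero N ρ) : HomZero N ρ := by
  classical
  intro F hF hFc
  have hcpt : CompactSpace N := isCompact_iff_compactSpace.1 hNc.isCompact
  have hFeq : ∀ (n : N) (a b c : G), F (n * a, n * b, n * c) = ρ n (F (a, b, c)) :=
    fun n a b c => hF.2 n n.2 (a, b, c)
  let z : N × N → A := fun q => F (1, q.1, q.1 * q.2)
  have hz : IsLocallyConstant z := hF.1.comp_continuous (by fun_prop)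
  obtain ⟨y, hy, hyz⟩ := h z hz (by
    intro a b c
    have h1 := hFc 1 a (a * b) (a * b * c)
    have h2 := hFeq a 1 b (b * c)
    rw [mul_one] at h2
    change ρ a (F (1, (b : G), (b : G) * c)) - F (1, ((a * b : N) : G), ((a * b : N) : G) * c) +
      F (1, (a : G), (a : G) * ((b * c : N) : G)) - F (1, (a : G), (a : G) * b) = 0
    rw [← h2]
    rw [← h1]
    have e1 : (a : G) * ((b : G) * c) = a * b * c := by group
    have e2 : (a : G) * ((b * c : N) : G) = a * b * c := by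
      rw [Subgroup.coe_mul]
      group
    rw [e1, e2]
    rfl)
  let yh : N × N → A := fun q => ρ q.1 (y (q.1⁻¹ * q.2))
  have hyhe : ∀ a b, yh (a, b) = ρ a (y (a⁻¹ * b)) := fun a b => rfl
  have hyh : IsLocallyConstant yh :=
    locConst_rho hρ (f := fun q : N × N => y (q.1⁻¹ * q.2)) (g := fun q => (q.1 : G))
      (hy.comp_continuous (by fun_prop)) (by fun_prop)
  have hyheq : ∀ n a b, yh (n * a, n * b) = ρ n (yh (a, b)) := by
    intro n a b
    have e1 : (n * a)⁻¹ * (n * b) = a⁻¹ * b := by group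
    rw [hyhe, hyhe, Subgroup.coe_mul, rho_mul, e1]
  have hyd : ∀ a b c : N, F (a, b, c) = yh (b, c) - yh (a, c) + yh (a, b) := by
    intro a b c
    have h1 := hFeq a 1 ((a⁻¹ * b : N) : G) ((a⁻¹ * b : N) * (b⁻¹ * c : N) : G)
    have h2 : F (1, ((a⁻¹ * b : N) : G), ((a⁻¹ * b : N) * (b⁻¹ * c : N) : G)) =
        z (a⁻¹ * b, b⁻¹ * c) := rfl
    have e1 : (a : G) * ((a⁻¹ * b : N) : G) = b := by
      rw [← Subgroup.coe_mul]
      congr 1
      group
    have e2 : a⁻¹ * b * (b⁻¹ * c) = a⁻¹ * c := by group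
    have e3 : (a : G) * (((a⁻¹ * b : N) : G) * ((b⁻¹ * c : N) : G)) = c := by
      rw [← Subgroup.coe_mul, ← Subgroup.coe_mul]
      congr 1
      group
    rw [h2, hyz, map_add, map_sub, ← rho_mul, e1, e2, mul_one, e3] at h1
    rw [hyhe, hyhe, hyhe, h1]
  obtain ⟨V1, hV1n, hV1o, hV1⟩ := exists_unif N.subtype IsInducing.subtypeVal
    (f := fun q : N × N × N => yh (q.1, q.2.1)) (hyh.comp_continuous (by fun_prop))
  obtain ⟨V2, hV2n, hV2o, hV2⟩ := exists_unif (MonoidHom.id G) IsInducing.id hF.1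
  let V := V1 ⊓ V2
  have hVo : IsOpen (V : Set G) := hV1o.inter hV2o
  obtain ⟨r, h1, h2, h3⟩ := exists_retr N V
  have hy1 : ∀ (v w : N), (v : G) ∈ V → (w : G) ∈ V → ∀ a b, yh (a * v, b * w) = yh (a, b) :=
    fun v w hv hw a b => hV1 v w 1 hv.1 hw.1 V1.one_mem a b 1
  have hF1 : ∀ u v w : G, u ∈ V → v ∈ V → w ∈ V → ∀ a b c, F (a * u, b * v, c * w) = F (a, b, c) :=
    fun u v w hu hv hw a b c => hV2 u v w hu.2 hv.2 hw.2 a b c
  let Y : G × G → A := fun q => yh (r q.1, r q.2) -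
    (F (q.1, r q.1, r q.2) - F (q.1, q.2, r q.2))
  have hYe : ∀ a b, Y (a, b) = yh (r a, r b) - (F (a, r a, r b) - F (a, b, r b)) :=
    fun a b => rfl
  refine ⟨Y, ⟨locConst_of_unif2 hVo ?_, ?_⟩, ?_⟩
  · intro u hu v hv a b
    rw [hYe, hYe]
    obtain ⟨x, hx, hx'⟩ := h2 a u hu
    obtain ⟨w, hw, hw'⟩ := h2 b v hv
    rw [hx', hw', hy1 x w hx hw]
    have e1 : F (a * u, ((r a * x : N) : G), ((r b * w : N) : G)) = F (a, (r a : G), (r b : G)) :=
      hF1 u x w hu hx hw _ _ _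
    have e2 : F (a * u, b * v, ((r b * w : N) : G)) = F (a, b, (r b : G)) :=
      hF1 u v w hu hv hw _ _ _
    rw [e1, e2]
  · rintro n hn ⟨a, b⟩
    change Y (n * a, n * b) = ρ n (Y (a, b))
    rw [hYe, hYe]
    obtain ⟨x, hx, hx'⟩ := h1 ⟨n, hn⟩ a
    obtain ⟨w, hw, hw'⟩ := h1 ⟨n, hn⟩ b
    have e1 : r (n * a) = ⟨n, hn⟩ * r a * x := hx'
    have e2 : r (n * b) = ⟨n, hn⟩ * r b * w := hw'
    rw [e1, e2, hy1 x w hx hw, hyheq, map_sub, map_sub]
    have e3 : F (n * a, ((⟨n, hn⟩ * r a * x : N) : G), ((⟨n, hn⟩ * r b * w : N) : G)) =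
        ρ n (F (a, (r a : G), (r b : G))) := by
      have h4 := hF1 1 x w V.one_mem hx hw (n * a) (n * (r a : G)) (n * (r b : G))
      rw [mul_one] at h4
      rw [← hFeq ⟨n, hn⟩]
      exact h4
    have e4 : F (n * a, n * b, ((⟨n, hn⟩ * r b * w : N) : G)) = ρ n (F (a, b, (r b : G))) := by
      have h4 := hF1 1 1 w V.one_mem V.one_mem hw (n * a) (n * b) (n * (r b : G))
      rw [mul_one, mul_one] at h4
      rw [← hFeq ⟨n, hn⟩]
      exact h4
    rw [e3, e4]
  · funext ⟨a, b, c⟩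
    rw [d1_apply, hYe, hYe, hYe]
    have c1 := hFc a (r a) (r b) (r c)
    have c2 := hFc a b (r b) (r c)
    have c3 := hFc a b c (r c)
    have c4 := hyd (r a) (r b) (r c)
    have c1' : F (a, (r a : G), (r b : G)) = F ((r a : G), (r b : G), (r c : G)) -
        F (a, (r b : G), (r c : G)) + F (a, (r a : G), (r c : G)) := by
      rw [sub_eq_zero] at c1
      exact c1.symm
    have c2' : F (a, b, (r b : G)) = F (b, (r b : G), (r c : G)) -
        F (a, (r b : G), (r c : G)) + F (a, b, (r c : G)) := by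
      rw [sub_eq_zero] at c2
      exact c2.symm
    have c3' : F (a, b, c) = F (b, c, (r c : G)) -
        F (a, c, (r c : G)) + F (a, b, (r c : G)) := by
      rw [sub_eq_zero] at c3
      exact c3.symm
    rw [c1', c2', c3', c4]
    abel

end Pool.Agent.Helper864OP
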