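import Pool.Agent.Helper864_OP.Fin
import Pool.Agent.Helper864_OP.Alg

set_option autoImplicit false
set_option linter.unusedSectionVars false

/-!
# The finite level criterion
-/

namespace Pool.Agent.Helper864OP

open Topology

variable {p : ℕ} [Fact p.Prime] {G : Type} [Group G] [TopologicalSpace G] [IsTopologicalGroup G]
  [CompactSpace G] [TotallyDisconnectedSpace G] {A : Type} [AddCommGroup A]

variable {ρ : G →* AddMonoid.End A} {φ : G →* Multiplicative ℤ_[p]} {γ : G}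

lemma tau_mem_Z1 {N : Subgroup G} (hN : N.Normal) {f : G × G → A} (hf : f ∈ Z1 ρ N) :
    tau ρ γ (G × G) f ∈ Z1 ρ N := by
  refine ⟨tau_mem hN hf.1, ?_⟩
  change d1 G A _ = 0
  rw [d1_tau, hf.2, map_zero]

/-- the `u`-eigenspace of `τ` on 1-cocycles -/
def EZ (ρ : G →* AddMonoid.End A) (N : Subgroup G) (γ : G) (u : ℤ) : Submodule ℤ (G × G → A) :=
  Z1 ρ N ⊓ LinearMap.ker (tau ρ γ (G × G) - u • 1)

lemma mem_EZ {N : Subgroup G} {u : ℤ} {f : G × G → A} :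
    f ∈ EZ ρ N γ u ↔ f ∈ Z1 ρ N ∧ tau ρ γ (G × G) f = u • f := by
  rw [EZ, Submodule.mem_inf, LinearMap.mem_ker, LinearMap.sub_apply, LinearMap.smul_apply,
    Module.End.one_apply, sub_eq_zero]

lemma artinian_EZ (hG : Small G) (hρ : Smooth ρ) (hs : Function.Surjective φ)
    (hγ : φ γ = Multiplicative.ofAdd 1) (hA : ∀ a : A, ∃ k : ℕ, (p ^ k : ℤ) • a = 0)
    (hfin : {a : A | (p : ℤ) • a = 0}.Finite) {t : ℤ} (ht : (p : ℤ) ∣ t) :
    IsArtinian ℤ (EZ ρ φ.ker γ (1 + t)) := by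
  refine artinian_of_finite (p := p) ?_ ?_
  · rintro ⟨f, hf⟩
    obtain ⟨k, hk⟩ := exists_pow_smul hA hf.1.1.1
    exact ⟨k, Subtype.ext hk⟩
  · refine Set.Finite.of_finite_image (f := fun x : EZ ρ φ.ker γ (1 + t) => (x : G × G → A)) ?_
      Subtype.val_injective.injOn
    refine (finite_inv hG hρ hs hγ hfin).subset ?_
    rintro _ ⟨⟨f, hf⟩, hpf, rfl⟩
    obtain ⟨h1, h2⟩ := mem_EZ.1 hf
    have h3 : (p : ℤ) • f = 0 := congrArg Subtype.val hpf
    refine ⟨h1, ?_, h3⟩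
    obtain ⟨c, hc⟩ := ht
    change tau ρ γ (G × G) f = f
    rw [h2, add_smul, one_smul, hc, mul_comm, mul_smul, h3, smul_zero, add_zero]

/-- **The finite level criterion.** -/
theorem exists_spec (hG : Small G) (hρ : Smooth ρ) (hφ : Continuous φ)
    (hs : Function.Surjective φ) (hγ : φ γ = Multiplicative.ofAdd 1)
    (hA : ∀ a : A, ∃ k : ℕ, (p ^ k : ℤ) • a = 0) (hfin : {a : A | (p : ℤ) • a = 0}.Finite)
    (hWL : HomZero φ.ker ρ) : ∃ t : ℤ, (p : ℤ) ∣ t ∧ ∃ v e : ℕ,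
      (∀ z ∈ K ρ φ.ker (G × G × G), IsCoc z → tau ρ γ (G × G × G) z = (1 + t) • z →
        (p ^ (v + 1) : ℤ) • z = 0 → ∃ w ∈ K ρ φ.ker (G × G),
          tau ρ γ (G × G) w = (1 + t) • w ∧ (p ^ (e + 1) : ℤ) • w = 0 ∧
          d1 G A w = (p ^ v : ℤ) • z) ∧
      ∃ Y : Set (G × G → A), Y.Finite ∧ (∀ y ∈ Y, y ∈ K ρ φ.ker (G × G)) ∧
        ∀ z ∈ K ρ φ.ker (G × G × G), IsCoc z → tau ρ γ (G × G × G) z = (1 + t) • z →
          (p ^ v : ℤ) • z = 0 → ∃ y ∈ Y, ∃ w ∈ K ρ φ.ker (G × G),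
            tau ρ γ (G × G) w = (1 + t) • w ∧ (p ^ (v + e) : ℤ) • w = 0 ∧
            z = d1 G A (y + w) := by
  classical
  have hN : φ.ker.Normal := ker_normal φ
  let Z : Submodule ℤ (G × G → A) := Z1 ρ φ.ker
  let TZ : Module.End ℤ Z := (tau ρ γ (G × G)).restrict (fun x (hx : x ∈ Z) => tau_mem_Z1 hN hx)
  let D : Submodule ℤ Z := ((K ρ φ.ker G).map (d0 G A)).comap Z.subtype
  have hDm : ∀ c ∈ K ρ φ.ker G, d0 G A c ∈ Z := fun c hc => ⟨d0_mem hc, d1_d0 c⟩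
  have hD : D ≤ D.comap TZ := by
    intro x hx
    obtain ⟨c, hc, hcx⟩ := hx
    refine ⟨tau ρ γ G c, tau_mem hN hc, ?_⟩
    rw [d0_tau, hcx]
    rfl
  let TB : Module.End ℤ (Z ⧸ D) := D.mapQ D TZ hD
  let T : Module.End ℤ (Z ⧸ D) := TB - 1
  have hT : ∀ z : Z, T (D.mkQ z) = D.mkQ ((TZ - 1) z) := by
    intro z
    rfl
  have hTn : ∀ (n : ℕ) (z : Z), (T ^ n) (D.mkQ z) = D.mkQ (((TZ - 1) ^ n) z) := by
    intro n
    induction n with
    | zero => intro z; rfl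
    | succ n ih =>
      intro z
      rw [pow_succ, Module.End.mul_apply, hT, ih, pow_succ, Module.End.mul_apply]
  have hTZn : ∀ (n : ℕ) (z : Z), ((((TZ - 1) ^ n) z : Z) : G × G → A) =
      ((tau ρ γ (G × G) - 1) ^ n) z := by
    intro n
    induction n with
    | zero => intro z; rfl
    | succ n ih =>
      intro z
      rw [pow_succ, Module.End.mul_apply, ih, pow_succ, Module.End.mul_apply]
      rfl
  have hkill : ∀ z : Z, ∃ k : ℕ, (p ^ k : ℤ) • (z : G × G → A) = 0 := fun z =>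
    exists_pow_smul hA z.2.1.1
  have hnil : ∀ x : Z ⧸ D, ∃ n : ℕ, (T ^ n) x = 0 := by
    intro x
    obtain ⟨z, rfl⟩ := D.mkQ_surjective x
    obtain ⟨k, hk⟩ := hkill z
    obtain ⟨M, hM⟩ := tau_nilp hρ hs hγ z.2.1 hk
    refine ⟨M, ?_⟩
    rw [hTn]
    have h1 : ((TZ - 1) ^ M) z = 0 := Subtype.ext (by rw [hTZn]; exact hM)
    rw [h1, map_zero]
  -- the kernel
  have hker : IsArtinian ℤ (LinearMap.ker T) := by
    have hart : IsArtinian ℤ (EZ ρ φ.ker γ (1 + 0)) :=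
      artinian_EZ hG hρ hs hγ hA hfin (dvd_zero _)
    let F : EZ ρ φ.ker γ (1 + 0) →ₗ[ℤ] (Z ⧸ D) :=
      D.mkQ ∘ₗ Submodule.inclusion (show EZ ρ φ.ker γ (1 + 0) ≤ Z from inf_le_left)
    have h1 : LinearMap.ker T ≤ LinearMap.range F := by
      intro x hx
      obtain ⟨z, rfl⟩ := D.mkQ_surjective x
      rw [LinearMap.mem_ker, hT, Submodule.mkQ_apply, Submodule.Quotient.mk_eq_zero] at hx
      obtain ⟨c, hc, hcz⟩ := hx
      have hcz' : d0 G A c = tau ρ γ (G × G) z - (z : G × G → A) := hcz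
      obtain ⟨k, hk⟩ := exists_pow_smul hA hc.1
      obtain ⟨c', hc', -, h2⟩ := tau_sub_surj hρ hφ hs hγ hc hk
      have h3 : (z : G × G → A) - d0 G A c' ∈ EZ ρ φ.ker γ (1 + 0) := by
        rw [mem_EZ]
        refine ⟨sub_mem z.2 (hDm c' hc'), ?_⟩
        rw [map_sub, ← d0_tau, add_zero, one_smul]
        have h4 : tau ρ γ G c' = c + c' := by rw [← h2, sub_add_cancel]
        have h5 : tau ρ γ (G × G) z = d0 G A c + (z : G × G → A) := by rw [hcz', sub_add_cancel]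
        rw [h4, map_add, h5]
        abel
      refine ⟨⟨_, h3⟩, ?_⟩
      change D.mkQ _ = D.mkQ _
      rw [← sub_eq_zero, ← map_sub, Submodule.mkQ_apply, Submodule.Quotient.mk_eq_zero]
      refine ⟨-c', neg_mem hc', ?_⟩
      rw [map_neg]
      change - d0 G A c' = ((z : G × G → A) - d0 G A c') - (z : G × G → A)
      abel
    have h2 : IsArtinian ℤ (LinearMap.range F) := inferInstance
    exact isArtinian_of_le h1
  have hB : ∀ x : Z ⧸ D, ∃ k : ℕ, (p ^ k : ℤ) • x = 0 := by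
    intro x
    obtain ⟨z, rfl⟩ := D.mkQ_surjective x
    obtain ⟨k, hk⟩ := hkill z
    refine ⟨k, ?_⟩
    rw [← map_smul]
    have h1 : (p ^ k : ℤ) • z = 0 := Subtype.ext hk
    rw [h1, map_zero]
  obtain ⟨t, ht, v, hv, hQ⟩ := exists_special T hnil hker hB
  let R : Submodule ℤ (Z ⧸ D) := LinearMap.range (T - t • (1 : Module.End ℤ (Z ⧸ D)))
  have hTt : ∀ z : Z, T (D.mkQ z) - t • D.mkQ z = D.mkQ (TZ z - (1 + t) • z) := by
    intro z
    rw [hT, ← map_smul, ← map_sub]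
    congr 1
    rw [LinearMap.sub_apply, Module.End.one_apply, add_smul, one_smul]
    abel
  -- the fundamental consequence: a cocycle whose class lies in `(T - t) B`
  have hcl : ∀ y ∈ K ρ φ.ker (G × G),
      ∀ hb : tau ρ γ (G × G) y - (1 + t) • y ∈ Z, D.mkQ ⟨_, hb⟩ ∈ R →
      ∃ w ∈ K ρ φ.ker (G × G), tau ρ γ (G × G) w = (1 + t) • w ∧ d1 G A w = d1 G A y := by
    intro y hy hb hR
    obtain ⟨x, hx⟩ := hR
    obtain ⟨w1, rfl⟩ := D.mkQ_surjective x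
    have hx' : D.mkQ (TZ w1 - (1 + t) • w1) = D.mkQ ⟨_, hb⟩ := by
      rw [← hTt, ← hx]
      rfl
    rw [eq_comm, ← sub_eq_zero, ← map_sub, Submodule.mkQ_apply,
      Submodule.Quotient.mk_eq_zero] at hx'
    obtain ⟨c, hc, hcz⟩ := hx'
    have hcz' : d0 G A c = (tau ρ γ (G × G) y - (1 + t) • y) -
        (tau ρ γ (G × G) w1 - (1 + t) • (w1 : G × G → A)) := hcz
    obtain ⟨k, hk⟩ := exists_pow_smul hA hc.1
    obtain ⟨c', hc', -, h2⟩ := tau_sub_surj' hρ hφ hs hγ ht hc hk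
    refine ⟨y - w1 - d0 G A c', sub_mem (sub_mem hy w1.2.1) (d0_mem hc'), ?_, ?_⟩
    · rw [map_sub, map_sub, ← d0_tau, smul_sub, smul_sub]
      have h4 : tau ρ γ G c' = c + (1 + t) • c' := by rw [← h2, sub_add_cancel]
      have h5 : tau ρ γ (G × G) y = d0 G A c + (1 + t) • y +
          (tau ρ γ (G × G) w1 - (1 + t) • (w1 : G × G → A)) := by
        rw [hcz']
        abel
      rw [h4, map_add, map_smul, h5]
      abel
    · rw [map_sub, map_sub, d1_d0, sub_zero]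
      have h3 : d1 G A (w1 : G × G → A) = 0 := w1.2.2
      rw [h3, sub_zero]
  have hbmem : ∀ y ∈ K ρ φ.ker (G × G), tau ρ γ (G × G × G) (d1 G A y) = (1 + t) • d1 G A y →
      tau ρ γ (G × G) y - (1 + t) • y ∈ Z := by
    intro y hy h
    refine ⟨sub_mem (tau_mem hN hy) (Submodule.smul_mem _ _ hy), ?_⟩
    change d1 G A _ = 0
    rw [map_sub, d1_tau, h, map_smul, sub_self]
  -- artinian eigen-cocycles
  have hart : IsArtinian ℤ (EZ ρ φ.ker γ (1 + t)) := artinian_EZ hG hρ hs hγ hA hfin ht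
  obtain ⟨e, he⟩ := exists_stable (p := p) (M := EZ ρ φ.ker γ (1 + t))
  -- improving an eigen-cochain
  have himp : ∀ (s : ℕ) (w0 : G × G → A), w0 ∈ K ρ φ.ker (G × G) →
      tau ρ γ (G × G) w0 = (1 + t) • w0 → (p ^ s : ℤ) • d1 G A w0 = 0 →
      ∃ w ∈ K ρ φ.ker (G × G), tau ρ γ (G × G) w = (1 + t) • w ∧
        (p ^ (e + s) : ℤ) • w = 0 ∧ d1 G A w = d1 G A w0 := by
    intro s w0 h1 h2 h3
    have h4 : (p ^ s : ℤ) • w0 ∈ EZ ρ φ.ker γ (1 + t) := by
      rw [mem_EZ]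
      refine ⟨⟨Submodule.smul_mem _ _ h1, ?_⟩, ?_⟩
      · change d1 G A _ = 0
        rw [map_smul, h3]
      · rw [map_smul, h2, smul_comm]
    obtain ⟨⟨y, hy⟩, hy2⟩ := he s ⟨_, h4⟩
    have hy3 : (p ^ e : ℤ) • (p ^ s : ℤ) • w0 = (p ^ (e + s) : ℤ) • y :=
      congrArg Subtype.val hy2
    obtain ⟨h5, h6⟩ := mem_EZ.1 hy
    refine ⟨w0 - y, sub_mem h1 h5.1, ?_, ?_, ?_⟩
    · rw [map_sub, h2, h6, smul_sub]
    · rw [smul_sub, ← hy3, smul_smul, ← pow_add, sub_self]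
    · have h7 : d1 G A y = 0 := h5.2
      rw [map_sub, h7, sub_zero]
  refine ⟨t, ht, v, e, ?_, ?_⟩
  · -- the first criterion
    intro z hz hcoc hτ hpz
    obtain ⟨y, hy, hyz⟩ := hWL z hz hcoc
    have hτ' : tau ρ γ (G × G × G) (d1 G A y) = (1 + t) • d1 G A y := by rw [hyz, hτ]
    have hb := hbmem y hy hτ'
    have hy' : (p ^ v : ℤ) • y ∈ K ρ φ.ker (G × G) := Submodule.smul_mem _ _ hy
    have hb' : tau ρ γ (G × G) ((p ^ v : ℤ) • y) - (1 + t) • (p ^ v : ℤ) • y ∈ Z := by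
      rw [map_smul, smul_comm, ← smul_sub]
      exact Submodule.smul_mem _ _ hb
    have hR : D.mkQ ⟨_, hb'⟩ ∈ R := by
      have h1 : (⟨_, hb'⟩ : Z) = (p ^ v : ℤ) • ⟨_, hb⟩ := by
        apply Subtype.ext
        change tau ρ γ (G × G) ((p ^ v : ℤ) • y) - (1 + t) • (p ^ v : ℤ) • y =
          (p ^ v : ℤ) • (tau ρ γ (G × G) y - (1 + t) • y)
        rw [map_smul, smul_sub, smul_comm (1 + t)]
      rw [h1, map_smul]
      obtain ⟨x, hx⟩ := hv (D.mkQ ⟨_, hb⟩)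
      exact ⟨x, hx⟩
    obtain ⟨w0, h1, h2, h3⟩ := hcl _ hy' hb' hR
    rw [map_smul, hyz] at h3
    have h4 : (p ^ 1 : ℤ) • d1 G A w0 = 0 := by
      rw [h3, smul_smul, ← pow_add, add_comm, hpz]
    obtain ⟨w, h5, h6, h7, h8⟩ := himp 1 w0 h1 h2 h4
    exact ⟨w, h5, h6, h7, h8.trans h3⟩
  · -- the second criterion
    let V : Set (G × G × G → A) := {z | z ∈ K ρ φ.ker (G × G × G) ∧ IsCoc z ∧
      tau ρ γ (G × G × G) z = (1 + t) • z ∧ (p ^ v : ℤ) • z = 0}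
    have h1 : ∀ z : V, ∃ y : G × G → A, y ∈ K ρ φ.ker (G × G) ∧ d1 G A y = z := by
      rintro ⟨z, hz, hcoc, -, -⟩
      exact hWL z hz hcoc
    choose Y hY hYz using h1
    have hYb : ∀ z : V, tau ρ γ (G × G) (Y z) - (1 + t) • Y z ∈ Z := fun z =>
      hbmem _ (hY z) (by rw [hYz]; exact z.2.2.2.1)
    let cl : V → ((Z ⧸ D) ⧸ R) := fun z => R.mkQ (D.mkQ ⟨_, hYb z⟩)
    have hfr : (Set.range cl).Finite := Set.toFinite _
    let sec : Set.range cl → V := fun c => c.2.choose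
    have hsec : ∀ c : Set.range cl, cl (sec c) = c := fun c => c.2.choose_spec
    have hfr' : Finite (Set.range cl) := hfr
    refine ⟨Set.range fun c => Y (sec c), Set.finite_range _, ?_, ?_⟩
    · rintro _ ⟨c, rfl⟩
      exact hY _
    · intro z hz hcoc hτ hpz
      let z' : V := ⟨z, hz, hcoc, hτ, hpz⟩
      let c : Set.range cl := ⟨cl z', z', rfl⟩
      refine ⟨Y (sec c), ⟨c, rfl⟩, ?_⟩
      have h2 : cl (sec c) = cl z' := hsec c
      have h3 : Y z' - Y (sec c) ∈ K ρ φ.ker (G × G) := sub_mem (hY _) (hY _)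
      have hb : tau ρ γ (G × G) (Y z' - Y (sec c)) - (1 + t) • (Y z' - Y (sec c)) ∈ Z := by
        have h4 := sub_mem (hYb z') (hYb (sec c))
        have h5 : tau ρ γ (G × G) (Y z' - Y (sec c)) - (1 + t) • (Y z' - Y (sec c)) =
            (tau ρ γ (G × G) (Y z') - (1 + t) • Y z') -
            (tau ρ γ (G × G) (Y (sec c)) - (1 + t) • Y (sec c)) := by
          rw [map_sub, smul_sub]
          abel
        rw [h5]
        exact h4
      have hR : D.mkQ ⟨_, hb⟩ ∈ R := by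
        have h4 : (⟨_, hb⟩ : Z) = ⟨_, hYb z'⟩ - ⟨_, hYb (sec c)⟩ := by
          apply Subtype.ext
          change tau ρ γ (G × G) (Y z' - Y (sec c)) - (1 + t) • (Y z' - Y (sec c)) =
            (tau ρ γ (G × G) (Y z') - (1 + t) • Y z') -
            (tau ρ γ (G × G) (Y (sec c)) - (1 + t) • Y (sec c))
          rw [map_sub, smul_sub]
          abel
        rw [h4, map_sub]
        have h5 : R.mkQ (D.mkQ ⟨_, hYb z'⟩ - D.mkQ ⟨_, hYb (sec c)⟩) = 0 := by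
          rw [map_sub]
          exact sub_eq_zero.2 h2.symm
        rwa [Submodule.mkQ_apply, Submodule.Quotient.mk_eq_zero] at h5
      obtain ⟨w0, h6, h7, h8⟩ := hcl _ h3 hb hR
      have h9 : (p ^ v : ℤ) • d1 G A w0 = 0 := by
        rw [h8, map_sub, hYz, hYz, smul_sub]
        have h10 := (sec c).2.2.2.2
        have h11 := z'.2.2.2.2
        rw [h10, h11, sub_zero]
      obtain ⟨w, h12, h13, h14, h15⟩ := himp v w0 h6 h7 h9
      refine ⟨w, h12, h13, ?_, ?_⟩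
      · rw [add_comm v e]
        exact h14
      · rw [map_add, h15, h8, map_sub, hYz z']
        abel

end Pool.Agent.Helper864OP
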