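import Pool.Agent.Helper864_OP.Coef
import Pool.Agent.Helper864_OP.Ext
import Pool.Agent.Helper864_OP.HMF

set_option autoImplicit false
set_option linter.unusedSectionVars false

/-!
# The statement of the openness theorem
-/

namespace Pool.Agent.Helper864OP

open NumberField IsDedekindDomain MZ

/-! ## General notions for a topological group `G` acting on an abelian group `A` -/

section general

variable {G : Type} [Group G]

/-- `z` is a 2-cocycle on the subgroup `N` -/
def IsCocycle {A : Type} [AddCommGroup A] (act : G → A → A) (N : Subgroup G) (z : N × N → A) :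
    Prop :=
  ∀ a b c : N, act a (z (b, c)) + z (a, b * c) = z (a * b, c) + z (a, b)

/-- `z` is the coboundary of `y` -/
def IsCobound {A : Type} [AddCommGroup A] (act : G → A → A) (N : Subgroup G) (y : N → A)
    (z : N × N → A) : Prop :=
  ∀ a b : N, z (a, b) + y (a * b) = act a (y b) + y a

/-- The continuous cohomology group `H²(N, A)` of the subgroup `N` with values in the discrete
module `A` vanishes: every locally constant 2-cocycle is the coboundary of a locally constant
function. -/
def H2IsZero [TopologicalSpace G] {A : Type} [AddCommGroup A] (act : G → A → A)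
    (N : Subgroup G) : Prop :=
  ∀ z : N × N → A, IsLocallyConstant z → IsCocycle act N z →
    ∃ y : N → A, IsLocallyConstant y ∧ IsCobound act N y z

/-- there is a `G`-equivariant isomorphism between the elements of `A` killed by `p ^ n` and those
of `A'` -/
def TorsIso {A A' : Type} [AddCommGroup A] [AddCommGroup A'] (act : G → A → A)
    (act' : G → A' → A') (p n : ℕ) : Prop :=
  ∃ e : tors p A n ≃+ tors p A' n, ∀ (g : G) (a b : tors p A n), (b : A) = act g a →
    (e b : A') = act' g (e a)

end general

/-! ## `p`-adic coefficients -/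

/-- a finite extension of `ℚ_p` -/
structure PadicField (p : ℕ) [Fact p.Prime] : Type 1 where
  carrier : Type
  [field : Field carrier]
  [algQ : Algebra ℚ_[p] carrier]
  [algZ : Algebra ℤ_[p] carrier]
  [tower : IsScalarTower ℤ_[p] ℚ_[p] carrier]
  [fin : FiniteDimensional ℚ_[p] carrier]

attribute [instance] PadicField.field PadicField.algQ PadicField.algZ PadicField.tower
  PadicField.fin

namespace PadicField

variable {p : ℕ} [Fact p.Prime] (F : PadicField p) (d : ℕ)

/-- the ring of integers: the integral closure of `ℤ_p` -/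
def Int : Type := integralClosure ℤ_[p] F.carrier

noncomputable instance : CommRing F.Int :=
  (inferInstance : CommRing (integralClosure ℤ_[p] F.carrier))

noncomputable instance : Algebra F.Int F.carrier :=
  (inferInstance : Algebra (integralClosure ℤ_[p] F.carrier) F.carrier)

/-- the quotient of the field by the ring of integers -/
def Quot : Type := F.carrier ⧸ (1 : Submodule F.Int F.carrier)

noncomputable instance : AddCommGroup F.Quot :=
  (inferInstance : AddCommGroup (F.carrier ⧸ (1 : Submodule F.Int F.carrier)))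

noncomputable instance : Module F.Int F.Quot :=
  (inferInstance : Module F.Int (F.carrier ⧸ (1 : Submodule F.Int F.carrier)))

/-- the product of a matrix and a vector with entries in the quotient -/
noncomputable def mulVec (M : Matrix (Fin d) (Fin d) F.Int) (a : Fin d → F.Quot) :
    Fin d → F.Quot :=
  fun i => ∑ j, M i j • a j

end PadicField

/-- a continuous representation of `G` on a free module of rank `d` over the integers of `F` -/
structure IntRep {p : ℕ} [Fact p.Prime] (G : Type) [Group G] [TopologicalSpace G]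
    (F : PadicField p) (d : ℕ) where
  hom : G →* GL (Fin d) F.Int
  cont : ∀ n : ℕ, IsOpen {g | ∀ i j, (p : F.Int) ^ n ∣ ((hom g).1 - 1) i j}

/-- a Zp-extension, given by a continuous surjective homomorphism `G → ℤ_p` -/
structure ZpExt (p : ℕ) [Fact p.Prime] (G : Type) [Group G] [TopologicalSpace G] where
  hom : G →* Multiplicative ℤ_[p]
  cont : Continuous hom
  surj : Function.Surjective hom

/-- the two Zp-extensions have the same `n`-th layer -/
def ZpExt.SameLayer {p : ℕ} [Fact p.Prime] {G : Type} [Group G] [TopologicalSpace G]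
    (φ φ' : ZpExt p G) (n : ℕ) : Prop :=
  ∀ g, (p : ℤ_[p]) ^ n ∣ (φ'.hom g).toAdd ↔ (p : ℤ_[p]) ^ n ∣ (φ.hom g).toAdd

namespace IntRep

variable {p : ℕ} [Fact p.Prime] {G : Type} [Group G] [TopologicalSpace G]
  {F : PadicField p} {d : ℕ} {F' : PadicField p} {d' : ℕ}

/-- the action of `G` on `𝐀(ρ)`, the `d`-th power of the quotient of the field by the integers -/
noncomputable def act (ρ : IntRep G F d) (g : G) (a : Fin d → F.Quot) : Fin d → F.Quot :=
  F.mulVec d (ρ.hom g) a

/-- `H²(ker φ, 𝐀(ρ)) = 0` -/
def WeakLeopoldt (ρ : IntRep G F d) (φ : ZpExt p G) : Prop := H2IsZero ρ.act φ.hom.ker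

/-- the `G`-modules `𝐀(ρ)[p ^ n]` and `𝐀(ρ')[p ^ n]` are isomorphic -/
def CongruentMod (ρ : IntRep G F d) (ρ' : IntRep G F' d') (n : ℕ) : Prop :=
  TorsIso ρ.act ρ'.act p n

end IntRep

/-! ## The group `G_{K,S}` -/

section GKS

variable (K Ω : Type) [Field K] [Field Ω] [Algebra K Ω] (S : Set (HeightOneSpectrum (𝓞 K)))

/-- The Galois group of the maximal extension of `K` in `Ω` unramified outside `S`. -/
def GKS : Type := GFS Ω S

noncomputable instance : Group (GKS K Ω S) := (inferInstance : Group (GFS Ω S))

noncomputable instance : TopologicalSpace (GKS K Ω S) :=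
  (inferInstance : TopologicalSpace (GFS Ω S))

end GKS

lemma h2IsZero_iff {G : Type} [Group G] [TopologicalSpace G] {A : Type} [AddCommGroup A]
    (ρ : G →* AddMonoid.End A) (N : Subgroup G) :
    H2IsZero (fun g a => ρ g a) N ↔ H2Zero N ρ := by
  constructor
  · intro h z hz hc
    obtain ⟨y, hy, hy'⟩ := h z hz (by
      intro a b c
      have h1 := hc a b c
      rw [sub_eq_zero] at h1
      change ρ a (z (b, c)) + z (a, b * c) = z (a * b, c) + z (a, b)
      rw [← h1]
      abel)
    refine ⟨y, hy, fun a b => ?_⟩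
    have h2 : z (a, b) + y (a * b) = ρ a (y b) + y a := hy' a b
    rw [← eq_sub_iff_add_eq] at h2
    rw [h2]
    abel
  · intro h z hz hc
    obtain ⟨y, hy, hy'⟩ := h z hz (by
      intro a b c
      have h1 : ρ a (z (b, c)) + z (a, b * c) = z (a * b, c) + z (a, b) := hc a b c
      rw [← eq_sub_iff_add_eq] at h1
      rw [h1]
      abel)
    refine ⟨y, hy, fun a b => ?_⟩
    change z (a, b) + y (a * b) = ρ a (y b) + y a
    rw [hy' a b]
    abel

/-- **The weak Leopoldt locus is open.** -/
theorem open_main {p : ℕ} [Fact p.Prime] {K Ω : Type} [Field K] [NumberField K] [Field Ω]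
    [Algebra K Ω] [IsAlgClosure K Ω] {S : Set (HeightOneSpectrum (𝓞 K))} (hS : S.Finite)
    {F : PadicField p} {d : ℕ} {ρ : IntRep (GKS K Ω S) F d} {φ : ZpExt p (GKS K Ω S)}
    (h : ρ.WeakLeopoldt φ) : ∃ n : ℕ, ∀ (F' : PadicField p) (d' : ℕ)
      (ρ' : IntRep (GKS K Ω S) F' d') (φ' : ZpExt p (GKS K Ω S)),
      φ.SameLayer φ' n → ρ.CongruentMod ρ' n → ρ'.WeakLeopoldt φ' := by
  have hchar : CharZero Ω := charZero_of_injective_algebraMap (algebraMap K Ω).injective
  have hgal : IsGalois K (FSmax S : IntermediateField K Ω) := Pool.Agent.W178.MZK.K7 K Ω S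
  have hsmall : Small (GFS Ω S) := small_GFS S hS
  have key : ∀ (F : PadicField p) (d : ℕ) (ρ : IntRep (GKS K Ω S) F d) (φ : ZpExt p (GKS K Ω S)),
      ρ.WeakLeopoldt φ ↔ H2Zero (G := GFS Ω S) φ.hom.ker
        (actHom (p := p) (𝒦 := F.carrier) (d := d) (G := GFS Ω S) ρ.hom) := by
    intro F d ρ φ
    exact h2IsZero_iff (G := GFS Ω S) (A := AA p F.carrier d)
      (actHom (p := p) (𝒦 := F.carrier) (d := d) (G := GFS Ω S) ρ.hom) φ.hom.ker
  obtain ⟨n, hn⟩ := open_general (G := GFS Ω S) (A := AA p F.carrier d) hsmall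
    (ρ := actHom (p := p) (𝒦 := F.carrier) (d := d) (G := GFS Ω S) ρ.hom)
    (smooth_actHom (G := GFS Ω S) ρ.cont) φ.cont φ.surj AA_torsion AA_div AA_fin
    ((key F d ρ φ).1 h)
  refine ⟨n, ?_⟩
  intro F' d' ρ' φ' hl hc
  refine (key F' d' ρ' φ').2 (hn (AA p F'.carrier d')
    (actHom (p := p) (𝒦 := F'.carrier) (d := d') (G := GFS Ω S) ρ'.hom) φ'.hom
    AA_torsion AA_div (smooth_actHom (G := GFS Ω S) ρ'.cont) φ'.cont φ'.surj hl hc)

end Pool.Agent.Helper864OP
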