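import Pool.Agent.Helper864_OP.Shap

set_option autoImplicit false
set_option linter.unusedSectionVars false

/-!
# The operator `τ` on equivariant cochains
-/

namespace Pool.Agent.Helper864OP

open Topology

variable {p : ℕ} [Fact p.Prime] {G : Type} [Group G] [TopologicalSpace G] [IsTopologicalGroup G]
  [CompactSpace G] [TotallyDisconnectedSpace G] {A : Type} [AddCommGroup A]

/-- a compact `G`-space with an equivariant map to `G` -/
class GSpace (G : Type) [Group G] [TopologicalSpace G] (X : Type) [TopologicalSpace X]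
    [MulAction G X] where
  pr : X → G
  pr_continuous : Continuous pr
  pr_smul : ∀ (g : G) (x : X), pr (g • x) = g * pr x

instance : GSpace G G where
  pr := id
  pr_continuous := continuous_id
  pr_smul := fun _ _ => rfl

instance : GSpace G (G × G) where
  pr := Prod.fst
  pr_continuous := continuous_fst
  pr_smul := fun _ _ => rfl

instance : GSpace G (G × G × G) where
  pr := Prod.fst
  pr_continuous := continuous_fst
  pr_smul := fun _ _ => rfl

lemma periodic_sum {M : Type} [AddCommGroup M] (g : ℕ → M) (P : ℕ) (hg : ∀ i, g (i + P) = g i)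
    (n : ℕ) : ∑ i ∈ Finset.range (n * P), g i = n • ∑ i ∈ Finset.range P, g i := by
  induction n with
  | zero => simp
  | succ n ih =>
    have h1 : ∀ (k i : ℕ), g (k * P + i) = g i := by
      intro k i
      induction k with
      | zero => simp
      | succ k ih =>
        have h2 : (k + 1) * P + i = k * P + i + P := by ring
        rw [h2, hg, ih]
    rw [Nat.succ_mul, Finset.sum_range_add, ih, succ_nsmul]
    congr 1
    exact Finset.sum_congr rfl fun i _ => h1 n i

variable {X : Type} [TopologicalSpace X] [CompactSpace X] [MulAction G X] [ContinuousSMul G X]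
  [GSpace G X]

variable {ρ : G →* AddMonoid.End A} {φ : G →* Multiplicative ℤ_[p]} {γ : G}

lemma tau_pow_mem {N : Subgroup G} (hN : N.Normal) {f : X → A} (hf : f ∈ K ρ N X) (i : ℕ) :
    (tau ρ γ X ^ i) f ∈ K ρ N X := by
  induction i with
  | zero => exact hf
  | succ i ih =>
    rw [pow_succ']
    exact tau_mem hN ih

lemma ker_normal (φ : G →* Multiplicative ℤ_[p]) : φ.ker.Normal := inferInstance

lemma tau_period {j : ℕ} (hγ : φ γ = Multiplicative.ofAdd 1) {f : X → A}
    (hf : f ∈ K ρ (lv φ j) X) : (tau ρ γ X ^ (p ^ j)) f = f := by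
  funext x
  rw [tau_pow_apply]
  have h1 : γ ^ (p ^ j) ∈ lv φ j := by
    rw [mem_lv, map_pow, hγ, toAdd_pow, nsmul_eq_mul, toAdd_ofAdd, mul_one]
    push_cast
    exact dvd_rfl
  rw [hf.2 _ ((lv φ j).inv_mem h1), rho_inv]

/-- **`τ - 1` is surjective.** -/
theorem tau_sub_surj (hρ : Smooth ρ) (hφ : Continuous φ) (hs : Function.Surjective φ)
    (hγ : φ γ = Multiplicative.ofAdd 1) {f : X → A} (hf : f ∈ K ρ φ.ker X) {k : ℕ}
    (hk : (p ^ k : ℤ) • f = 0) :
    ∃ f' ∈ K ρ φ.ker X, (p ^ k : ℤ) • f' = 0 ∧ tau ρ γ X f' - f' = f := by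
  classical
  obtain ⟨j, hj⟩ := exists_K_lv hρ hs hf
  let J := k + j
  let z : X → ℤ_[p] := fun x => Multiplicative.toAdd (φ (GSpace.pr (G := G) x))
  have hzc : Continuous z :=
    continuous_toAdd.comp (hφ.comp (GSpace.pr_continuous (G := G) (X := X)))
  have hz : ∀ (g : G) (x : X), z (g • x) = Multiplicative.toAdd (φ g) + z x := by
    intro g x
    simp only [z]
    rw [GSpace.pr_smul, map_mul, toAdd_mul]
  let m : X → ℕ := fun x => (PadicInt.toZModPow J (z x)).val
  have hm : IsLocallyConstant m := by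
    rw [IsLocallyConstant.iff_eventually_eq]
    intro x
    have h1 : {y : X | (p : ℤ_[p]) ^ J ∣ z y - z x} ∈ 𝓝 x := by
      refine IsOpen.mem_nhds ((isOpen_dvd J).preimage (hzc.sub continuous_const)) ?_
      change _ ∣ z x - z x
      rw [sub_self]
      exact dvd_zero _
    filter_upwards [h1] with y hy
    have h2 : z y - z x ∈ RingHom.ker (PadicInt.toZModPow J : ℤ_[p] →+* ZMod (p ^ J)) := by
      rw [PadicInt.ker_toZModPow, Ideal.mem_span_singleton]
      exact hy
    rw [RingHom.mem_ker, map_sub, sub_eq_zero] at h2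
    simp only [m, h2]
  let S : ℕ → X → A := fun n => ∑ i ∈ Finset.range n, (tau ρ γ X ^ i) f
  have hS : ∀ n, S n ∈ K ρ φ.ker X := fun n =>
    Submodule.sum_mem _ fun i _ => tau_pow_mem (ker_normal φ) hf i
  have hSk : ∀ n, (p ^ k : ℤ) • S n = 0 := by
    intro n
    simp only [S]
    rw [Finset.smul_sum]
    refine Finset.sum_eq_zero fun i _ => ?_
    rw [← map_smul, hk, map_zero]
  let f' : X → A := fun x => - S (m x) x
  have hf' : f' ∈ K ρ φ.ker X := by
    refine ⟨?_, fun n hn x => ?_⟩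
    · rw [IsLocallyConstant.iff_eventually_eq]
      intro x
      have h1 := (IsLocallyConstant.iff_eventually_eq _).1 hm x
      have h2 := (IsLocallyConstant.iff_eventually_eq _).1 (hS (m x)).1 x
      filter_upwards [h1, h2] with y hy1 hy2
      simp only [f']
      rw [hy1, hy2]
    · have h1 : m (n • x) = m x := by
        rw [MonoidHom.mem_ker] at hn
        simp only [m]
        rw [hz, hn, toAdd_one, zero_add]
      simp only [f']
      rw [h1, (hS _).2 n hn, map_neg]
  have hper : S (p ^ J) = 0 := by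
    have h1 := periodic_sum (fun i => (tau ρ γ X ^ i) f) (p ^ j) (by
      intro i
      rw [pow_add, Module.End.mul_apply, tau_period hγ hj]) (p ^ k)
    have h2 : p ^ J = p ^ k * p ^ j := pow_add p k j
    change ∑ i ∈ Finset.range (p ^ J), (tau ρ γ X ^ i) f = 0
    rw [h2, h1]
    have h3 := hSk (p ^ j)
    rw [← h3, ← natCast_zsmul]
    push_cast
    rfl
  refine ⟨f', hf', ?_, ?_⟩
  · funext x
    change (p ^ k : ℤ) • (- S (m x) x) = 0
    rw [smul_neg]
    have := congrFun (hSk (m x)) x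
    rw [Pi.smul_apply] at this
    rw [this, Pi.zero_apply, neg_zero]
  · funext x
    have hNe : NeZero (p ^ J) := ⟨pow_ne_zero _ (Fact.out : p.Prime).ne_zero⟩
    rw [Pi.sub_apply, tau_apply]
    have hzγ : z (γ⁻¹ • x) = z x - 1 := by
      rw [hz, map_inv, hγ, toAdd_inv, toAdd_ofAdd]
      ring
    set b := PadicInt.toZModPow J (z (γ⁻¹ • x)) with hb
    set a := PadicInt.toZModPow J (z x) with ha
    have hab : a = b + 1 := by
      rw [ha, hb, hzγ, map_sub, map_one, sub_add_cancel]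
    have hτS : ∀ n, ρ γ (S n (γ⁻¹ • x)) = ∑ i ∈ Finset.range n, (tau ρ γ X ^ (i + 1)) f x := by
      intro n
      have h1 : tau ρ γ X (S n) = ∑ i ∈ Finset.range n, (tau ρ γ X ^ (i + 1)) f := by
        simp only [S]
        rw [map_sum]
        refine Finset.sum_congr rfl fun i _ => ?_
        rw [pow_succ']
        rfl
      have h2 := congrFun h1 x
      rw [Finset.sum_apply] at h2
      exact h2
    have hSx : ∀ n, S n x = ∑ i ∈ Finset.range n, (tau ρ γ X ^ i) f x := by
      intro n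
      simp only [S]
      rw [Finset.sum_apply]
    change ρ γ (- S b.val (γ⁻¹ • x)) - (- S a.val x) = f x
    rw [map_neg, hτS]
    have hlt : b.val < p ^ J := ZMod.val_lt b
    have key : S (b.val + 1) x = ∑ i ∈ Finset.range b.val, (tau ρ γ X ^ (i + 1)) f x + f x := by
      rw [hSx, Finset.sum_range_succ']
      rfl
    rcases Nat.lt_or_ge (b.val + 1) (p ^ J) with h | h
    · have h1 : a.val = b.val + 1 := by
        rw [hab]
        have h2 : b + 1 = ((b.val + 1 : ℕ) : ZMod (p ^ J)) := by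
          rw [Nat.cast_add, ZMod.natCast_zmod_val, Nat.cast_one]
        rw [h2, ZMod.val_natCast, Nat.mod_eq_of_lt h]
      rw [h1, key]
      abel
    · have h1 : b.val + 1 = p ^ J := le_antisymm hlt h
      have h2 : a = 0 := by
        rw [hab]
        have h2 : b + 1 = ((b.val + 1 : ℕ) : ZMod (p ^ J)) := by
          rw [Nat.cast_add, ZMod.natCast_zmod_val, Nat.cast_one]
        rw [h2, h1, ZMod.natCast_self]
      rw [h1, hper] at key
      rw [h2, ZMod.val_zero]
      have h3 : S 0 x = 0 := by simp [S]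
      rw [h3, neg_zero, sub_zero, neg_eq_iff_add_eq_zero]
      rw [← key]
      rfl

/-- **`τ - 1 - t` is surjective** if `p ∣ t`. -/
theorem tau_sub_surj' (hρ : Smooth ρ) (hφ : Continuous φ) (hs : Function.Surjective φ)
    (hγ : φ γ = Multiplicative.ofAdd 1) {t : ℤ} (ht : (p : ℤ) ∣ t) {f : X → A}
    (hf : f ∈ K ρ φ.ker X) {k : ℕ} (hk : (p ^ k : ℤ) • f = 0) :
    ∃ f' ∈ K ρ φ.ker X, (p ^ k : ℤ) • f' = 0 ∧ tau ρ γ X f' - (1 + t) • f' = f := by
  have key : ∀ s : ℕ, ∃ f' ∈ K ρ φ.ker X, ∃ g ∈ K ρ φ.ker X, (p ^ k : ℤ) • f' = 0 ∧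
      (p ^ k : ℤ) • g = 0 ∧ tau ρ γ X f' - (1 + t) • f' = f - t ^ s • g := by
    intro s
    induction s with
    | zero =>
      refine ⟨0, zero_mem _, f, hf, smul_zero _, hk, ?_⟩
      rw [map_zero, smul_zero, pow_zero, one_smul, sub_self, sub_self]
    | succ s ih =>
      obtain ⟨f', hf', g, hg, h1, h2, h3⟩ := ih
      obtain ⟨g1, hg1, h4, h5⟩ := tau_sub_surj hρ hφ hs hγ hg h2
      refine ⟨f' + t ^ s • g1, add_mem hf' (Submodule.smul_mem _ _ hg1), g1, hg1, ?_, h4, ?_⟩
      · rw [smul_add, h1, smul_comm, h4, smul_zero, add_zero]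
      · rw [map_add, map_smul]
        have h6 : tau ρ γ X g1 = g + g1 := by rw [← h5, sub_add_cancel]
        have h7 : tau ρ γ X f' = f - t ^ s • g + (1 + t) • f' := by rw [← h3, sub_add_cancel]
        rw [h6, h7, pow_succ, mul_smul, smul_add, smul_add, add_smul 1 t (t ^ s • g1), one_smul,
          smul_comm t (t ^ s) g1]
        abel
  obtain ⟨f', hf', g, hg, h1, h2, h3⟩ := key k
  refine ⟨f', hf', h1, ?_⟩
  rw [h3]
  obtain ⟨c, rfl⟩ := ht
  rw [mul_pow, mul_comm, mul_smul, h2, smul_zero, sub_zero]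

/-- **Divisibility.** -/
theorem K_div (hρ : Smooth ρ) {N : Subgroup G} [N.Normal] (hdiv : ∀ a : A, ∃ b, (p : ℤ) • b = a)
    {f : X → A} (hf : f ∈ K ρ N X) : ∃ f' ∈ K ρ N X, (p : ℤ) • f' = f := by
  classical
  choose δ hδ using hdiv
  have h1 : IsOpen (U ρ f : Set G) := isOpen_U hρ hf.1
  have h2 : IsOpen {g : G | ∀ a ∈ Set.range fun x => δ (f x), ρ g a = a} :=
    isOpen_finset hρ (hf.1.comp δ).range_finite
  obtain ⟨V', hV'⟩ := ProfiniteGrp.exist_openNormalSubgroup_sub_open_nhds_of_one (h1.inter h2)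
    ⟨(U ρ f).one_mem, fun a _ => rho_one ρ a⟩
  let V : Subgroup G := V'.toSubgroup
  have hVn : V.Normal := V'.isNormal'
  have hVo : IsOpen (V : Set G) := V'.isOpen'
  have hV1 : ∀ v ∈ V, ∀ x, f (v • x) = f x := fun v hv => (hV' hv).1.1
  have hV2 : ∀ v ∈ V, ∀ x, ρ v (δ (f x)) = δ (f x) := fun v hv x => (hV' hv).2 _ ⟨x, rfl⟩
  obtain ⟨r, r1, r2, r3⟩ := exists_retr N V
  let F : G → X → A := fun s x => ρ s (δ (f (s⁻¹ • x)))
  have hF : ∀ (s v : G), v ∈ V → ∀ x, F (s * v) x = F s x := by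
    intro s v hv x
    simp only [F]
    rw [mul_inv_rev, mul_smul, hV1 _ (V.inv_mem hv), rho_mul, hV2 v hv]
  let f' : X → A := fun x => F (r (GSpace.pr x)) x
  refine ⟨f', ⟨?_, fun n hn x => ?_⟩, ?_⟩
  · rw [IsLocallyConstant.iff_eventually_eq]
    intro x
    have h3 : IsLocallyConstant (F (r (GSpace.pr x))) :=
      ((hf.1.comp_continuous (continuous_const_smul ((r (GSpace.pr x) : G)⁻¹))).comp δ).comp
        (ρ (r (GSpace.pr x)))
    have h4 := (IsLocallyConstant.iff_eventually_eq _).1 h3 x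
    have h5 : {y : X | (GSpace.pr x : G)⁻¹ * GSpace.pr y ∈ V} ∈ 𝓝 x := by
      refine IsOpen.mem_nhds (hVo.preimage ((continuous_const_mul _).comp
        (GSpace.pr_continuous (G := G) (X := X)))) ?_
      change (GSpace.pr x : G)⁻¹ * GSpace.pr x ∈ V
      rw [inv_mul_cancel]
      exact V.one_mem
    filter_upwards [h4, h5] with y hy4 hy5
    obtain ⟨v, hv, hv'⟩ := r2 (GSpace.pr x) _ hy5
    rw [mul_inv_cancel_left] at hv'
    change F (r (GSpace.pr y)) y = F (r (GSpace.pr x)) x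
    rw [hv', Subgroup.coe_mul, hF _ _ hv, hy4]
  · obtain ⟨v, hv, hv'⟩ := r1 ⟨n, hn⟩ (GSpace.pr x)
    have h3 : r (GSpace.pr (n • x)) = ⟨n, hn⟩ * r (GSpace.pr x) * v := by
      rw [GSpace.pr_smul]
      exact hv'
    change F (r (GSpace.pr (n • x))) (n • x) = ρ n (F (r (GSpace.pr x)) x)
    rw [h3, Subgroup.coe_mul, hF _ _ hv]
    simp only [F]
    rw [Subgroup.coe_mul, mul_inv_rev, rho_mul]
    change ρ n (ρ (r (GSpace.pr x)) (δ (f (((r (GSpace.pr x) : G)⁻¹ * n⁻¹) • n • x)))) = _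
    rw [smul_smul, inv_mul_cancel_right]
  · funext x
    change (p : ℤ) • F (r (GSpace.pr x)) x = f x
    simp only [F]
    rw [← map_zsmul, hδ, hf.2 _ (N.inv_mem (r (GSpace.pr x)).2), rho_inv]

/-- the eigenspaces of `τ` are divisible -/
theorem eig_div (hρ : Smooth ρ) (hφ : Continuous φ) (hs : Function.Surjective φ)
    (hγ : φ γ = Multiplicative.ofAdd 1) (hdiv : ∀ a : A, ∃ b, (p : ℤ) • b = a) {t : ℤ}
    (ht : (p : ℤ) ∣ t) {f : X → A} (hf : f ∈ K ρ φ.ker X) (hτ : tau ρ γ X f = (1 + t) • f)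
    (s : ℕ) : ∃ f' ∈ K ρ φ.ker X, tau ρ γ X f' = (1 + t) • f' ∧ (p ^ s : ℤ) • f' = f := by
  induction s with
  | zero => exact ⟨f, hf, hτ, by rw [pow_zero, one_smul]⟩
  | succ s ih =>
    obtain ⟨f', hf', h1, h2⟩ := ih
    obtain ⟨w, hw, hw1⟩ := K_div (p := p) hρ hdiv hf'
    have h3 : tau ρ γ X w - (1 + t) • w ∈ K ρ φ.ker X :=
      sub_mem (tau_mem (ker_normal φ) hw) (Submodule.smul_mem _ _ hw)
    have h4 : (p ^ 1 : ℤ) • (tau ρ γ X w - (1 + t) • w) = 0 := by
      rw [pow_one, smul_sub, ← map_smul, hw1, smul_comm, hw1, h1, sub_self]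
    obtain ⟨w', hw', h5, h6⟩ := tau_sub_surj' hρ hφ hs hγ ht h3 h4
    refine ⟨w - w', sub_mem hw hw', ?_, ?_⟩
    · rw [map_sub, smul_sub]
      calc tau ρ γ X w - tau ρ γ X w' = (tau ρ γ X w - (1 + t) • w) -
            (tau ρ γ X w' - (1 + t) • w') + ((1 + t) • w - (1 + t) • w') := by abel
        _ = (1 + t) • w - (1 + t) • w' := by rw [h6, sub_self, zero_add]
    · rw [pow_one] at h5
      rw [pow_succ, mul_smul, smul_sub, hw1, h5, sub_zero, h2]

end Pool.Agent.Helper864OP
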