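import Pool.Agent.Helper864_OP.Coh

set_option autoImplicit false
set_option linter.unusedSectionVars false

/-!
# Uniformity
-/

namespace Pool.Agent.Helper864OP

open Topology

variable {G : Type} [Group G] [TopologicalSpace G] [IsTopologicalGroup G] [CompactSpace G]
  {A : Type} [AddCommGroup A]

/-- the action is smooth: the stabilizers are open -/
def Smooth (ρ : G →* AddMonoid.End A) : Prop := ∀ a, IsOpen {g : G | ρ g a = a}

lemma rho_mul (ρ : G →* AddMonoid.End A) (a b : G) (y : A) : ρ (a * b) y = ρ a (ρ b y) := by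
  rw [map_mul]
  rfl

lemma rho_one (ρ : G →* AddMonoid.End A) (y : A) : ρ 1 y = y := by
  rw [map_one]
  rfl

lemma rho_inv (ρ : G →* AddMonoid.End A) (a : G) (y : A) : ρ a (ρ a⁻¹ y) = y := by
  rw [← rho_mul, mul_inv_cancel, rho_one]

lemma rho_inv' (ρ : G →* AddMonoid.End A) (a : G) (y : A) : ρ a⁻¹ (ρ a y) = y := by
  rw [← rho_mul, inv_mul_cancel, rho_one]

section stab

variable {X : Type} [TopologicalSpace X] [CompactSpace X]

/-- a locally constant function of two variables is uniformly locally constant in the first one -/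
lemma isOpen_forall {Y : Type} [TopologicalSpace Y] {B : Type} {F : Y × X → B}
    (hF : IsLocallyConstant F) (y₀ : Y) : IsOpen {y | ∀ x, F (y, x) = F (y₀, x)} := by
  have h1 : IsLocallyConstant fun q : Y × X => (F q, F (y₀, q.2)) :=
    hF.prodMk (hF.comp_continuous (by fun_prop : Continuous fun q : Y × X => (y₀, q.2)))
  have h2 : IsClosed {q : Y × X | F q ≠ F (y₀, q.2)} := by
    rw [← isOpen_compl_iff]
    convert h1 {z | z.1 = z.2} using 1
    ext q
    simp
  have h4 := isClosedMap_fst_of_compactSpace (X := Y) (Y := X) _ h2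
  rw [← isOpen_compl_iff] at h4
  convert h4 using 1
  ext y
  simp only [Set.mem_ofPred_eq, Set.mem_compl_iff, Set.mem_image, Prod.exists, exists_and_right,
    exists_eq_right, not_exists, not_not]

variable [MulAction G X] [ContinuousSMul G X]

/-- the elements which fix a function and its values -/
def U (ρ : G →* AddMonoid.End A) (f : X → A) : Subgroup G where
  carrier := {g | (∀ x, f (g • x) = f x) ∧ ∀ x, ρ g (f x) = f x}
  one_mem' := ⟨fun x => by rw [one_smul], fun x => rho_one ρ _⟩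
  mul_mem' := by
    rintro g h ⟨h1, h2⟩ ⟨h3, h4⟩
    exact ⟨fun x => by rw [mul_smul, h1, h3], fun x => by rw [rho_mul, h4, h2]⟩
  inv_mem' := by
    rintro g ⟨h1, h2⟩
    refine ⟨fun x => ?_, fun x => ?_⟩
    · rw [← h1, smul_inv_smul]
    · conv_lhs => rw [← h2 x]
      exact rho_inv' ρ g _

lemma isOpen_finset {ρ : G →* AddMonoid.End A} (hρ : Smooth ρ) {S : Set A} (hS : S.Finite) :
    IsOpen {g : G | ∀ a ∈ S, ρ g a = a} := by
  have h1 : {g : G | ∀ a ∈ S, ρ g a = a} = ⋂ a ∈ S, {g : G | ρ g a = a} := by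
    ext g
    simp
  rw [h1]
  exact hS.isOpen_biInter fun a _ => hρ a

lemma isOpen_U {ρ : G →* AddMonoid.End A} (hρ : Smooth ρ) {f : X → A} (hf : IsLocallyConstant f) :
    IsOpen (U ρ f : Set G) := by
  have h1 : IsLocallyConstant fun q : G × X => f (q.1 • q.2) :=
    hf.comp_continuous continuous_smul
  have h2 := isOpen_forall h1 1
  have h3 := isOpen_finset hρ hf.range_finite
  convert h2.inter h3 using 1
  ext g
  simp only [one_smul, Set.mem_inter_iff, Set.mem_ofPred_eq, Set.mem_range, forall_exists_index,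
    forall_apply_eq_imp_iff]
  rfl

end stab

section lv

variable {p : ℕ} [Fact p.Prime]

/-- the elements whose image in `ℤ_p` is divisible by `p ^ j` -/
def lv (φ : G →* Multiplicative ℤ_[p]) (j : ℕ) : Subgroup G where
  carrier := {g | (p : ℤ_[p]) ^ j ∣ Multiplicative.toAdd (φ g)}
  one_mem' := by
    change _ ∣ Multiplicative.toAdd (φ 1)
    rw [map_one, toAdd_one]
    exact dvd_zero _
  mul_mem' := by
    intro g h hg hh
    change _ ∣ Multiplicative.toAdd (φ (g * h))
    rw [map_mul, toAdd_mul]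
    exact dvd_add hg hh
  inv_mem' := by
    intro g hg
    change _ ∣ Multiplicative.toAdd (φ g⁻¹)
    rw [map_inv, toAdd_inv, dvd_neg]
    exact hg

lemma mem_lv {φ : G →* Multiplicative ℤ_[p]} {j : ℕ} {g : G} :
    g ∈ lv φ j ↔ (p : ℤ_[p]) ^ j ∣ Multiplicative.toAdd (φ g) := Iff.rfl

lemma ker_le_lv (φ : G →* Multiplicative ℤ_[p]) (j : ℕ) : φ.ker ≤ lv φ j := by
  intro g hg
  rw [MonoidHom.mem_ker] at hg
  rw [mem_lv, hg, toAdd_one]
  exact dvd_zero _

lemma lv_anti (φ : G →* Multiplicative ℤ_[p]) {i j : ℕ} (h : i ≤ j) : lv φ j ≤ lv φ i :=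
  fun _ hg => (pow_dvd_pow _ h).trans hg

lemma isOpen_dvd (n : ℕ) : IsOpen {x : ℤ_[p] | (p : ℤ_[p]) ^ n ∣ x} := by
  have h2 : {x : ℤ_[p] | (p : ℤ_[p]) ^ n ∣ x} = Metric.closedBall 0 ((p : ℝ) ^ (-n : ℤ)) := by
    ext x
    rw [Set.mem_ofPred_eq, mem_closedBall_zero_iff, PadicInt.norm_le_pow_iff_mem_span_pow,
      Ideal.mem_span_singleton]
  rw [h2]
  apply IsUltrametricDist.isOpen_closedBall
  have hp : (0 : ℝ) < p := by exact_mod_cast (Fact.out : p.Prime).pos
  positivity

lemma isOpen_lv {φ : G →* Multiplicative ℤ_[p]} (hφ : Continuous φ) (j : ℕ) :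
    IsOpen (lv φ j : Set G) :=
  (isOpen_dvd j).preimage (continuous_toAdd.comp hφ)

lemma exists_lv {φ : G →* Multiplicative ℤ_[p]} (hs : Function.Surjective φ) {V : Subgroup G}
    (hV : IsOpen (V : Set G)) : ∃ j, ∀ g ∈ lv φ j, ∃ u ∈ V, φ u = φ g := by
  classical
  have hq : Finite (G ⧸ V) := Subgroup.quotient_finite_of_isOpen V hV
  have hfin : V.FiniteIndex := Subgroup.finiteIndex_of_finite_quotient
  have hcore : V.normalCore.FiniteIndex := inferInstance
  set m := V.normalCore.index with hm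
  have hm0 : m ≠ 0 := hcore.index_ne_zero
  have hI : Ideal.span {(m : ℤ_[p])} ≠ ⊥ := by
    rw [Ne, Ideal.span_singleton_eq_bot]
    exact_mod_cast hm0
  obtain ⟨j, hj⟩ := PadicInt.ideal_eq_span_pow_p hI
  refine ⟨j, fun g hg => ?_⟩
  rw [mem_lv, ← Ideal.mem_span_singleton, ← hj, Ideal.mem_span_singleton] at hg
  obtain ⟨z, hz⟩ := hg
  obtain ⟨g', hg'⟩ := hs (Multiplicative.ofAdd z)
  refine ⟨g' ^ m, V.normalCore_le (Subgroup.pow_index_mem V.normalCore g'), ?_⟩
  apply Multiplicative.toAdd.injective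
  rw [map_pow, hg', toAdd_pow, hz, nsmul_eq_mul]
  rfl

variable {X : Type} [TopologicalSpace X] [CompactSpace X] [MulAction G X] [ContinuousSMul G X]

/-- **Periodicity.** A function which is equivariant under the kernel of `φ` is equivariant under
some `lv φ j`. -/
lemma exists_K_lv {ρ : G →* AddMonoid.End A} (hρ : Smooth ρ) {φ : G →* Multiplicative ℤ_[p]}
    (hs : Function.Surjective φ) {f : X → A} (hf : f ∈ K ρ φ.ker X) :
    ∃ j, f ∈ K ρ (lv φ j) X := by
  obtain ⟨j, hj⟩ := exists_lv hs (isOpen_U hρ hf.1)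
  refine ⟨j, hf.1, fun g hg x => ?_⟩
  obtain ⟨u, hu, hug⟩ := hj g hg
  have hn : u⁻¹ * g ∈ φ.ker := by
    rw [MonoidHom.mem_ker, map_mul, map_inv, hug, inv_mul_cancel]
  have h1 : g = u * (u⁻¹ * g) := by group
  have h2 := hf.2 _ hn x
  calc f (g • x) = f (u • (u⁻¹ * g) • x) := by rw [← mul_smul, ← h1]
    _ = f ((u⁻¹ * g) • x) := hu.1 _
    _ = ρ u (f ((u⁻¹ * g) • x)) := (hu.2 _).symm
    _ = ρ u (ρ (u⁻¹ * g) (f x)) := by rw [h2]
    _ = ρ g (f x) := by rw [← rho_mul, ← h1]

end lv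

end Pool.Agent.Helper864OP
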